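import Pool.Agent.Work.MP_a5099b_nt.Defs

/-!
# Module C.EHas (S-M)

The Hasse coefficient of a curve depends only on the invariant.
-/

set_option autoImplicit false

namespace Pool.Agent.SS

open Polynomial

theorem Hasse_map {p : ℕ} {k K : Type*} [CommRing k] [CommRing K] (f : k →+* K) (a b : k) :
    Hasse p (f a) (f b) = f (Hasse p a b) := by
  unfold Hasse
  rw [← coeff_map]
  simp

private theorem coeff_scale {k : Type*} [CommRing k] (F : k[X]) (s : k) (n : ℕ) :
    (F.comp (C s * X)).coeff n = s ^ n * F.coeff n := by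
  rw [comp_C_mul_X_coeff]
  ring

theorem Hasse_scale {p : ℕ} (hp : p.Prime) (h5 : 5 ≤ p) {k : Type*} [Field k] (a b u : k)
    (hu : u ≠ 0) : Hasse p (u ^ 4 * a) (u ^ 6 * b) = u ^ (p - 1) * Hasse p a b := by
  have hodd : p % 2 = 1 := by
    rcases hp.eq_two_or_odd with h | h
    · omega
    · exact h
  obtain ⟨m, hm⟩ : ∃ m, p - 1 = 2 * m := ⟨(p - 1) / 2, by omega⟩
  have hm2 : (p - 1) / 2 = m := by omega
  have key : ((X ^ 3 + C (u ^ 4 * a) * X + C (u ^ 6 * b) : k[X]) ^ m).comp (C (u ^ 2) * X) =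
      C (u ^ (6 * m)) * (X ^ 3 + C a * X + C b : k[X]) ^ m := by
    rw [pow_comp, pow_mul, show (C ((u ^ 6) ^ m) : k[X]) = (C (u ^ 6)) ^ m from C_pow, ← mul_pow]
    congr 1
    simp only [add_comp, pow_comp, X_comp, mul_comp, C_comp, map_mul, map_pow]
    ring
  have h1 := congrArg (fun F => F.coeff (p - 1)) key
  simp only [coeff_scale, coeff_C_mul] at h1
  unfold Hasse
  rw [hm2]
  have h2 : (u ^ 2) ^ (p - 1) ≠ 0 := pow_ne_zero _ (pow_ne_zero _ hu)
  apply mul_left_cancel₀ h2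
  rw [h1, ← mul_assoc]
  congr 1
  rw [hm]
  ring

private theorem ne_zero_of {p : ℕ} (hp : p.Prime) (h5 : 5 ≤ p) {k : Type*} [Field k] [CharP k p]
    (n : ℕ) (_hn : n ≠ 0) (h : ∀ q : ℕ, q.Prime → q ∣ n → q < 5) : (n : k) ≠ 0 := by
  intro h0
  rw [CharP.cast_eq_zero_iff k p] at h0
  exact absurd (h p hp h0) (by omega)

private theorem n2 {p : ℕ} (hp : p.Prime) (h5 : 5 ≤ p) {k : Type*} [Field k] [CharP k p] :
    (2 : k) ≠ 0 := by
  have := ne_zero_of hp h5 (k := k) 2 (by norm_num) (fun q hq h => by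
    have := Nat.le_of_dvd (by norm_num) h
    omega)
  exact_mod_cast this

private theorem n3 {p : ℕ} (hp : p.Prime) (h5 : 5 ≤ p) {k : Type*} [Field k] [CharP k p] :
    (3 : k) ≠ 0 := by
  have := ne_zero_of hp h5 (k := k) 3 (by norm_num) (fun q hq h => by
    have := Nat.le_of_dvd (by norm_num) h
    omega)
  exact_mod_cast this

private theorem all_closed {p : ℕ} (hp : p.Prime) (h5 : 5 ≤ p) {k : Type*} [Field k] [CharP k p]
    [IsAlgClosed k] {a b a' b' : k} (h : 4 * a ^ 3 + 27 * b ^ 2 ≠ 0)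
    (h' : 4 * a' ^ 3 + 27 * b' ^ 2 ≠ 0)
    (hj : a ^ 3 * (4 * a' ^ 3 + 27 * b' ^ 2) = a' ^ 3 * (4 * a ^ 3 + 27 * b ^ 2))
    (h0 : Hasse p a b = 0) : Hasse p a' b' = 0 := by
  have h27 : (27 : k) ≠ 0 := by
    have : (27 : k) = 3 ^ 3 := by norm_num
    rw [this]
    exact pow_ne_zero _ (n3 hp h5)
  have h4 : (4 : k) ≠ 0 := by
    have : (4 : k) = 2 ^ 2 := by norm_num
    rw [this]
    exact pow_ne_zero _ (n2 hp h5)
  have hc : a ^ 3 * b' ^ 2 = a' ^ 3 * b ^ 2 := by
    apply mul_left_cancel₀ h27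
    linear_combination hj
  have main : ∀ u : k, u ≠ 0 → a' = u ^ 4 * a → b' = u ^ 6 * b → Hasse p a' b' = 0 := by
    intro u hu h1 h2
    rw [h1, h2, Hasse_scale hp h5 a b u hu, h0, mul_zero]
  by_cases ha : a = 0
  · subst ha
    have hb : b ≠ 0 := by
      rintro rfl
      apply h
      ring
    have ha' : a' = 0 := by
      have : a' ^ 3 * b ^ 2 = 0 := by
        rw [← hc]
        ring
      rcases mul_eq_zero.mp this with h | h
      · exact pow_eq_zero_iff (by norm_num) |>.mp h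
      · exact absurd (pow_eq_zero_iff (by norm_num) |>.mp h) hb
    subst ha'
    have hb' : b' ≠ 0 := by
      rintro rfl
      apply h'
      ring
    obtain ⟨u, hu⟩ := IsAlgClosed.exists_pow_nat_eq (b' / b) (n := 6) (by norm_num)
    refine main u ?_ (by ring) ?_
    · rintro rfl
      rw [zero_pow (by norm_num)] at hu
      exact div_ne_zero hb' hb hu.symm
    · rw [hu]
      field_simp
  by_cases hb : b = 0
  · subst hb
    have hb' : b' = 0 := by
      have : a ^ 3 * b' ^ 2 = 0 := by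
        rw [hc]
        ring
      rcases mul_eq_zero.mp this with h | h
      · exact absurd (pow_eq_zero_iff (by norm_num) |>.mp h) ha
      · exact pow_eq_zero_iff (by norm_num) |>.mp h
    subst hb'
    have ha' : a' ≠ 0 := by
      rintro rfl
      apply h'
      ring
    obtain ⟨u, hu⟩ := IsAlgClosed.exists_pow_nat_eq (a' / a) (n := 4) (by norm_num)
    refine main u ?_ ?_ (by ring)
    · rintro rfl
      rw [zero_pow (by norm_num)] at hu
      exact div_ne_zero ha' ha hu.symm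
    · rw [hu]
      field_simp
  have ha' : a' ≠ 0 := by
    rintro rfl
    have : a ^ 3 * b' ^ 2 = 0 := by
      rw [hc]
      ring
    rcases mul_eq_zero.mp this with h | h
    · exact absurd (pow_eq_zero_iff (by norm_num) |>.mp h) ha
    · have hb0 := pow_eq_zero_iff (by norm_num) |>.mp h
      apply h'
      rw [hb0]
      ring
  have hb' : b' ≠ 0 := by
    rintro rfl
    have : a' ^ 3 * b ^ 2 = 0 := by
      rw [← hc]
      ring
    rcases mul_eq_zero.mp this with h | h
    · exact absurd (pow_eq_zero_iff (by norm_num) |>.mp h) ha'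
    · exact absurd (pow_eq_zero_iff (by norm_num) |>.mp h) hb
  obtain ⟨u, hu⟩ := IsAlgClosed.exists_pow_nat_eq (b' / b * (a / a')) (n := 2) (by norm_num)
  have hs0 : b' / b * (a / a') ≠ 0 := mul_ne_zero (div_ne_zero hb' hb) (div_ne_zero ha ha')
  have hu0 : u ≠ 0 := by
    rintro rfl
    rw [zero_pow (by norm_num)] at hu
    exact hs0 hu.symm
  have hs2 : (b' / b * (a / a')) ^ 2 = a' / a := by
    field_simp
    linear_combination hc
  refine main u hu0 ?_ ?_
  · have : u ^ 4 = a' / a := by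
      rw [← hs2, ← hu]
      ring
    rw [this]
    field_simp
  · have : u ^ 6 = b' / b := by
      have h6 : u ^ 6 = (b' / b * (a / a')) ^ 2 * (b' / b * (a / a')) := by
        rw [← hu]
        ring
      rw [h6, hs2]
      field_simp
    rw [this]
    field_simp

/-- Independence of the curve (also at `y = 0` and `y = 1728`, where `Hasse` has one monomial). -/
theorem SSj_all {p : ℕ} (hp : p.Prime) (h5 : 5 ≤ p) {k : Type*} [Field k] [CharP k p] {y : k}
    (hy : SSj p y) {a b : k} (hab : 4 * a ^ 3 + 27 * b ^ 2 ≠ 0)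
    (hj : 1728 * (4 * a ^ 3) = y * (4 * a ^ 3 + 27 * b ^ 2)) : Hasse p a b = 0 := by
  obtain ⟨a₀, b₀, h0, h1, h2⟩ := hy
  let f := algebraMap k (AlgebraicClosure k)
  have : CharP (AlgebraicClosure k) p := charP_of_injective_algebraMap f.injective p
  have hinj : Function.Injective f := f.injective
  apply hinj
  rw [map_zero, ← Hasse_map f]
  have h6912 : (6912 : k) ≠ 0 := by
    have : (6912 : k) = 2 ^ 8 * 3 ^ 3 := by norm_num
    rw [this]
    exact mul_ne_zero (pow_ne_zero _ (n2 hp h5)) (pow_ne_zero _ (n3 hp h5))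
  have hk : a₀ ^ 3 * (4 * a ^ 3 + 27 * b ^ 2) = a ^ 3 * (4 * a₀ ^ 3 + 27 * b₀ ^ 2) := by
    apply mul_left_cancel₀ h6912
    linear_combination (4 * a ^ 3 + 27 * b ^ 2) * h1 - (4 * a₀ ^ 3 + 27 * b₀ ^ 2) * hj
  refine all_closed hp h5 (a := f a₀) (b := f b₀) ?_ ?_ ?_ ?_
  · have := (map_ne_zero_iff f hinj).mpr h0
    simpa [map_ofNat f] using this
  · have := (map_ne_zero_iff f hinj).mpr hab
    simpa [map_ofNat f] using this
  · have := congrArg f hk
    simpa [map_ofNat f] using this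
  · rw [Hasse_map f, h2, map_zero]

theorem exists_ab {p : ℕ} (hp : p.Prime) (h5 : 5 ≤ p) {k : Type*} [Field k] [CharP k p] (y : k) :
    ∃ a b : k, 4 * a ^ 3 + 27 * b ^ 2 ≠ 0 ∧
      1728 * (4 * a ^ 3) = y * (4 * a ^ 3 + 27 * b ^ 2) := by
  have h2 := n2 hp h5 (k := k)
  have h3 := n3 hp h5 (k := k)
  by_cases h0 : y = 0
  · refine ⟨0, 1, ?_, ?_⟩
    · have : (4 * 0 ^ 3 + 27 * 1 ^ 2 : k) = 3 ^ 3 := by norm_num
      rw [this]
      exact pow_ne_zero _ h3
    · rw [h0]
      ring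
  by_cases h1 : y = 1728
  · refine ⟨1, 0, ?_, ?_⟩
    · have : (4 * 1 ^ 3 + 27 * 0 ^ 2 : k) = 2 ^ 2 := by norm_num
      rw [this]
      exact pow_ne_zero _ h2
    · rw [h1]
      ring
  have hd : 1728 - y ≠ 0 := sub_ne_zero.mpr (Ne.symm h1)
  have e : 4 * (3 * y / (1728 - y)) ^ 3 + 27 * (2 * y / (1728 - y)) ^ 2 =
      2 ^ 8 * 3 ^ 6 * y ^ 2 / (1728 - y) ^ 3 := by
    field_simp
    ring
  refine ⟨3 * y / (1728 - y), 2 * y / (1728 - y), ?_, ?_⟩
  · rw [e]
    exact div_ne_zero (mul_ne_zero (mul_ne_zero (pow_ne_zero _ h2) (pow_ne_zero _ h3))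
      (pow_ne_zero _ h0)) (pow_ne_zero _ hd)
  · rw [e]
    field_simp
    ring

theorem SSj_map {p : ℕ} (hp : p.Prime) (h5 : 5 ≤ p) {k K : Type*} [Field k] [Field K] [CharP k p]
    [CharP K p] (f : k →+* K) (y : k) : SSj p (f y) ↔ SSj p y := by
  have hinj : Function.Injective f := f.injective
  constructor
  · intro h
    obtain ⟨a, b, h1, h2⟩ := exists_ab hp h5 y
    refine ⟨a, b, h1, h2, ?_⟩
    apply hinj
    rw [map_zero, ← Hasse_map f]
    refine SSj_all hp h5 h ?_ ?_
    · have := (map_ne_zero_iff f hinj).mpr h1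
      simpa [map_ofNat f] using this
    · have := congrArg f h2
      simpa [map_ofNat f] using this
  · rintro ⟨a, b, h1, h2, h3⟩
    refine ⟨f a, f b, ?_, ?_, ?_⟩
    · have := (map_ne_zero_iff f hinj).mpr h1
      simpa [map_ofNat f] using this
    · have := congrArg f h2
      simpa [map_ofNat f] using this
    · rw [Hasse_map f, h3, map_zero]

theorem SSj_frob {p : ℕ} (hp : p.Prime) (h5 : 5 ≤ p) {k : Type*} [Field k] [CharP k p] (y : k) :
    SSj p (y ^ p) ↔ SSj p y := by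
  have : Fact p.Prime := ⟨hp⟩
  exact SSj_map hp h5 (frobenius k p) y

end Pool.Agent.SS
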