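import Pool.Agent.Work.MP_a5099b_nt.SpecC0
import Pool.Agent.Work.MP_a5099b_nt.SpecT
import Pool.Agent.Work.MP_a5099b_nt.C.EHas

/-!
# Module C.EGood

The class `Good l` contains `HH l`, `1`, is closed under products and under `TT n`.
-/

set_option autoImplicit false

namespace Pool.Agent.SS

open Polynomial
open Pool.Agent.Work.CM

theorem HH_good {l : ℕ} (hl : LPrime l) : Good l (HH l) where
  monic := (isHH hl).monic
  even := HH_even hl
  sq := HH_sq hl
  ss := fun _ hp h5 h _ _ _ z hz => HH_ss hl hp h5 h z hz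

theorem Good.mul {l : ℕ} {F G : ℤ[X]} (hF : Good l F) (hG : Good l G) : Good l (F * G) where
  monic := hF.monic.mul hG.monic
  even := by
    rw [hF.monic.natDegree_mul hG.monic]
    exact hF.even.add hG.even
  sq := by
    obtain ⟨R, hR⟩ := hF.sq
    obtain ⟨S, hS⟩ := hG.sq
    refine ⟨R * S, ?_⟩
    have : F * G - (R * S) ^ 2 = (F - R ^ 2) * G + R ^ 2 * (G - S ^ 2) := by ring
    rw [this]
    exact dvd_add (hR.mul_right _) (hS.mul_left _)
  ss := fun p hp h5 h k _ _ z hz => by
    rw [map_mul] at hz
    rcases mul_eq_zero.mp hz with h0 | h0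
    · exact hF.ss p hp h5 h k z h0
    · exact hG.ss p hp h5 h k z h0

theorem Good.one {l : ℕ} : Good l 1 where
  monic := monic_one
  even := by simp
  sq := ⟨1, by simp⟩
  ss := fun p hp h5 h k _ _ z hz => by simp at hz

private theorem TT_monic_natDegree' {n : ℕ} (hn : n.Prime) {F : ℤ[X]} (hF : F.Monic)
    (hev : Even F.natDegree) :
    (TT n F).Monic ∧ (TT n F).natDegree = (n + 1) * F.natDegree := by
  have hinj : Function.Injective (Int.castRingHom ℂ) := Int.cast_injective
  have hev : Even ((n + 1) * F.natDegree) := hev.mul_left _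
  have h := TT_res (n := n) (X : ℂ[X]) F
  rw [resultant_comm, hev.neg_one_pow, one_mul] at h
  have hFm : (F.map (Int.castRingHom ℂ[X])).Monic := hF.map _
  have hFd : (F.map (Int.castRingHom ℂ[X])).natDegree = F.natDegree := hF.natDegree_map _
  have hmm : F.map (Int.castRingHom ℂ[X]) = (F.map (Int.castRingHom ℂ)).map C := by
    rw [Polynomial.map_map]
    congr 1
  have hs : (F.map (Int.castRingHom ℂ[X])).Splits := by
    rw [hmm]
    exact (IsAlgClosed.splits _).map _
  have hr : (F.map (Int.castRingHom ℂ[X])).roots =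
      (F.map (Int.castRingHom ℂ)).roots.map C := by
    rw [hmm]
    exact (IsAlgClosed.splits (F.map (Int.castRingHom ℂ))).roots_map _
  have h3 := resultant_eq_prod_eval (F.map (Int.castRingHom ℂ[X])) (PhiAt n (X : ℂ[X])) (n + 1)
    (PhiAt_natDegree hn _).le hs
  rw [hFd, hFm.leadingCoeff, one_pow, one_mul, hr, Multiset.map_map] at h3
  rw [h3] at h
  have h5 : ∀ ρ : ℂ, (PhiAt n (X : ℂ[X])).eval (C ρ) = PhiAt n ρ := by
    intro ρ
    rw [PhiAt_symm hn, ← PhiAt_map C ρ, eval_map, eval₂_C_X]
  rw [aeval_eq, map_eval_X] at h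
  have h6 : (TT n F).map (Int.castRingHom ℂ) =
      ((F.map (Int.castRingHom ℂ)).roots.map fun ρ => PhiAt n ρ).prod := by
    rw [h]
    congr 1
    apply Multiset.map_congr rfl
    intro ρ _
    exact h5 ρ
  have hmon : ((TT n F).map (Int.castRingHom ℂ)).Monic := by
    rw [h6]
    exact monic_multiset_prod_of_monic _ _ fun ρ _ => PhiAt_monic hn ρ
  have hdeg : ((TT n F).map (Int.castRingHom ℂ)).natDegree = (n + 1) * F.natDegree := by
    rw [h6, natDegree_multiset_prod_of_monic]
    · rw [Multiset.map_map]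
      have : ((F.map (Int.castRingHom ℂ)).roots.map (natDegree ∘ fun ρ => PhiAt n ρ)) =
          (F.map (Int.castRingHom ℂ)).roots.map fun _ => n + 1 := by
        apply Multiset.map_congr rfl
        intro ρ _
        exact PhiAt_natDegree hn ρ
      rw [this, Multiset.map_const', Multiset.sum_replicate, smul_eq_mul,
        ← (IsAlgClosed.splits (F.map (Int.castRingHom ℂ))).natDegree_eq_card_roots,
        hF.natDegree_map, mul_comm]
    · intro f hf
      obtain ⟨ρ, _, rfl⟩ := Multiset.mem_map.mp hf
      exact PhiAt_monic hn ρ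
  refine ⟨?_, ?_⟩
  · exact monic_of_injective hinj hmon
  · rw [← hdeg, natDegree_map_eq_of_injective hinj]

theorem Good.TT {l n : ℕ} (hn : n.Prime) {F : ℤ[X]} (hF : Good l F) :
    Good l (Pool.Agent.SS.TT n F) where
  monic := (TT_monic_natDegree' hn hF.monic hF.even).1
  even := by
    rw [(TT_monic_natDegree' hn hF.monic hF.even).2]
    exact hF.even.mul_left _
  sq := TT_sq hn hF.sq
  ss := fun p hp h5 h k _ _ z hz => by
    let f := algebraMap k (AlgebraicClosure k)
    have hchar : CharP (AlgebraicClosure k) p := charP_of_injective_algebraMap f.injective p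
    have h1 : ((Pool.Agent.SS.TT n F).map (Int.castRingHom (AlgebraicClosure k))).eval (f z) =
        0 := by
      have e : Int.castRingHom (AlgebraicClosure k) = f.comp (Int.castRingHom k) :=
        RingHom.ext_int _ _
      rw [aeval_eq] at hz
      rw [e, ← Polynomial.map_map, eval_map, eval₂_at_apply, hz, map_zero]
    have h2 := TT_aeval_alg hn (f z) F
    rw [aeval_eq, h1, eq_comm, Multiset.prod_eq_zero_iff, Multiset.mem_map] at h2
    obtain ⟨y, hy, hy0⟩ := h2
    have hy1 : SSj p y := hF.ss p hp h5 h _ y hy0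
    have hy2 := (mem_roots'.mp hy).2
    rw [← SSj_map hp h5 f z]
    exact (SSj_isog hp h5 hn (f z) y hy2).mpr hy1

end Pool.Agent.SS
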