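import Pool.Agent.Work.MP_a5099b_nt.Defs

/-!
# Module C.ECnt (M)

The number of points of a Weierstrass curve over a finite field `k` of characteristic not `2`, `3`, as an element
of `k`.

`sum_char`: `Q = card k`, `g = X ^ 3 + C a * X + C b`, `m = (Q - 1) / 2`: `deg (g ^ m) ≤ 3 m < 2 (Q - 1)`, and
`∑ x, x ^ i` is `-1` if `i ≠ 0` and `Q - 1 ∣ i`, and `0` otherwise (`FiniteField.sum_pow_lt_card_sub_one`,
`FiniteField.sum_pow_units`; or `FiniteField.sum_pow_eq..`; for `0 < i`, `∑ x, x ^ i = ∑ u : kˣ, u ^ i`; for `i = 0` the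
sum is `Q = 0`), so only `i = Q - 1` contributes.

`sum_sol`: for `z : k` the number of `y` with `y ^ 2 = z` is, in `k`, `1 + z ^ ((Q - 1) / 2)` (the quadratic character:
`quadraticChar_card_sqrts`, `quadraticChar_eq_pow_of_char_ne_two'`), `ringChar k ≠ 2`.

`card_points`: `W.toAffine.Point ≃ Option {(x, y) // W.toAffine.Nonsingular x y}` (cases of the inductive type), and
`Nonsingular ↔ Equation` since `Δ ≠ 0` (`WeierstrassCurve.Affine.equation_iff_nonsingular_of_Δ_ne_zero` or the like).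
`Equation x y`: `y ^ 2 + a₁ x y + a₃ y = x ^ 3 + a₂ x ^ 2 + a₄ x + a₆`.  With `Y = y + (a₁ x + a₃) / 2` and
`X = x + b₂ / 12` this is `Y ^ 2 = X ^ 3 - c₄ / 48 X - c₆ / 864` (`ring`/`field_simp` after unfolding `c₄, c₆, b₂, b₄, b₆`).
This is a bijection of `k × k`; so the number of affine points is `∑ X, #{Y : Y ^ 2 = g (X)}`; the terms `1` sum to
`Q = 0` in `k`.  Add one for the point at infinity.
-/

set_option autoImplicit false

namespace Pool.Agent.SS

open Polynomial

private theorem ecnt_ring {k : Type*} [Field k] (h2 : (2 : k) ≠ 0) : ringChar k ≠ 2 := by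
  intro h
  apply h2
  have := ringChar.Nat.cast_ringChar (R := k)
  rw [h] at this
  exact_mod_cast this

private theorem ecnt_odd {k : Type*} [Field k] [Fintype k] (h2 : (2 : k) ≠ 0) :
    Odd (Fintype.card k) := by
  rw [Nat.odd_iff]
  exact FiniteField.odd_card_of_char_ne_two (ecnt_ring h2)

private theorem ecnt_three {k : Type*} [Field k] [Fintype k] (h2 : (2 : k) ≠ 0) :
    3 ≤ Fintype.card k := by
  have h := ecnt_odd (k := k) h2
  have h1 := Fintype.one_lt_card (α := k)
  obtain ⟨m, hm⟩ := h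
  omega

theorem sum_char {k : Type*} [Field k] [Fintype k] (h2 : (2 : k) ≠ 0) (a b : k) :
    ∑ x : k, (x ^ 3 + a * x + b) ^ ((Fintype.card k - 1) / 2) =
      -((X ^ 3 + C a * X + C b : k[X]) ^ ((Fintype.card k - 1) / 2)).coeff
        (Fintype.card k - 1) := by
  classical
  have hQ := ecnt_odd (k := k) h2
  have hQ3 := ecnt_three (k := k) h2
  obtain ⟨m, hm⟩ := hQ
  have hm0 : 0 < m := by omega
  have e1 : (Fintype.card k - 1) / 2 = m := by omega
  have e2 : Fintype.card k - 1 = 2 * m := by omega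
  rw [e1, e2]
  set F : k[X] := X ^ 3 + C a * X + C b with hF
  have hFdeg : F.natDegree ≤ 3 := by
    rw [hF]
    compute_degree
  have hdeg : (F ^ m).natDegree < 2 * m + 2 * m := by
    calc (F ^ m).natDegree ≤ m * F.natDegree := natDegree_pow_le
      _ ≤ m * 3 := Nat.mul_le_mul_left _ hFdeg
      _ < 2 * m + 2 * m := by omega
  have h3 : ∀ x : k, (x ^ 3 + a * x + b) ^ m =
      ∑ i ∈ Finset.range (2 * m + 2 * m), (F ^ m).coeff i * x ^ i := by
    intro x
    rw [← eval_eq_sum_range' hdeg, eval_pow, hF]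
    simp
  rw [Finset.sum_congr rfl fun x _ => h3 x, Finset.sum_comm]
  simp_rw [← Finset.mul_sum]
  have h4 : ∀ i ∈ Finset.range (2 * m + 2 * m), i ≠ 2 * m →
      (F ^ m).coeff i * ∑ x : k, x ^ i = 0 := by
    intro i hi hne
    rw [Finset.mem_range] at hi
    rcases lt_or_ge i (2 * m) with h | h
    · rw [FiniteField.sum_pow_lt_card_sub_one k i (by omega), mul_zero]
    · obtain ⟨j, rfl⟩ : ∃ j, i = 2 * m + j := ⟨i - 2 * m, by omega⟩
      have h5 : ∀ x : k, x ^ (2 * m + j) = x ^ j := by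
        intro x
        by_cases hx : x = 0
        · subst hx
          rw [zero_pow (by omega), zero_pow (by omega)]
        · rw [pow_add, ← e2, FiniteField.pow_card_sub_one_eq_one x hx, one_mul]
      rw [Finset.sum_congr rfl fun x _ => h5 x, FiniteField.sum_pow_lt_card_sub_one k j (by omega),
        mul_zero]
  rw [Finset.sum_eq_single (2 * m) h4 (fun h => absurd (Finset.mem_range.2 (by omega)) h)]
  have h6 : ∑ x : k, x ^ (2 * m) = -1 := by
    have h7 : ∀ x : k, x ^ (2 * m) = 1 - if x = 0 then 1 else 0 := by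
      intro x
      by_cases hx : x = 0
      · subst hx
        rw [zero_pow (by omega), if_pos rfl, sub_self]
      · rw [if_neg hx, sub_zero, ← e2, FiniteField.pow_card_sub_one_eq_one x hx]
    rw [Finset.sum_congr rfl fun x _ => h7 x, Finset.sum_sub_distrib]
    simp
  rw [h6, mul_neg_one]

theorem card_sol {k : Type*} [Field k] [Fintype k] [DecidableEq k] (h2 : (2 : k) ≠ 0) (a b : k) :
    ((Nat.card {z : k × k // z.2 ^ 2 = z.1 ^ 3 + a * z.1 + b} : ℕ) : k) =
      ∑ x : k, (x ^ 3 + a * x + b) ^ ((Fintype.card k - 1) / 2) := by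
  have hr := ecnt_ring (k := k) h2
  obtain ⟨m, hm⟩ := ecnt_odd (k := k) h2
  have e1 : (Fintype.card k - 1) / 2 = Fintype.card k / 2 := by omega
  rw [e1]
  have h3 : Nat.card {z : k × k // z.2 ^ 2 = z.1 ^ 3 + a * z.1 + b} =
      ∑ x : k, (Finset.univ.filter fun y : k => y ^ 2 = x ^ 3 + a * x + b).card := by
    rw [Nat.card_eq_fintype_card, Fintype.card_subtype, Finset.card_filter,
      Fintype.sum_prod_type]
    refine Finset.sum_congr rfl fun x _ => ?_
    rw [Finset.card_filter]
  rw [h3, Nat.cast_sum]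
  have h4 : ∀ x : k, (((Finset.univ.filter fun y : k => y ^ 2 = x ^ 3 + a * x + b).card : ℕ) : k) =
      (x ^ 3 + a * x + b) ^ (Fintype.card k / 2) + 1 := by
    intro x
    have h5 := quadraticChar_card_sqrts hr (x ^ 3 + a * x + b)
    have h6 := quadraticChar_eq_pow_of_char_ne_two' hr (x ^ 3 + a * x + b)
    have h7 : {y : k | y ^ 2 = x ^ 3 + a * x + b}.toFinset =
        Finset.univ.filter fun y : k => y ^ 2 = x ^ 3 + a * x + b := by
      ext y
      simp
    rw [h7] at h5
    rw [← h6]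
    have h8 := congrArg (fun z : ℤ => (z : k)) h5
    simpa using h8
  rw [Finset.sum_congr rfl fun x _ => h4 x, Finset.sum_add_distrib]
  simp

theorem card_points {k : Type*} [Field k] [Fintype k] [DecidableEq k] (h2 : (2 : k) ≠ 0)
    (h3 : (3 : k) ≠ 0) (W : WeierstrassCurve k) (hW : W.Δ ≠ 0) :
    ((Nat.card W.toAffine.Point : ℕ) : k) =
      1 - ((X ^ 3 + C (-W.c₄ / 48) * X + C (-W.c₆ / 864) : k[X]) ^
        ((Fintype.card k - 1) / 2)).coeff (Fintype.card k - 1) := by
  have h48 : (48 : k) ≠ 0 := by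
    have : (48 : k) = 2 ^ 4 * 3 := by norm_num
    rw [this]
    exact mul_ne_zero (pow_ne_zero _ h2) h3
  have h12 : (12 : k) ≠ 0 := by
    have : (12 : k) = 2 ^ 2 * 3 := by norm_num
    rw [this]
    exact mul_ne_zero (pow_ne_zero _ h2) h3
  have h864 : (864 : k) ≠ 0 := by
    have : (864 : k) = 2 ^ 5 * 3 ^ 3 := by norm_num
    rw [this]
    exact mul_ne_zero (pow_ne_zero _ h2) (pow_ne_zero _ h3)
  have key : ∀ x y : k, (y + (W.a₁ * x + W.a₃) / 2) ^ 2 -
      ((x + W.b₂ / 12) ^ 3 + (-W.c₄ / 48) * (x + W.b₂ / 12) + (-W.c₆ / 864)) =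
      y ^ 2 + W.a₁ * x * y + W.a₃ * y - (x ^ 3 + W.a₂ * x ^ 2 + W.a₄ * x + W.a₆) := by
    intro x y
    simp only [WeierstrassCurve.c₄, WeierstrassCurve.c₆, WeierstrassCurve.b₂,
      WeierstrassCurve.b₄, WeierstrassCurve.b₆]
    field_simp
    ring
  have keq : ∀ x y : k, (y + (W.a₁ * x + W.a₃) / 2) ^ 2 =
      (x + W.b₂ / 12) ^ 3 + (-W.c₄ / 48) * (x + W.b₂ / 12) + (-W.c₆ / 864) ↔
      W.toAffine.Equation x y := by
    intro x y
    rw [WeierstrassCurve.Affine.equation_iff, ← sub_eq_zero, key, sub_eq_zero]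
  let e0 : {xy : k × k // W.toAffine.Equation xy.1 xy.2} ≃
      {z : k × k // z.2 ^ 2 = z.1 ^ 3 + (-W.c₄ / 48) * z.1 + (-W.c₆ / 864)} :=
    { toFun := fun xy => ⟨(xy.1.1 + W.b₂ / 12, xy.1.2 + (W.a₁ * xy.1.1 + W.a₃) / 2),
        (keq _ _).2 xy.2⟩
      invFun := fun z => ⟨(z.1.1 - W.b₂ / 12, z.1.2 - (W.a₁ * (z.1.1 - W.b₂ / 12) + W.a₃) / 2),
        (keq _ _).1 (by rw [sub_add_cancel, sub_add_cancel]; exact z.2)⟩
      left_inv := fun xy => by
        apply Subtype.ext
        apply Prod.ext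
        · simp
        · simp
      right_inv := fun z => by
        apply Subtype.ext
        apply Prod.ext
        · simp
        · simp }
  let e1 : W.toAffine.Point ≃ Option {xy : k × k // W.toAffine.Equation xy.1 xy.2} :=
    { toFun := fun P => match P with
        | .zero => none
        | .some x y h => some ⟨(x, y), h.1⟩
      invFun := fun o => match o with
        | none => .zero
        | some xy => .some xy.1.1 xy.1.2
            ((W.toAffine.equation_iff_nonsingular_of_Δ_ne_zero hW).1 xy.2)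
      left_inv := fun P => by
        cases P <;> rfl
      right_inv := fun o => by
        cases o <;> rfl }
  rw [Nat.card_congr e1, Finite.card_option, Nat.card_congr e0, Nat.cast_add, card_sol h2,
    sum_char h2]
  push_cast
  ring

end Pool.Agent.SS
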