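import Pool.Agent.Work.MP_a5099b_nt.Defs

/-!
# Module C.EPow (M)

`p ≥ 5` prime, `R` a commutative ring (a domain in the second theorem) of characteristic `p`,
`g = X ^ 3 + C a * X + C b`, `h = g ^ ((p - 1) / 2)`.

`Hasse_step`: `(p ^ (r+1) - 1) / 2 = (p - 1) / 2 + p * ((p ^ r - 1) / 2)` (`p` odd), so
`g ^ ((p ^ (r+1) - 1) / 2) = h * (g ^ ((p ^ r - 1) / 2)) ^ p`, and `F ^ p = expand R p (F.map frob)`
(`Polynomial.expand_char` / `map_frobenius_expand`), i.e. `(F ^ p).coeff (p * m) = (F.coeff m) ^ p` and the other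
coefficients are zero.  `coeff_mul` at `p ^ (r+1) - 1`: the antidiagonal pairs `(i, p * m)` with `h.coeff i ≠ 0`
have `i ≤ 3 (p - 1) / 2 < 2 p - 1` (`natDegree_pow_le`, `natDegree h ≤ 3 * ((p-1)/2)`) and
`i + p * m = p ^ (r+1) - 1`, `i ≡ p - 1 mod p`, hence `i = p - 1`, `m = p ^ r - 1`.
`Hasse_coeff`: induction on `r`: the coefficient for `r = 1` is `Hasse p a b`; (one can start at `r = 0`, where
the coefficient is `1`, for the recursion, and use it for `r + 1`).
-/

set_option autoImplicit false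

namespace Pool.Agent.SS

open Polynomial

theorem Hasse_step {p : ℕ} (hp : p.Prime) (h5 : 5 ≤ p) {R : Type*} [CommRing R] [CharP R p]
    (a b : R) (r : ℕ) :
    ((X ^ 3 + C a * X + C b : R[X]) ^ ((p ^ (r + 1) - 1) / 2)).coeff (p ^ (r + 1) - 1) =
      Hasse p a b *
        (((X ^ 3 + C a * X + C b : R[X]) ^ ((p ^ r - 1) / 2)).coeff (p ^ r - 1)) ^ p := by
  have : Fact p.Prime := ⟨hp⟩
  have : ExpChar R p := ExpChar.prime hp
  obtain ⟨s, hs⟩ : Odd p := hp.odd_of_ne_two (by omega)
  obtain ⟨t, ht⟩ : Odd (p ^ r) := (hp.odd_of_ne_two (by omega)).pow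
  have e1 : p ^ (r + 1) - 1 = 2 * s + p * (2 * t) := by
    rw [pow_succ, ht]
    have : (2 * t + 1) * p = p * (2 * t) + p := by ring
    omega
  have e2 : (p ^ (r + 1) - 1) / 2 = s + t * p := by
    rw [e1, show 2 * s + p * (2 * t) = 2 * (s + t * p) from by ring]
    omega
  have e3 : (p ^ r - 1) / 2 = t := by omega
  have e4 : p ^ r - 1 = 2 * t := by omega
  have e5 : (p - 1) / 2 = s := by omega
  have e6 : p - 1 = 2 * s := by omega
  rw [e2, e1, e3, e4, Hasse, e5, e6]
  set F : R[X] := X ^ 3 + C a * X + C b with hF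
  have hFdeg : F.natDegree ≤ 3 := by
    rw [hF]
    compute_degree
  rw [pow_add, pow_mul, coeff_mul]
  have hcp : ∀ j, ((F ^ t) ^ p).coeff j = if p ∣ j then ((F ^ t).coeff (j / p)) ^ p else 0 := by
    intro j
    rw [← map_frobenius_expand (p := p), coeff_map, coeff_expand hp.pos]
    split_ifs
    · rw [frobenius_def]
    · rw [map_zero]
  rw [Finset.sum_eq_single (2 * s, p * (2 * t))]
  · dsimp only
    rw [hcp, if_pos (dvd_mul_right _ _), Nat.mul_div_cancel_left _ hp.pos]
  · rintro ⟨i, j⟩ hij hne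
    rw [Finset.HasAntidiagonal.mem_antidiagonal] at hij
    dsimp only at hij ⊢
    rw [hcp]
    split_ifs with hd
    · obtain ⟨m, rfl⟩ := hd
      by_cases hi : i ≤ 3 * s
      · exfalso
        apply hne
        have hm : m = 2 * t := by
          rcases lt_trichotomy m (2 * t) with h | h | h
          · exfalso
            have h1 : p * m + p ≤ p * (2 * t) := by
              rw [← Nat.mul_succ]
              exact Nat.mul_le_mul_left _ h
            omega
          · exact h
          · exfalso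
            have h1 : p * (2 * t) + p ≤ p * m := by
              rw [← Nat.mul_succ]
              exact Nat.mul_le_mul_left _ h
            omega
        subst hm
        have : i = 2 * s := by omega
        rw [this]
      · rw [coeff_eq_zero_of_natDegree_lt, zero_mul]
        calc (F ^ s).natDegree ≤ s * F.natDegree := natDegree_pow_le
          _ ≤ s * 3 := Nat.mul_le_mul_left _ hFdeg
          _ < i := by omega
    · rw [mul_zero]
  · intro h
    exact absurd (by simp) h

theorem Hasse_coeff {p : ℕ} (hp : p.Prime) (h5 : 5 ≤ p) {R : Type*} [CommRing R] [IsDomain R]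
    [CharP R p] (a b : R) {r : ℕ} (hr : r ≠ 0) :
    ((X ^ 3 + C a * X + C b : R[X]) ^ ((p ^ r - 1) / 2)).coeff (p ^ r - 1) = 0 ↔
      Hasse p a b = 0 := by
  obtain ⟨r, rfl⟩ := Nat.exists_eq_succ_of_ne_zero hr
  clear hr
  induction r with
  | zero =>
    rw [Nat.succ_eq_add_one, Hasse_step hp h5]
    simp
  | succ r ih =>
    rw [Nat.succ_eq_add_one, Hasse_step hp h5, mul_eq_zero, pow_eq_zero_iff hp.ne_zero]
    rw [Nat.succ_eq_add_one] at ih
    rw [ih, or_self]

end Pool.Agent.SS
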