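import Pool.Agent.Work.MP_a5099b_nt.C.EHas
import Pool.Agent.Work.MP_a5099b_nt.C.EPow
import Pool.Agent.Work.MP_a5099b_nt.C.ECnt

/-!
# Module C.ECard (S-M)

`card k = p ^ r`, `r ≠ 0` (`FiniteField.card`); `Nat.card Points ≡ 1 [MOD p]` iff its image in `k` is `1`
iff (`card_points`) the coefficient is zero iff (`Hasse_coeff`)
`Hasse p (-c₄/48) (-c₆/864) = 0`; with `a = -c₄/48`, `b = -c₆/864`: `4 a ^ 3 + 27 b ^ 2 = -Δ / 16`
(`W.c_relation : 1728 * Δ = c₄ ^ 3 - c₆ ^ 2`), `1728 * (4 a ^ 3) = (c₄ ^ 3 / Δ) * (-Δ / 16)`: `SSj` by definition, and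
`SSj_all` for the converse.
-/

set_option autoImplicit false

namespace Pool.Agent.SS

open Polynomial

/-- Supersingular curves over a finite field are those with `≡ 1 mod p` points. -/
theorem card_iff {p : ℕ} (hp : p.Prime) (h5 : 5 ≤ p) {k : Type*} [Field k] [Fintype k] [CharP k p]
    [DecidableEq k] (W : WeierstrassCurve k) (hW : W.Δ ≠ 0) :
    Nat.card W.toAffine.Point ≡ 1 [MOD p] ↔ SSj p (W.c₄ ^ 3 / W.Δ) := by
  have h2 : (2 : k) ≠ 0 := by
    intro h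
    have h' : ((2 : ℕ) : k) = 0 := by exact_mod_cast h
    rw [CharP.cast_eq_zero_iff k p] at h'
    have := Nat.le_of_dvd (by norm_num) h'
    omega
  have h3 : (3 : k) ≠ 0 := by
    intro h
    have h' : ((3 : ℕ) : k) = 0 := by exact_mod_cast h
    rw [CharP.cast_eq_zero_iff k p] at h'
    have := Nat.le_of_dvd (by norm_num) h'
    omega
  obtain ⟨r, _, hr⟩ := FiniteField.card k p
  have hcard := card_points h2 h3 W hW
  rw [hr] at hcard
  have hH := Hasse_coeff hp h5 (-W.c₄ / 48) (-W.c₆ / 864) (r := (r : ℕ)) r.ne_zero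
  have h48 : (48 : k) ≠ 0 := by
    have : (48 : k) = 2 ^ 4 * 3 := by norm_num
    rw [this]
    exact mul_ne_zero (pow_ne_zero _ h2) h3
  have h864 : (864 : k) ≠ 0 := by
    have : (864 : k) = 2 ^ 5 * 3 ^ 3 := by norm_num
    rw [this]
    exact mul_ne_zero (pow_ne_zero _ h2) (pow_ne_zero _ h3)
  have h16 : (16 : k) ≠ 0 := by
    have : (16 : k) = 2 ^ 4 := by norm_num
    rw [this]
    exact pow_ne_zero _ h2
  have hrel := W.c_relation
  have e : 4 * (-W.c₄ / 48) ^ 3 + 27 * (-W.c₆ / 864) ^ 2 = -W.Δ / 16 := by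
    field_simp
    linear_combination (47775744 : k) * hrel
  have e2 : 1728 * (4 * (-W.c₄ / 48) ^ 3) =
      W.c₄ ^ 3 / W.Δ * (4 * (-W.c₄ / 48) ^ 3 + 27 * (-W.c₆ / 864) ^ 2) := by
    rw [e]
    field_simp
    ring
  have e1 : 4 * (-W.c₄ / 48) ^ 3 + 27 * (-W.c₆ / 864) ^ 2 ≠ 0 := by
    rw [e]
    exact div_ne_zero (neg_ne_zero.mpr hW) h16
  have hmod : Nat.card W.toAffine.Point ≡ 1 [MOD p] ↔
      ((Nat.card W.toAffine.Point : ℕ) : k) = 1 := by
    rw [← CharP.natCast_eq_natCast k p, Nat.cast_one]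
  rw [hmod, hcard, sub_eq_self, hH]
  constructor
  · intro h
    exact ⟨_, _, e1, e2, h⟩
  · intro h
    exact SSj_all hp h5 h e1 e2

end Pool.Agent.SS
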