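import Pool.Agent.Work.MP_a5099b_nt.C.MDif
import Pool.Agent.Work.MP_a5099b_nt.B.Odd

/-!
# Module C.MIn (M)

The Hasse polynomial vanishes at a lattice with multiplication by `√(-l)` if `p` is inert.

PROOF. `m = sq l`, `m^2 = -l`, `Complex.normSq m = l`, `m ≠ 0`. `Sup_of_mul` (`B.Odd`, proved): `Sup l L (m⁻¹ • L)`. `hL_wt` for `m⁻¹`:
`(m⁻¹)^(p-1) * hL p (m⁻¹ • L) = hL p L`, so `hL p (m⁻¹ • L) = m^(p-1) hL p L = (-l)^((p-1)/2) hL p L` (`p` odd). `ev_hL_sup` with `n = l ≠ p`: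
`ev (hL p L) = ev (hL p (m⁻¹ • L)) = (-l)^((p-1)/2) ev (hL p L)` in `K` (`Pl.ev_mul`, `Pl.ev_intCast`, `Pl.ev_pow`, `Pl.hL_mem`). In `ZMod p`:
`(-l)^((p-1)/2) = legendreSym = jacobiSym (-l) p = -1` (`jacobiSym.legendreSym.to_jacobiSym`, `legendreSym.eq_pow`: `(legendreSym p a : ZMod p) =
a ^ (p / 2)`, `p / 2 = (p - 1)/2`), map to `K` (`ZMod.castHom`, `CharP K p`). So `ev (hL p L) = - ev (hL p L)`, and `2 ≠ 0` in `K`.
-/

set_option autoImplicit false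

namespace Pool.Agent.SS

open UpperHalfPlane Polynomial
open Pool.Agent.Work.CM (IsLat g2 g3 tauLat)
open scoped Pointwise MatrixGroups

theorem ev_inert {K : Type} [Field K] {P : Pl K} {p : ℕ} [CharP K p] (hp : p.Prime) (h5 : 5 ≤ p)
    {l : ℕ} (hl : l.Prime) (hlp : l ≠ p) (hj : jacobiSym (-l) p = -1) {L : Submodule ℤ ℂ}
    (hlat : IsLat L) (hs : HasSq l L) (h4 : e4 L ∈ P.B) (h6 : e6 L ∈ P.B) :
    P.ev (hL p L) = 0 := by
  have hm2 : sq l ^ 2 = -(l : ℂ) := by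
    rw [sq, mul_pow, Complex.I_sq, ← Complex.ofReal_pow, Real.sq_sqrt (Nat.cast_nonneg l)]
    push_cast
    ring
  have hl0 : (l : ℂ) ≠ 0 := by exact_mod_cast hl.ne_zero
  have hm0 : sq l ≠ 0 := by
    intro h0
    rw [h0] at hm2
    apply hl0
    have : (l : ℂ) = -(-(l : ℂ)) := by ring
    rw [this, ← hm2]
    simp
  have hnorm : Complex.normSq (sq l) = l := by
    rw [sq, map_mul, Complex.normSq_I, one_mul, Complex.normSq_ofReal,
      Real.mul_self_sqrt (Nat.cast_nonneg l)]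
  have hsup : Sup l L ((sq l)⁻¹ • L) := Sup_of_mul hlat hnorm hl.ne_zero hs
  have hev := ev_hL_sup (P := P) hp h5 hl hlp hsup h4 h6
  have hwt := hL_wt hp h5 L hlat (sq l)⁻¹ (inv_ne_zero hm0)
  rw [zpow_natCast] at hwt
  obtain ⟨k, hk⟩ : ∃ k, p = 2 * k + 1 := by
    rcases hp.eq_two_or_odd' with h | h
    · omega
    · exact h
  have hk2 : p / 2 = k := by omega
  have hk1 : p - 1 = 2 * k := by omega
  have hval : hL p ((sq l)⁻¹ • L) = (((-(l : ℤ)) ^ k : ℤ) : ℂ) * hL p L := by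
    have h1 : ((sq l)⁻¹) ^ (p - 1) * (((-(l : ℤ)) ^ k : ℤ) : ℂ) = 1 := by
      rw [hk1, pow_mul, inv_pow, hm2]
      push_cast
      rw [← mul_pow, inv_mul_cancel₀ (neg_ne_zero.mpr hl0), one_pow]
    rw [← hwt, mul_comm _ (hL p ((sq l)⁻¹ • L)), ← mul_assoc, mul_comm _ (hL p ((sq l)⁻¹ • L)),
      mul_assoc, mul_comm (((-(l : ℤ)) ^ k : ℤ) : ℂ), h1, mul_one]
  have hF : Fact p.Prime := ⟨hp⟩
  have hleg : ((-(l : ℤ) : ℤ) : ZMod p) ^ k = -1 := by
    have h1 := legendreSym.eq_pow p (-(l : ℤ))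
    rw [hk2] at h1
    rw [← h1, jacobiSym.legendreSym.to_jacobiSym, hj]
    simp
  have hK : (((-(l : ℤ)) ^ k : ℤ) : K) = -1 := by
    have h1 := congrArg (ZMod.castHom (dvd_refl p) K) hleg
    rw [map_pow, map_neg, map_one, map_intCast] at h1
    rw [← h1]
    push_cast
    ring
  rw [hval, Pl.ev_mul (intCast_mem P.B _) (Pl.hL_mem h4 h6), Pl.ev_intCast, hK] at hev
  have h2 : (2 : K) * P.ev (hL p L) = 0 := by linear_combination -hev
  have h2ne : (2 : K) ≠ 0 := by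
    intro h0
    have h := (CharP.cast_eq_zero_iff K p 2).mp (by exact_mod_cast h0)
    have := Nat.le_of_dvd (by norm_num) h
    omega
  rcases mul_eq_zero.mp h2 with h | h
  · exact absurd h h2ne
  · exact h

end Pool.Agent.SS
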