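import Pool.Agent.Work.MP_a5099b_nt.C.MRa
import Pool.Agent.Work.MP_a5099b_nt.B.Odd

/-!
# Module C.MRam (M)

The Hasse polynomial vanishes at a lattice with multiplication by `√(-p)`.

PROOF. `m = sq p`, `m^2 = -p`, `normSq m = p`; `Sup_of_mul` (`B.Odd`, proved): `L' = m⁻¹ • L ∈ supF p L` (`mem_supF`). `hL_wt`:
`hL p L' = c h`, `c = m^(p-1) = (-p)^((p-1)/2)`, `h = hL p L`. `c^2 = (-p)^(p-1) = p^(p-1)` (`p - 1` even), `c ≠ 0`, `c ∈ P.B` (an integer: `c` is the cast of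
`(-p)^((p-1)/2)`), `ev c = 0` (characteristic `p`, exponent `≥ 1`). `R(X) = ∏ (X - hL p L'')` has degree `p + 1` (`card_supF`) and
`R(c h) = 0`: `∑_{i ≤ p+1} r_i (c h)^i = 0`. With `r_0 = p^(p-1) r = c^2 r` (`coef_zero`) divide by `c`:
`c r + r_1 h + c ∑_{2 ≤ i ≤ p+1} r_i c^(i-2) h^i = 0`, all terms in `P.B` (`coef_mem`, `Pl.dl_mem`, `Pl.hL_mem`). Take values: `ev r_1 * ev h = 0`, and `ev r_1 = -(ev h)^p`
(`coef_one`). So `(ev h)^(p+1) = 0`, `ev h = 0`.
-/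

set_option autoImplicit false

namespace Pool.Agent.SS

open UpperHalfPlane Polynomial
open Pool.Agent.Work.CM (IsLat g2 g3 tauLat)
open scoped Pointwise MatrixGroups

private theorem sq_sq (l : ℕ) : sq l ^ 2 = -(l : ℂ) := by
  unfold sq
  rw [mul_pow, Complex.I_sq, ← Complex.ofReal_pow, Real.sq_sqrt (Nat.cast_nonneg l)]
  push_cast
  ring

private theorem normSq_sq (l : ℕ) : Complex.normSq (sq l) = l := by
  unfold sq
  rw [map_mul, Complex.normSq_I, one_mul, Complex.normSq_ofReal,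
    Real.mul_self_sqrt (Nat.cast_nonneg l)]

theorem ev_ram {K : Type} [Field K] {P : Pl K} {p : ℕ} [CharP K p] (hp : p.Prime) (h5 : 5 ≤ p)
    {L : Submodule ℤ ℂ} (hlat : IsLat L) (hs : HasSq p L) (h4 : e4 L ∈ P.B) (h6 : e6 L ∈ P.B) :
    P.ev (hL p L) = 0 := by
  have hd : dl L ∈ P.B := Pl.dl_mem hp h5 h4 h6
  have hh : hL p L ∈ P.B := Pl.hL_mem h4 h6
  set h : ℂ := hL p L with hhdef
  have hm0 : sq p ≠ 0 := by
    intro h0
    have := normSq_sq p
    rw [h0, map_zero] at this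
    exact hp.ne_zero (by exact_mod_cast this.symm)
  have hsup : (sq p)⁻¹ • L ∈ supF p L :=
    (mem_supF hp hlat).2 (Sup_of_mul hlat (normSq_sq p) hp.ne_zero hs)
  obtain ⟨k, hk⟩ : ∃ k, p - 1 = 2 * k := by
    have := hp.eq_two_or_odd
    exact ⟨(p - 1) / 2, by omega⟩
  have hk1 : 1 ≤ k := by omega
  set c : ℂ := sq p ^ (p - 1) with hc
  have hck : c = ((-(p : ℤ)) ^ k : ℤ) := by
    rw [hc, hk, pow_mul, sq_sq]
    push_cast
    ring
  have hcB : c ∈ P.B := by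
    rw [hck]
    exact intCast_mem P.B _
  have hev : P.ev c = 0 := by
    rw [hck, Pl.ev_intCast]
    push_cast
    rw [CharP.cast_eq_zero K p, neg_zero, zero_pow (by omega)]
  have hc0 : c ≠ 0 := pow_ne_zero _ hm0
  have hc2 : c ^ 2 = (p : ℂ) ^ (p - 1) := by
    rw [hck, hk]
    push_cast
    rw [← pow_mul, mul_comm k 2, pow_mul, neg_sq, ← pow_mul]
  have hlat' : IsLat ((sq p)⁻¹ • L) := Pool.Agent.Work.CM.IsLat.smul hlat (inv_ne_zero hm0)
  have hw : hL p ((sq p)⁻¹ • L) = c * h := by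
    have h1 := hL_wt hp h5 ((sq p)⁻¹ • L) hlat' (sq p) hm0
    rw [smul_inv_smul₀ hm0 L, zpow_natCast] at h1
    rw [← h1]
  set R : ℂ[X] := ∏ L' ∈ supF p L, (X - C (hL p L')) with hR
  have hdeg : R.natDegree = p + 1 := by
    rw [hR, natDegree_prod_of_monic _ _ (fun L' _ => monic_X_sub_C _)]
    simp only [natDegree_X_sub_C, Finset.sum_const, smul_eq_mul, mul_one]
    exact card_supF hp hlat
  have heval : R.eval (c * h) = 0 := by
    rw [hR, eval_prod]
    refine Finset.prod_eq_zero hsup ?_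
    rw [eval_sub, eval_X, eval_C, hw, sub_self]
  obtain ⟨r, hr, hr0⟩ := coef_zero hp h5 P.B hlat h4 h6 hd
  obtain ⟨r', hr', hr1⟩ := coef_one hp h5 P.B hlat h4 h6 hd
  have hri : ∀ i, R.coeff i ∈ P.B := fun i => coef_mem hp h5 P.B hlat h4 h6 hd i
  rw [← hR] at hr0 hr1
  rw [eval_eq_sum_range, hdeg, Finset.sum_range_succ', Finset.sum_range_succ'] at heval
  simp only [zero_add, pow_one, pow_zero, mul_one] at heval
  set T : ℂ := ∑ i ∈ Finset.range p, R.coeff (i + 1 + 1) * (c ^ i * h ^ (i + 2)) with hT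
  have hTB : T ∈ P.B := sum_mem fun i _ =>
    mul_mem (hri _) (mul_mem (pow_mem hcB _) (pow_mem hh _))
  have hsum : ∑ i ∈ Finset.range p, R.coeff (i + 1 + 1) * (c * h) ^ (i + 1 + 1) = c ^ 2 * T := by
    rw [hT, Finset.mul_sum]
    refine Finset.sum_congr rfl fun i _ => ?_
    ring
  rw [hsum, hr0, ← hc2] at heval
  have h1 : c * (c * (T + r) + R.coeff 1 * h) = 0 := by
    rw [← heval]
    ring
  have h2 : c * (T + r) + R.coeff 1 * h = 0 := (mul_eq_zero.1 h1).resolve_left hc0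
  have h3 : P.ev (R.coeff 1) * P.ev h = 0 := by
    have h4' := congrArg P.ev h2
    rw [Pl.ev_zero, Pl.ev_add (mul_mem hcB (add_mem hTB hr)) (mul_mem (hri 1) hh),
      Pl.ev_mul hcB (add_mem hTB hr), Pl.ev_mul (hri 1) hh, hev, zero_mul, zero_add] at h4'
    exact h4'
  have h5' : P.ev (R.coeff 1) = -P.ev h ^ p := by
    rw [hr1, Pl.ev_add (neg_mem (pow_mem hh p)) (mul_mem (natCast_mem P.B p) hr'),
      Pl.ev_neg (pow_mem hh p), Pl.ev_pow hh, Pl.ev_mul (natCast_mem P.B p) hr', Pl.ev_natCast,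
      CharP.cast_eq_zero K p, zero_mul, add_zero]
  rw [h5', neg_mul, neg_eq_zero] at h3
  rcases mul_eq_zero.1 h3 with h6' | h6'
  · exact pow_eq_zero_iff hp.ne_zero |>.1 h6'
  · exact h6'

end Pool.Agent.SS
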