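import Pool.Agent.Work.MP_a5099b_nt.C.MDefs
import Pool.Agent.Work.MP_a5099b_nt.A.Lat

/-!
# Module C.MSs (S-M)

Supersingular values of `j`.

PROOF. `jL L = e4 L ^ 3 / dl L` (`jL_eq`), `Pl.div_mem`, `Pl.ev_div`, `Pl.dl_mem`, `Pl.ev_pow`. `SSj_iff_ev`: with `a = -27 x4`, `b = 54 x6`,
`x4 = ev (e4 L)`, `x6 = ev (e6 L)`, `d = ev (dl L)`, `1728 d = x4^3 - x6^2` (`Pl.ev_dl`): `4 a^3 + 27 b^2 = -78732 (x4^3 - x6^2) = -78732 * 1728 * d ≠ 0`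
(`78732 = 4 * 27^3 = 27 * 54^2`, only primes 2, 3) and `1728 * (4 a^3) = -78732 * 1728 * x4^3 = y (4 a^3 + 27 b^2)` with `y = x4^3/d`.
`←`: the definition of `SSj`; `→`: `SSj_all` (`C.EHas`, proved). `Pl.ev_hL`.
-/

set_option autoImplicit false

namespace Pool.Agent.SS

open UpperHalfPlane Polynomial
open Pool.Agent.Work.CM (IsLat g2 g3 tauLat)
open scoped Pointwise MatrixGroups

theorem jL_mem {K : Type} [Field K] {P : Pl K} {p : ℕ} [CharP K p] (hp : p.Prime) (h5 : 5 ≤ p)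
    {L : Submodule ℤ ℂ} (h4 : e4 L ∈ P.B) (h6 : e6 L ∈ P.B) (hd : P.ev (dl L) ≠ 0) :
    jL L ∈ P.B ∧ P.ev (jL L) = P.ev (e4 L) ^ 3 / P.ev (dl L) := by
  have hdm : dl L ∈ P.B := Pl.dl_mem hp h5 h4 h6
  rw [jL_eq]
  refine ⟨Pl.div_mem (pow_mem h4 3) hdm hd, ?_⟩
  rw [Pl.ev_div (pow_mem h4 3) hdm hd, Pl.ev_pow h4]

theorem SSj_iff_ev {K : Type} [Field K] {P : Pl K} {p : ℕ} [CharP K p] (hp : p.Prime) (h5 : 5 ≤ p)
    {L : Submodule ℤ ℂ} (h4 : e4 L ∈ P.B) (h6 : e6 L ∈ P.B) (hd : P.ev (dl L) ≠ 0) :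
    SSj p (P.ev (jL L)) ↔ P.ev (hL p L) = 0 := by
  obtain ⟨-, hj⟩ := jL_mem hp h5 h4 h6 hd
  have hdl := Pl.ev_dl hp h5 h4 h6
  rw [Pl.ev_hL h4 h6, hj]
  generalize P.ev (e4 L) = x4 at *
  generalize P.ev (e6 L) = x6 at *
  generalize P.ev (dl L) = d at *
  have h6ne : (6 : K) ≠ 0 := by
    have h := CharP.cast_eq_zero_iff K p 6
    intro h0
    have h1 : p ∣ 6 := h.mp (by exact_mod_cast h0)
    have h2 : p ≤ 6 := Nat.le_of_dvd (by norm_num) h1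
    have h3 : p = 5 ∨ p = 6 := by omega
    rcases h3 with rfl | rfl
    · norm_num at h1
    · exact absurd hp (by norm_num)
  have h2ne : (2 : K) ≠ 0 := by
    intro h0
    apply h6ne
    have : (6 : K) = 2 * 3 := by norm_num
    rw [this, h0, zero_mul]
  have h3ne : (3 : K) ≠ 0 := by
    intro h0
    apply h6ne
    have : (6 : K) = 2 * 3 := by norm_num
    rw [this, h0, mul_zero]
  have e1 : 4 * (-27 * x4) ^ 3 + 27 * (54 * x6) ^ 2 = -78732 * (1728 * d) := by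
    rw [hdl]
    ring
  have hc : (-78732 * 1728 : K) ≠ 0 := by
    have : (-78732 * 1728 : K) = -(2 ^ 8 * 3 ^ 12) := by norm_num
    rw [this]
    exact neg_ne_zero.mpr (mul_ne_zero (pow_ne_zero _ h2ne) (pow_ne_zero _ h3ne))
  have hne : 4 * (-27 * x4) ^ 3 + 27 * (54 * x6) ^ 2 ≠ 0 := by
    rw [e1, ← mul_assoc]
    exact mul_ne_zero hc hd
  have hj2 : 1728 * (4 * (-27 * x4) ^ 3) =
      x4 ^ 3 / d * (4 * (-27 * x4) ^ 3 + 27 * (54 * x6) ^ 2) := by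
    rw [e1]
    field_simp
    ring
  constructor
  · intro h
    exact SSj_all hp h5 h hne hj2
  · intro h
    exact ⟨_, _, hne, hj2, h⟩

end Pool.Agent.SS
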