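import Pool.Agent.Work.MP_a5099b_nt.C.MHH
import Pool.Agent.Work.MP_a5099b_nt.C.MIn
import Pool.Agent.Work.MP_a5099b_nt.C.MRam
import Pool.Agent.Work.MP_a5099b_nt.C.MSs

/-!
# Module C.MHHs (S-M)

The roots of the class polynomial are supersingular at inert and at ramified primes.

PROOF. `K = AlgebraicClosure k` (`Type`, `CharP K p`), `f = algebraMap k K`; `SSj_map` (`C.EHas`) and `aeval (f z) (HH l) = f (aeval z (HH l)) = 0`
(`Polynomial.aeval_algebraMap_apply` / `hom_eval₂`) reduce to `K` algebraically closed. `exists_HH` gives `L, P` with `dl L = 1` (`ev 1 = 1 ≠ 0`, `Pl.ev_one`).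
If `p = l`: `ev_ram`; otherwise `ev_inert` (with `l ≠ p`). `SSj_iff_ev`.
-/

set_option autoImplicit false

namespace Pool.Agent.SS

open UpperHalfPlane Polynomial
open Pool.Agent.Work.CM (IsLat g2 g3 tauLat)
open scoped Pointwise MatrixGroups

theorem HH_ss {l : ℕ} (hl : LPrime l) {p : ℕ} (hp : p.Prime) (h5 : 5 ≤ p)
    (h : p = l ∨ jacobiSym (-l) p = -1) {k : Type} [Field k] [CharP k p] (z : k)
    (hz : aeval z (HH l) = 0) : SSj p z := by
  let f : k →+* AlgebraicClosure k := algebraMap k (AlgebraicClosure k)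
  haveI : CharP (AlgebraicClosure k) p := charP_of_injective_algebraMap f.injective p
  rw [← SSj_map hp h5 f z]
  have hz' : aeval (f z) (HH l) = 0 := by
    have h1 := Polynomial.hom_eval₂ (HH l) (algebraMap ℤ k) f z
    have h2 : f.comp (algebraMap ℤ k) = algebraMap ℤ (AlgebraicClosure k) := Subsingleton.elim _ _
    rw [h2, ← aeval_def, ← aeval_def, hz, map_zero] at h1
    exact h1.symm
  obtain ⟨L, P, hL, hs, hd, h4, h6, hj⟩ := exists_HH hl (f z) hz'
  rw [← hj, SSj_iff_ev hp h5 h4 h6 (by rw [hd, Pl.ev_one]; exact one_ne_zero)]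
  by_cases hlp : l = p
  · subst hlp
    exact ev_ram hp h5 hL hs h4 h6
  · rcases h with h | h
    · exact absurd h.symm hlp
    · exact ev_inert hp h5 hl.prime hlp h hL hs h4 h6

end Pool.Agent.SS
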