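import Pool.Agent.Work.MP_a5099b_nt.C.QMain
import Pool.Agent.Work.MP_a5099b_nt.D.Defs
import Pool.Agent.Work.MP_a5099b_nt.A.Uniq
import Pool.Agent.Work.MP_a5099b_nt.A.Exp
import Pool.Agent.Work.MP_a5099b_nt.C.EHas

/-!
# Module C.QHas (S-M)

`hasse_q`. By `ek_hasse` and `QX_ekL`, uniqueness of expansions (`QX.unique`, `QX_e4`, `QX_e6`, the ring `QXring`):
`P(E4q, E6q) = 1 + p a` over `ℂ`, hence over `Zp p` (all coefficients lie in `Zp p`), so
`Hasse p (u E4q) (v E6q) = 1 + p(...)` over `Zp p`; apply `zpHom p (ZMod p)` coefficientwise (`Hasse` commutes with ring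
homomorphisms; `zpHom` maps `u` to `-(48)⁻¹`, `v` to `(864)⁻¹`).
-/

set_option autoImplicit false

namespace Pool.Agent.SS

open UpperHalfPlane Polynomial
open Pool.Agent.Work.CM (IsLat g2 g3 tauLat)
open scoped Pointwise MatrixGroups

section

variable {p : ℕ} [hp : Fact p.Prime]

private noncomputable def qh_iota (p : ℕ) [Fact p.Prime] : PowerSeries (Zp p) →+* LaurentSeries ℂ :=
  (HahnSeries.ofPowerSeries ℤ ℂ).comp (PowerSeries.map (Zp p).subtype)

private theorem qh_iota_inj : Function.Injective (qh_iota p) := by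
  intro f g h
  have h0 : PowerSeries.map (Zp p).subtype f = PowerSeries.map (Zp p).subtype g :=
    HahnSeries.ofPowerSeries_injective (Γ := ℤ) (R := ℂ) h
  ext n
  have h1 := congrArg (PowerSeries.coeff n) h0
  rwa [PowerSeries.coeff_map, PowerSeries.coeff_map] at h1

private theorem qh_toC (f : PowerSeries ℤ) : toC (HahnSeries.ofPowerSeries ℤ ℤ f) =
    qh_iota p (PowerSeries.map (Int.castRingHom (Zp p)) f) := by
  ext m
  show ((((HahnSeries.ofPowerSeries ℤ ℤ f).coeff m : ℤ)) : ℂ) =
    (HahnSeries.ofPowerSeries ℤ ℂ (PowerSeries.map (Zp p).subtype (PowerSeries.map (Int.castRingHom (Zp p)) f))).coeff m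
  rw [PowerSeries.coeff_coe, PowerSeries.coeff_coe]
  split_ifs
  · simp
  · rw [PowerSeries.coeff_map, PowerSeries.coeff_map]
    simp

private noncomputable def qh_psi (p : ℕ) [Fact p.Prime] : MvPolynomial (Fin 2) (Zp p) →+* PowerSeries (Zp p) :=
  MvPolynomial.eval₂Hom PowerSeries.C
    ![PowerSeries.map (Int.castRingHom (Zp p)) E4q, PowerSeries.map (Int.castRingHom (Zp p)) E6q]

private theorem qh_QX (P : MvPolynomial (Fin 2) (Zp p)) :
    QX 1 (fun τ => MvPolynomial.aeval ![e4 (tauLat τ), e6 (tauLat τ)] P) (qh_iota p (qh_psi p P)) := by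
  induction P using MvPolynomial.induction_on with
  | C a =>
    have h1 : (fun τ : ℍ => MvPolynomial.aeval ![e4 (tauLat τ), e6 (tauLat τ)] (MvPolynomial.C a : MvPolynomial (Fin 2) (Zp p))) =
        fun _ => (a : ℂ) := by
      funext τ
      rw [MvPolynomial.aeval_C]
      rfl
    have h2 : qh_iota p (qh_psi p (MvPolynomial.C a)) = HahnSeries.C (a : ℂ) := by
      simp only [qh_psi, qh_iota, MvPolynomial.coe_eval₂Hom, MvPolynomial.eval₂_C, RingHom.comp_apply,
        PowerSeries.map_C]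
      exact HahnSeries.ofPowerSeries_C _
    rw [h1, h2]
    exact QX.const 1 _
  | add P Q hP hQ =>
    have h := QX.add one_ne_zero hP hQ
    rw [← map_add, ← map_add] at h
    have h1 : (fun τ : ℍ => MvPolynomial.aeval ![e4 (tauLat τ), e6 (tauLat τ)] (P + Q)) =
        (fun τ : ℍ => MvPolynomial.aeval ![e4 (tauLat τ), e6 (tauLat τ)] P) +
        (fun τ : ℍ => MvPolynomial.aeval ![e4 (tauLat τ), e6 (tauLat τ)] Q) := by
      funext τ
      rw [map_add]
      rfl
    rw [h1]
    exact h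
  | mul_X P i hP =>
    have hX : QX 1 (fun τ : ℍ => (![e4 (tauLat τ), e6 (tauLat τ)] : Fin 2 → ℂ) i)
        (qh_iota p (qh_psi p (MvPolynomial.X i))) := by
      fin_cases i
      · have h2 : qh_iota p (qh_psi p (MvPolynomial.X 0)) = toC (HahnSeries.ofPowerSeries ℤ ℤ E4q) := by
          rw [qh_toC (p := p)]
          congr 1
          simp [qh_psi]
        show QX 1 (fun τ : ℍ => e4 (tauLat τ)) (qh_iota p (qh_psi p (MvPolynomial.X 0)))
        rw [h2]
        exact QX_e4
      · have h2 : qh_iota p (qh_psi p (MvPolynomial.X 1)) = toC (HahnSeries.ofPowerSeries ℤ ℤ E6q) := by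
          rw [qh_toC (p := p)]
          congr 1
          simp [qh_psi]
        show QX 1 (fun τ : ℍ => e6 (tauLat τ)) (qh_iota p (qh_psi p (MvPolynomial.X 1)))
        rw [h2]
        exact QX_e6
    have h := QX.mul one_ne_zero hP hX
    rw [← map_mul, ← map_mul] at h
    have h1 : (fun τ : ℍ => MvPolynomial.aeval ![e4 (tauLat τ), e6 (tauLat τ)] (P * MvPolynomial.X i)) =
        (fun τ : ℍ => MvPolynomial.aeval ![e4 (tauLat τ), e6 (tauLat τ)] P) *
        (fun τ : ℍ => (![e4 (tauLat τ), e6 (tauLat τ)] : Fin 2 → ℂ) i) := by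
      funext τ
      rw [map_mul, MvPolynomial.aeval_X]
      rfl
    rw [h1]
    exact h

private theorem qh_main (h5 : 5 ≤ p) :
    Hasse p (PowerSeries.C (-(48 : ZMod p)⁻¹) * E4b p) (PowerSeries.C ((864 : ZMod p)⁻¹) * E6b p) =
      (1 : PowerSeries (ZMod p)) := by
  obtain ⟨u, v, hu, hv⟩ := exists_uv (p := p) h5
  obtain ⟨P, P', -, hPL, hP⟩ := ek_hasse h5 hu hv
  obtain ⟨a, haR, ha0, ha⟩ := QX_ekL (p := p) h5
  have h1 := qh_QX P
  have h2 : (fun τ : ℍ => MvPolynomial.aeval ![e4 (tauLat τ), e6 (tauLat τ)] P) =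
      fun τ : ℍ => ekL (p - 1) (tauLat τ) := by
    funext τ
    exact (hPL _ (Pool.Agent.Work.CM.tauLat_isLat τ)).symm
  rw [h2] at h1
  have h3 := QX.unique one_ne_zero h1 ha
  let a' : PowerSeries (Zp p) := PowerSeries.mk fun n => (⟨a.coeff n, haR n⟩ : Zp p)
  have h4 : a = qh_iota p a' := by
    ext m
    show a.coeff m = (HahnSeries.ofPowerSeries ℤ ℂ (PowerSeries.map (Zp p).subtype a')).coeff m
    rw [PowerSeries.coeff_coe]
    split_ifs with hm
    · exact ha0 m hm
    · rw [PowerSeries.coeff_map, PowerSeries.coeff_mk]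
      show a.coeff m = a.coeff (m.natAbs : ℤ)
      congr 1
      omega
  have h5' : HahnSeries.C (p : ℂ) = qh_iota p (p : PowerSeries (Zp p)) := by
    rw [map_natCast, map_natCast]
  rw [h4, h5', ← map_mul, ← map_one (qh_iota p), ← map_add] at h3
  have h6 := qh_iota_inj h3
  let red : PowerSeries (Zp p) →+* PowerSeries (ZMod p) := PowerSeries.map (zpHom p (ZMod p))
  have hpz : (p : PowerSeries (ZMod p)) = 0 := by
    have : ((p : ZMod p)) = 0 := by simp
    rw [← map_natCast (PowerSeries.C : ZMod p →+* PowerSeries (ZMod p)), this, map_zero]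
  have h7 : red (qh_psi p P) = 1 := by
    rw [h6, map_add, map_mul, map_one, map_natCast, hpz, zero_mul, add_zero]
  have h8 : red (qh_psi p P) = Hasse p (red (qh_psi p (MvPolynomial.C u * MvPolynomial.X 0)))
      (red (qh_psi p (MvPolynomial.C v * MvPolynomial.X 1))) := by
    rw [Hasse_map, Hasse_map]
    conv_lhs => rw [hP]
    rw [map_add, map_add, map_mul, map_mul, map_natCast, map_natCast, hpz, zero_mul, add_zero]
  have hE : ∀ f : PowerSeries ℤ, red (PowerSeries.map (Int.castRingHom (Zp p)) f) =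
      PowerSeries.map (Int.castRingHom (ZMod p)) f := by
    intro f
    ext n
    simp only [red, PowerSeries.coeff_map]
    simp
  have hC : ∀ z : Zp p, red (PowerSeries.C z) = PowerSeries.C (zpHom p (ZMod p) z) := by
    intro z
    exact PowerSeries.map_C _ z
  have e1 : red (qh_psi p (MvPolynomial.C u * MvPolynomial.X 0)) =
      PowerSeries.C (zpHom p (ZMod p) u) * E4b p := by
    rw [map_mul, map_mul]
    have q1 : qh_psi p (MvPolynomial.C u) = PowerSeries.C u := by simp [qh_psi]
    have q2 : qh_psi p (MvPolynomial.X 0) = PowerSeries.map (Int.castRingHom (Zp p)) E4q := by simp [qh_psi]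
    rw [q1, q2, hE, hC]
    rfl
  have e2 : red (qh_psi p (MvPolynomial.C v * MvPolynomial.X 1)) =
      PowerSeries.C (zpHom p (ZMod p) v) * E6b p := by
    rw [map_mul, map_mul]
    have q1 : qh_psi p (MvPolynomial.C v) = PowerSeries.C v := by simp [qh_psi]
    have q2 : qh_psi p (MvPolynomial.X 1) = PowerSeries.map (Int.castRingHom (Zp p)) E6q := by simp [qh_psi]
    rw [q1, q2, hE, hC]
    rfl
  have e3 : zpHom p (ZMod p) u = -(48 : ZMod p)⁻¹ := by
    have h9 := congrArg (zpHom p (ZMod p)) hu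
    rw [map_mul, map_neg, map_one, map_ofNat] at h9
    have h48 : (48 : ZMod p) ≠ 0 := by
      intro h0
      rw [h0, mul_zero] at h9
      exact one_ne_zero (neg_eq_zero.1 h9.symm)
    rw [eq_neg_iff_add_eq_zero]
    apply mul_right_cancel₀ h48
    rw [add_mul, h9, inv_mul_cancel₀ h48]
    ring
  have e4 : zpHom p (ZMod p) v = (864 : ZMod p)⁻¹ := by
    have h9 := congrArg (zpHom p (ZMod p)) hv
    rw [map_mul, map_one, map_ofNat] at h9
    exact eq_inv_of_mul_eq_one_left h9
  rw [e1, e2, e3, e4, h7] at h8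
  exact h8.symm

end

theorem hasse_q' {q : ℕ} (hq : q.Prime) (h5 : 5 ≤ q) :
    Hasse q (PowerSeries.C (-(48 : ZMod q)⁻¹) * E4b q) (PowerSeries.C ((864 : ZMod q)⁻¹) * E6b q) =
      (1 : PowerSeries (ZMod q)) := by
  have hp : Fact q.Prime := ⟨hq⟩
  exact qh_main h5

end Pool.Agent.SS
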