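import Pool.Agent.Work.MP_a5099b_nt.C.MDefs
import Pool.Agent.Work.MP_a5099b_nt.D.HasseQ

/-!
# Module C.MHZ (S-M)

The expansion of `hL p` is `≡ 1` modulo `p`.

PROOF. Map `HZ p` to `PowerSeries (ZMod p)` and on to the field `LaurentSeries (ZMod p)` (`Hasse_map`; `HahnSeries.ofPowerSeries` is
injective): the image of `HZ p` is `Hasse p (-27 E4b) (54 E6b)`, and `-27 E4b = 6^4 * (-(48)⁻¹ E4b)`, `54 E6b = 6^6 * (864⁻¹ E6b)`
(`6^4 = 27 * 48`, `6^6 = 54 * 864`), so by `Hasse_scale` (with `u = 6 ≠ 0`) it is `6^(p-1)` times the series `1` of `hasse_q` (`D.HasseQ`), and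
`6^(p-1) = 1` in `ZMod p` (Fermat). So all coefficients of `HZ p - 1` are divisible by `p`; divide them.
-/

set_option autoImplicit false

namespace Pool.Agent.SS

open UpperHalfPlane Polynomial
open Pool.Agent.Work.CM (IsLat g2 g3 tauLat)
open scoped Pointwise MatrixGroups

private theorem six_ne {p : ℕ} (hp : p.Prime) (h5 : 5 ≤ p) : (6 : ZMod p) ≠ 0 := by
  intro h
  have h1 : ((6 : ℕ) : ZMod p) = 0 := by exact_mod_cast h
  rw [ZMod.natCast_eq_zero_iff] at h1
  have h2 : p ≤ 6 := Nat.le_of_dvd (by norm_num) h1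
  have h3 : p = 5 ∨ p = 6 := by omega
  rcases h3 with rfl | rfl
  · norm_num at h1
  · exact absurd hp (by norm_num)

private theorem key {p : ℕ} (hp : p.Prime) (h5 : 5 ≤ p) :
    PowerSeries.map (Int.castRingHom (ZMod p)) (HZ p) = 1 := by
  have : Fact p.Prime := ⟨hp⟩
  have h6 := six_ne hp h5
  have h48 : (48 : ZMod p) ≠ 0 := by
    intro h
    apply pow_ne_zero 4 h6
    have : (6 : ZMod p) ^ 4 = 27 * 48 := by norm_num
    rw [this, h, mul_zero]
  have h864 : (864 : ZMod p) ≠ 0 := by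
    intro h
    apply pow_ne_zero 6 h6
    have : (6 : ZMod p) ^ 6 = 54 * 864 := by norm_num
    rw [this, h, mul_zero]
  have h1 : PowerSeries.map (Int.castRingHom (ZMod p)) (HZ p) =
      Hasse p (-27 * E4b p) (54 * E6b p) := by
    unfold HZ E4b E6b
    rw [← Hasse_map, map_mul, map_mul, map_neg, map_ofNat, map_ofNat]
  have c1 : (-27 : PowerSeries (ZMod p)) =
      PowerSeries.C ((6 : ZMod p) ^ 4) * PowerSeries.C (-(48 : ZMod p)⁻¹) := by
    have e : (6 : ZMod p) ^ 4 * (-(48 : ZMod p)⁻¹) = -27 := by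
      field_simp
      norm_num
    rw [← map_mul, e, map_neg, map_ofNat]
  have c2 : (54 : PowerSeries (ZMod p)) =
      PowerSeries.C ((6 : ZMod p) ^ 6) * PowerSeries.C ((864 : ZMod p)⁻¹) := by
    have e : (6 : ZMod p) ^ 6 * ((864 : ZMod p)⁻¹) = 54 := by
      field_simp
      norm_num
    rw [← map_mul, e, map_ofNat]
  rw [h1, c1, c2, mul_assoc, mul_assoc]
  apply HahnSeries.ofPowerSeries_injective (Γ := ℤ)
  have h2 := congrArg (HahnSeries.ofPowerSeries ℤ (ZMod p)) (hasse_q hp h5)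
  rw [map_one, ← Hasse_map] at h2
  have e1 : HahnSeries.ofPowerSeries ℤ (ZMod p)
      (PowerSeries.C ((6 : ZMod p) ^ 4) * (PowerSeries.C (-(48 : ZMod p)⁻¹) * E4b p)) =
      HahnSeries.ofPowerSeries ℤ (ZMod p) (PowerSeries.C (6 : ZMod p)) ^ 4 *
        HahnSeries.ofPowerSeries ℤ (ZMod p) (PowerSeries.C (-(48 : ZMod p)⁻¹) * E4b p) := by
    rw [map_mul (HahnSeries.ofPowerSeries ℤ (ZMod p)), map_pow PowerSeries.C,
      map_pow (HahnSeries.ofPowerSeries ℤ (ZMod p))]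
  have e2 : HahnSeries.ofPowerSeries ℤ (ZMod p)
      (PowerSeries.C ((6 : ZMod p) ^ 6) * (PowerSeries.C ((864 : ZMod p)⁻¹) * E6b p)) =
      HahnSeries.ofPowerSeries ℤ (ZMod p) (PowerSeries.C (6 : ZMod p)) ^ 6 *
        HahnSeries.ofPowerSeries ℤ (ZMod p) (PowerSeries.C ((864 : ZMod p)⁻¹) * E6b p) := by
    rw [map_mul (HahnSeries.ofPowerSeries ℤ (ZMod p)), map_pow PowerSeries.C,
      map_pow (HahnSeries.ofPowerSeries ℤ (ZMod p))]
  rw [map_one, ← Hasse_map, e1, e2]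
  have hu : HahnSeries.ofPowerSeries ℤ (ZMod p) (PowerSeries.C (6 : ZMod p)) ≠ 0 := by
    intro h
    apply h6
    have h3 := HahnSeries.ofPowerSeries_injective (Γ := ℤ) (h.trans (map_zero _).symm)
    exact PowerSeries.C_injective (h3.trans (map_zero _).symm)
  rw [Hasse_scale hp h5 _ _ _ hu, h2, mul_one, ← map_pow, ← map_pow, ZMod.pow_card_sub_one_eq_one h6,
    map_one, map_one]

theorem HZ_mod {p : ℕ} (hp : p.Prime) (h5 : 5 ≤ p) :
    ∃ c : PowerSeries ℤ, HZ p = 1 + PowerSeries.C (p : ℤ) * c := by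
  have hk := key hp h5
  have hdvd : ∀ n, (p : ℤ) ∣ PowerSeries.coeff n (HZ p - 1) := by
    intro n
    have h1 := congrArg (PowerSeries.coeff n) hk
    rw [PowerSeries.coeff_map] at h1
    rw [← ZMod.intCast_zmod_eq_zero_iff_dvd, map_sub, Int.cast_sub]
    have h2 : ((PowerSeries.coeff n (HZ p) : ℤ) : ZMod p) = PowerSeries.coeff n (1 : PowerSeries (ZMod p)) := h1
    rw [h2, PowerSeries.coeff_one, PowerSeries.coeff_one]
    split_ifs <;> simp
  refine ⟨PowerSeries.mk fun n => PowerSeries.coeff n (HZ p - 1) / p, ?_⟩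
  ext n
  rw [map_add, PowerSeries.coeff_C_mul, PowerSeries.coeff_mk, Int.mul_ediv_cancel' (hdvd n), map_sub]
  ring

end Pool.Agent.SS
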