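import Pool.Agent.Work.MP_a5099b_nt.C.MDefs
import Pool.Agent.Work.MP_a5099b_nt.A.Lat
import Pool.Agent.Work.MP_a5099b_nt.A.Exp
import Pool.Agent.Work.MP_a5099b_nt.A.Lev

/-!
# Module C.MHasW (M)

Weight and expansion of the Hasse polynomial.

PROOF. Weight: `m^4 e4 (m • L) = e4 L`, `m^6 e6 (m • L) = e6 L` (`Wt_e4`, `Wt_e6`), so
`hL p L = Hasse p (m^4 * (-27 e4 (m•L))) (m^6 * (54 e6 (m•L))) = m^(p-1) hL p (m•L)` by `Hasse_scale` (`C.EHas`, proved) over `ℂ`.
Expansion: `QXring 1` (`A.Lev`) is a subring of `(ℍ → ℂ) × LaurentSeries ℂ`; it contains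
`u = (τ ↦ -27 e4 (tauLat τ), -27 toC E4q)` and `v = (τ ↦ 54 e6 (tauLat τ), 54 toC E6q)` (`QX_e4`, `QX_e6`, constants are integers so in
every subring), hence it contains `Hasse p u v` (take `u, v` in the subring, `Hasse_map` for the inclusion). By `Hasse_map` for the
projections and the evaluation at `τ`, `Hasse p u v = (τ ↦ hL p (tauLat τ), Hasse p (-27 toC E4q) (54 toC E6q))`, and the last series
is `toC (ofPowerSeries (HZ p))` by `Hasse_map` for `toC` and `HahnSeries.ofPowerSeries` (both ring homomorphisms; `toC = lmap _`).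
-/

set_option autoImplicit false

namespace Pool.Agent.SS

open UpperHalfPlane Polynomial
open Pool.Agent.Work.CM (IsLat g2 g3 tauLat)
open scoped Pointwise MatrixGroups

theorem hL_wt {p : ℕ} (hp : p.Prime) (h5 : 5 ≤ p) : Wt ((p - 1 : ℕ) : ℤ) (hL p) := by
  intro L hL' m hm
  rw [zpow_natCast]
  have h4 := Wt_e4 L hL' m hm
  have h6 := Wt_e6 L hL' m hm
  rw [zpow_ofNat] at h4 h6
  have e1 : -27 * e4 L = m ^ 4 * (-27 * e4 (m • L)) := by rw [← h4]; ring
  have e2 : 54 * e6 L = m ^ 6 * (54 * e6 (m • L)) := by rw [← h6]; ring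
  rw [hL, hL, e1, e2, Hasse_scale hp h5 _ _ _ hm]

theorem hL_QX (p : ℕ) : QX 1 (fun τ => hL p (tauLat τ))
    (toC (HahnSeries.ofPowerSeries ℤ ℤ (HZ p))) := by
  have m4 : ((fun τ => e4 (tauLat τ), toC (HahnSeries.ofPowerSeries ℤ ℤ E4q)) :
      (ℍ → ℂ) × LaurentSeries ℂ) ∈ QXring 1 one_ne_zero := QX_e4
  have m6 : ((fun τ => e6 (tauLat τ), toC (HahnSeries.ofPowerSeries ℤ ℤ E6q)) :
      (ℍ → ℂ) × LaurentSeries ℂ) ∈ QXring 1 one_ne_zero := QX_e6
  set u : QXring 1 one_ne_zero := ⟨_, m4⟩ with hu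
  set v : QXring 1 one_ne_zero := ⟨_, m6⟩ with hv
  set w : QXring 1 one_ne_zero := Hasse p (-27 * u) (54 * v) with hw
  have hmem : QX 1 w.1.1 w.1.2 := w.2
  have e1 : w.1.1 = fun τ => hL p (tauLat τ) := by
    funext τ
    let f : QXring 1 one_ne_zero →+* ℂ :=
      ((Pi.evalRingHom (fun _ : ℍ => ℂ) τ).comp (RingHom.fst (ℍ → ℂ) (LaurentSeries ℂ))).comp
        (QXring 1 one_ne_zero).subtype
    have h1 : w.1.1 τ = f w := rfl
    have h2 : f u = e4 (tauLat τ) := rfl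
    have h3 : f v = e6 (tauLat τ) := rfl
    rw [h1, hw, ← Hasse_map, map_mul, map_mul, map_neg, map_ofNat, map_ofNat, h2, h3, hL]
  have e2 : w.1.2 = toC (HahnSeries.ofPowerSeries ℤ ℤ (HZ p)) := by
    let f : QXring 1 one_ne_zero →+* LaurentSeries ℂ :=
      (RingHom.snd (ℍ → ℂ) (LaurentSeries ℂ)).comp (QXring 1 one_ne_zero).subtype
    let g : PowerSeries ℤ →+* LaurentSeries ℂ :=
      (lmap (Int.castRingHom ℂ)).comp (HahnSeries.ofPowerSeries ℤ ℤ)
    have h1 : w.1.2 = f w := rfl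
    have h2 : f u = g E4q := rfl
    have h3 : f v = g E6q := rfl
    have h4 : toC (HahnSeries.ofPowerSeries ℤ ℤ (HZ p)) = g (HZ p) := rfl
    rw [h1, hw, ← Hasse_map, map_mul, map_mul, map_neg, map_ofNat, map_ofNat, h2, h3, h4, HZ,
      ← Hasse_map, map_mul, map_mul, map_neg, map_ofNat, map_ofNat]
  rw [← e1, ← e2]
  exact hmem

end Pool.Agent.SS
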