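import Pool.Agent.Work.MP_a5099b_nt.C.MOne
import Pool.Agent.Work.MP_a5099b_nt.C.MHasW
import Pool.Agent.Work.MP_a5099b_nt.C.MHZ

/-!
# Module C.MDif (M)

The value of the Hasse polynomial does not change in a pair `Sup n L L'`, `n ≠ p`.

PROOF. `HZ p = 1 + p c` (`HZ_mod`), `H = ofPowerSeries (HZ p)`, `c` also as a Laurent series. `fam_mem` with `k = p - 1`,
`F L L' = (hL p L' - hL p L) / p` (weight: `hL_wt`). Expansions (`hL_QX`, `QX_supb`, `QX_supi`, `QX_lexp`, `QX.add`, `QX.neg`, `QX.mul`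
with `QX.const`): at `supb`: `(H - lexp n H) / p = c - lexp n c`, so `a = c - lexp n c`; at `supi`:
`(n^(p-1) lexp n H - H) / p = (n^(p-1) - 1)/p + n^(p-1) lexp n c - c`, so `b = C ((n^(p-1) - 1)/p) + C (n^(p-1)) * lexp n c - c`
(`p ∣ n^(p-1) - 1` by Fermat, as `n` is a prime different from `p`: `ZMod.pow_card_sub_one_eq_one` / `Int.ModEq.pow_card_sub_one_eq_one`).
No negative powers. So `F L L' ∈ P.B` and `hL p L' = hL p L + p * F L L'`; take values (`Pl.hL_mem`, `Pl.ev_add`, `Pl.ev_mul`,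
`Pl.ev_natCast`, `CharP.cast_eq_zero`).
-/

set_option autoImplicit false

namespace Pool.Agent.SS

open UpperHalfPlane Polynomial
open Pool.Agent.Work.CM (IsLat g2 g3 tauLat)
open scoped Pointwise MatrixGroups

private theorem ofPS_neg (c : PowerSeries ℤ) {m : ℤ} (hm : m < 0) :
    (HahnSeries.ofPowerSeries ℤ ℤ c).coeff m = 0 := by
  have h1 := PowerSeries.coeff_coe c m
  rw [if_pos hm] at h1
  exact h1

private theorem lexp_neg {n : ℕ} (hn : n ≠ 0) {a : LaurentSeries ℤ}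
    (ha : ∀ m : ℤ, m < 0 → a.coeff m = 0) {m : ℤ} (hm : m < 0) : (lexp n a).coeff m = 0 := by
  by_cases hd : (n : ℤ) ∣ m
  · obtain ⟨j, rfl⟩ := hd
    rw [lexp_coeff_mul hn]
    apply ha
    by_contra hj
    have h0 : (0 : ℤ) ≤ n * j := mul_nonneg (by positivity) (by omega)
    omega
  · exact lexp_coeff_of_not_dvd hn a hd

theorem ev_hL_sup {K : Type} [Field K] {P : Pl K} {p : ℕ} [CharP K p] (hp : p.Prime) (h5 : 5 ≤ p)
    {n : ℕ} (hn : n.Prime) (hnp : n ≠ p) {L L' : Submodule ℤ ℂ} (h : Sup n L L')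
    (h4 : e4 L ∈ P.B) (h6 : e6 L ∈ P.B) : P.ev (hL p L') = P.ev (hL p L) := by
  have hn0 : n ≠ 0 := hn.ne_zero
  have hp0 : (p : ℂ) ≠ 0 := by exact_mod_cast hp.ne_zero
  obtain ⟨c, hc⟩ := HZ_mod hp h5
  set cl : LaurentSeries ℤ := HahnSeries.ofPowerSeries ℤ ℤ c with hcl
  set hz : LaurentSeries ℤ := HahnSeries.ofPowerSeries ℤ ℤ (HZ p) with hhz
  have hz_eq : hz = 1 + HahnSeries.C (p : ℤ) * cl := by
    rw [hhz, hc, map_add, map_one, map_mul, HahnSeries.ofPowerSeries_C]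
  obtain ⟨e, he⟩ : ∃ e : ℤ, (n : ℤ) ^ (p - 1) = 1 + p * e := by
    have h1 : IsCoprime (n : ℤ) p := by
      rw [Nat.isCoprime_iff_coprime]
      exact (Nat.coprime_primes hn hp).2 hnp
    obtain ⟨e, he⟩ := (Int.ModEq.pow_card_sub_one_eq_one hp h1).symm.dvd
    exact ⟨e, by linarith⟩
  set a : LaurentSeries ℤ := cl - lexp n cl with ha_def
  set b : LaurentSeries ℤ := HahnSeries.C e + HahnSeries.C ((n : ℤ) ^ (p - 1)) * lexp n cl - cl
    with hb_def
  set F : Submodule ℤ ℂ → Submodule ℤ ℂ → ℂ := fun L L' => (p : ℂ)⁻¹ * (hL p L' + -hL p L) with hF_def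
  have hF : ∀ L L', Sup n L L' → ∀ m : ℂ, m ≠ 0 →
      m ^ (p - 1) * F (m • L) (m • L') = F L L' := by
    intro L L' hs m hm
    have h1 := hL_wt hp h5 L hs.lat m hm
    have h2 := hL_wt hp h5 L' hs.lat' m hm
    rw [zpow_natCast] at h1 h2
    rw [hF_def]
    show m ^ (p - 1) * ((p : ℂ)⁻¹ * (hL p (m • L') + -hL p (m • L))) = (p : ℂ)⁻¹ * (hL p L' + -hL p L)
    rw [← h1, ← h2]
    ring
  have toC_lexp : ∀ x : LaurentSeries ℤ, lexp n (toC x) = toC (lexp n x) := by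
    intro x
    exact (lmap_lexp (Int.castRingHom ℂ) n x).symm
  have toC_C : ∀ x : ℤ, toC (HahnSeries.C x) = HahnSeries.C (x : ℂ) := by
    intro x
    ext m
    show (((HahnSeries.C x : LaurentSeries ℤ).coeff m : ℤ) : ℂ) = (HahnSeries.C (x : ℂ) : LaurentSeries ℂ).coeff m
    rw [HahnSeries.C_apply, HahnSeries.C_apply, HahnSeries.coeff_single, HahnSeries.coeff_single]
    split_ifs <;> simp
  have toC_add : ∀ x y : LaurentSeries ℤ, toC (x + y) = toC x + toC y := fun x y =>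
    map_add (lmap (Int.castRingHom ℂ)) x y
  have toC_sub : ∀ x y : LaurentSeries ℤ, toC (x - y) = toC x - toC y := fun x y =>
    map_sub (lmap (Int.castRingHom ℂ)) x y
  have toC_mul : ∀ x y : LaurentSeries ℤ, toC (x * y) = toC x * toC y := fun x y =>
    map_mul (lmap (Int.castRingHom ℂ)) x y
  have toC_one : toC 1 = 1 := map_one (lmap (Int.castRingHom ℂ))
  have hCC : (HahnSeries.C ((p : ℂ)⁻¹) : LaurentSeries ℂ) * HahnSeries.C (p : ℂ) = 1 := by
    rw [← map_mul, inv_mul_cancel₀ hp0, map_one]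
  have hzC : toC hz = 1 + HahnSeries.C (p : ℂ) * toC cl := by
    rw [hz_eq, toC_add, toC_one, toC_mul, toC_C]
    push_cast
    rfl
  have hzlC : lexp n (toC hz) = 1 + HahnSeries.C (p : ℂ) * lexp n (toC cl) := by
    have h1 : lexp n (HahnSeries.C (p : ℂ) : LaurentSeries ℂ) = HahnSeries.C (p : ℂ) := by
      rw [map_natCast, map_natCast]
    rw [hzC, map_add, map_one, map_mul, h1]
  have h1 := QX_supb hn0 (hL_QX p)
  have h2 := QX_lexp hn0 (hL_QX p)
  have h3 := QX_supi hn0 (hL_wt hp h5) (hL_QX p)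
  have ha : QX n (fun τ => F (tauLat τ) (supb n τ 0)) (toC a) := by
    have h5' := (QX.const n ((p : ℂ)⁻¹)).mul hn0 (h1.add hn0 h2.neg)
    have e1 : HahnSeries.C ((p : ℂ)⁻¹) * (toC hz + -lexp n (toC hz)) = toC a := by
      rw [hzlC, hzC, ha_def, toC_sub, ← toC_lexp]
      linear_combination (toC cl - lexp n (toC cl)) * hCC
    rw [← e1]
    exact h5'
  have hb : QX 1 (fun τ => F (tauLat τ) (supi n τ)) (toC b) := by
    have h5' := (QX.const 1 ((p : ℂ)⁻¹)).mul one_ne_zero (h3.add one_ne_zero (hL_QX p).neg)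
    have e1 : HahnSeries.C ((p : ℂ)⁻¹) *
        (HahnSeries.C ((n : ℂ) ^ ((p - 1 : ℕ) : ℤ)) * lexp n (toC hz) + -toC hz) = toC b := by
      have e2 : (HahnSeries.C ((n : ℂ) ^ ((p - 1 : ℕ) : ℤ)) : LaurentSeries ℂ) =
          1 + HahnSeries.C (p : ℂ) * HahnSeries.C (e : ℂ) := by
        rw [zpow_natCast]
        have : (n : ℂ) ^ (p - 1) = 1 + p * e := by exact_mod_cast he
        rw [this, map_add, map_one, map_mul]
      have e3 : toC (HahnSeries.C ((n : ℤ) ^ (p - 1))) =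
          1 + HahnSeries.C (p : ℂ) * HahnSeries.C (e : ℂ) := by
        rw [toC_C, he]
        push_cast
        rw [map_add, map_one, map_mul]
      rw [hzlC, hzC, hb_def, toC_sub, toC_add, toC_mul, ← toC_lexp, toC_C, e3, e2]
      linear_combination (HahnSeries.C (e : ℂ) + (1 + HahnSeries.C (p : ℂ) * HahnSeries.C (e : ℂ)) *
        lexp n (toC cl) - toC cl) * hCC
    rw [← e1]
    exact h5'
  have hcl0 : ∀ m : ℤ, m < 0 → cl.coeff m = 0 := fun m hm => ofPS_neg c hm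
  have ha0 : ∀ m : ℤ, m < 0 → a.coeff m = 0 := by
    intro m hm
    rw [ha_def, HahnSeries.coeff_sub, hcl0 m hm, lexp_neg hn0 hcl0 hm, sub_zero]
  have hb0 : ∀ m : ℤ, m < 0 → b.coeff m = 0 := by
    intro m hm
    rw [hb_def, HahnSeries.coeff_sub, HahnSeries.coeff_add, HahnSeries.C_mul_eq_smul,
      HahnSeries.coeff_smul, hcl0 m hm, lexp_neg hn0 hcl0 hm, HahnSeries.C_apply,
      HahnSeries.coeff_single, if_neg (by omega)]
    simp
  have hFB : F L L' ∈ P.B := fam_mem hn hF ha hb ha0 hb0 P.cl h h4 h6 (Pl.dl_mem hp h5 h4 h6)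
  have hLL : hL p L' = hL p L + p * F L L' := by
    rw [hF_def]
    show hL p L' = hL p L + p * ((p : ℂ)⁻¹ * (hL p L' + -hL p L))
    rw [← mul_assoc, mul_inv_cancel₀ hp0]
    ring
  rw [hLL, Pl.ev_add (Pl.hL_mem h4 h6) (mul_mem (natCast_mem _ p) hFB),
    Pl.ev_mul (natCast_mem _ p) hFB, Pl.ev_natCast, CharP.cast_eq_zero, zero_mul, add_zero]

end Pool.Agent.SS
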