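import Pool.Agent.Work.MP_a5099b_nt.C.MPl
import Pool.Agent.Work.MP_a5099b_nt.A.Lat

/-!
# Module C.MGen (M)

A lattice and a place with prescribed values of `e4`, `e6`.

PROOF. Choose `α, β ∈ ℂ` algebraically independent over `ℤ` (`AlgebraicIndependent ℤ ![α, β]`): the set of complex numbers that are
algebraic over a countable ring is countable (`Algebraic.countable`), `ℂ` is uncountable, so there is `α` transcendental over `ℤ`, and
then `β` transcendental over the countable ring `Algebra.adjoin ℤ {α}` (Mathlib has criteria such as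
`algebraicIndependent_..option/insert/adjoin`, or prove injectivity of `MvPolynomial (Fin 2) ℤ → ℂ` via
`MvPolynomial.finSuccEquiv`; any other construction of two algebraically independent numbers is fine, e.g. a transcendence basis of
`ℂ` over `ℚ` is infinite). Then `α^3 ≠ β^2` (apply independence to `X 0 ^ 3 - X 1 ^ 2 ≠ 0`), so `exists_of_e4_e6` (`A.Lat`) gives a lattice
`L` with `e4 L = α`, `e6 L = β`. `A` = the range of the injective homomorphism
`MvPolynomial.aeval ![α, β] : MvPolynomial (Fin 2) ℤ →ₐ[ℤ] ℂ` (as a subring), `f : A →+* K` = (inverse of this isomorphism) followed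
by `MvPolynomial.aeval ![x4, x6]`. Apply `exists_Pl A f`.
-/

set_option autoImplicit false

namespace Pool.Agent.SS

open UpperHalfPlane Polynomial
open Pool.Agent.Work.CM (IsLat g2 g3 tauLat)
open scoped Pointwise MatrixGroups

private theorem exists_indep : ∃ x : Fin 2 → ℂ, AlgebraicIndependent ℤ x := by
  obtain ⟨ι, x, hx⟩ := exists_isTranscendenceBasis' ℤ ℂ
  have h1 : Cardinal.mk ℂ = Cardinal.mk ι :=
    IsAlgClosed.cardinal_eq_cardinal_transcendence_basis_of_aleph0_lt' x hx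
      (le_of_eq Cardinal.mk_int) (by
        rw [Cardinal.mk_complex]
        exact Cardinal.aleph0_lt_continuum)
  have h2 : Infinite ι := by
    rw [Cardinal.infinite_iff, ← h1, Cardinal.mk_complex]
    exact Cardinal.aleph0_lt_continuum.le
  obtain ⟨e, he⟩ := (⟨(Infinite.natEmbedding ι).toFun ∘ Fin.val, (Infinite.natEmbedding ι).injective.comp Fin.val_injective⟩ : ∃ e : Fin 2 → ι, Function.Injective e)
  exact ⟨x ∘ e, hx.1.comp e he⟩

theorem exists_gen {K : Type} [Field K] [IsAlgClosed K] (x4 x6 : K) :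
    ∃ (L : Submodule ℤ ℂ) (P : Pl K), IsLat L ∧ e4 L ∈ P.B ∧ e6 L ∈ P.B ∧
      P.ev (e4 L) = x4 ∧ P.ev (e6 L) = x6 := by
  obtain ⟨x, hx⟩ := exists_indep
  have hinj : Function.Injective (MvPolynomial.aeval x : MvPolynomial (Fin 2) ℤ →ₐ[ℤ] ℂ) := hx
  have hne : x 0 ^ 3 ≠ x 1 ^ 2 := by
    intro h
    have h1 : (MvPolynomial.X 0 ^ 3 : MvPolynomial (Fin 2) ℤ) = MvPolynomial.X 1 ^ 2 := by
      apply hinj
      rw [map_pow, map_pow, MvPolynomial.aeval_X, MvPolynomial.aeval_X, h]
    have h2 := congrArg (MvPolynomial.eval ![(2 : ℤ), 0]) h1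
    simp at h2
  obtain ⟨L, hL, h4, h6⟩ := exists_of_e4_e6 hne
  let F : MvPolynomial (Fin 2) ℤ →+* ℂ :=
    (MvPolynomial.aeval x : MvPolynomial (Fin 2) ℤ →ₐ[ℤ] ℂ).toRingHom
  let E : MvPolynomial (Fin 2) ℤ ≃+* F.range := RingEquiv.ofBijective F.rangeRestrict
    ⟨fun a b h => hinj (congrArg Subtype.val h), F.rangeRestrict_surjective⟩
  let G : MvPolynomial (Fin 2) ℤ →+* K := MvPolynomial.eval₂Hom (Int.castRingHom K) ![x4, x6]
  obtain ⟨P, hP⟩ := exists_Pl F.range (G.comp (E.symm : F.range →+* MvPolynomial (Fin 2) ℤ))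
  have hX : ∀ i : Fin 2, ∃ h : x i ∈ F.range, E.symm ⟨x i, h⟩ = MvPolynomial.X i := by
    intro i
    have h0 : F (MvPolynomial.X i) = x i := MvPolynomial.aeval_X _ _
    refine ⟨⟨MvPolynomial.X i, h0⟩, ?_⟩
    rw [RingEquiv.symm_apply_eq]
    exact Subtype.ext h0.symm
  obtain ⟨h0, h0'⟩ := hX 0
  obtain ⟨h1, h1'⟩ := hX 1
  have g0 := hP _ h0
  have g1 := hP _ h1
  refine ⟨L, P, hL, ?_, ?_, ?_, ?_⟩
  · rw [h4]
    exact g0.1
  · rw [h6]
    exact g1.1
  · rw [h4, g0.2]
    change G (E.symm ⟨x 0, h0⟩) = x4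
    rw [h0']
    simp [G]
  · rw [h6, g1.2]
    change G (E.symm ⟨x 1, h1⟩) = x6
    rw [h1']
    simp [G]

end Pool.Agent.SS
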