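import Pool.Agent.Work.MP_a5099b_nt.C.MPhi
import Pool.Agent.Work.MP_a5099b_nt.C.MGen
import Pool.Agent.Work.MP_a5099b_nt.C.MDif
import Pool.Agent.Work.MP_a5099b_nt.B.Sym
import Pool.Agent.Work.MP_a5099b_nt.B.Kro2

/-!
# Module C.MIso (M)

Isogenies preserve supersingular invariants.

PROOF. Case `n = p`: `PhiAt_kron` (`B.Kro2`): `PhiAt p x = (C (x^p) - X) (C x - X^p)`, so `y = x^p` or `x = y^p`; `SSj_frob` (`C.EHas`).
Case `n ≠ p`: it suffices to prove `SSj p x → SSj p y` for all `x, y` with `(PhiAt n x).eval y = 0` (`PhiAt_symm` gives the other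
direction). `K = AlgebraicClosure k` (a `Type`, `CharP K p`: `charP_of_injective_algebraMap`), `f = algebraMap k K`; `SSj_map` and
`PhiAt_map` (`eval_map`-type lemma: `(PhiAt n (f x)).eval (f y) = f ((PhiAt n x).eval y)`) reduce to `k = K`
algebraically closed. Choose `x4` with `x4^3 = x`, `x6` with `x6^2 = x - 1728` (`IsAlgClosed.exists_pow_nat_eq`). `exists_gen x4 x6` gives
`L, P`. `1728 * ev (dl L) = x4^3 - x6^2 = 1728`, so `ev (dl L) = 1` (`1728 ≠ 0` in `K`) and `ev (jL L) = x` (`jL_mem`).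
`root_Phi`: `y = ev (jL L')`, `Sup n L L'`. `SSj p x` gives `ev (hL p L) = 0` (`SSj_iff_ev`), `ev (hL p L') = 0` (`ev_hL_sup`), and
`SSj_iff_ev` for `L'` (`e_sup_mem`, `ev_dl_ne`) gives `SSj p y`.
-/

set_option autoImplicit false

namespace Pool.Agent.SS

open UpperHalfPlane Polynomial
open Pool.Agent.Work.CM (IsLat g2 g3 tauLat)
open scoped Pointwise MatrixGroups

private theorem eval_map_PhiAt {n : ℕ} {A B : Type*} [CommRing A] [CommRing B] (f : A →+* B)
    (x y : A) : (PhiAt n (f x)).eval (f y) = f ((PhiAt n x).eval y) := by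
  rw [← PhiAt_map, eval_map_apply]

private theorem isog_closed {p : ℕ} (hp : p.Prime) (h5 : 5 ≤ p) {n : ℕ} (hn : n.Prime)
    (hnp : n ≠ p) {K : Type} [Field K] [IsAlgClosed K] [CharP K p] (x y : K)
    (hxy : (PhiAt n x).eval y = 0) (hx : SSj p x) : SSj p y := by
  obtain ⟨x4, hx4⟩ := IsAlgClosed.exists_pow_nat_eq x (n := 3) (by norm_num)
  obtain ⟨x6, hx6⟩ := IsAlgClosed.exists_pow_nat_eq (x - 1728) (n := 2) (by norm_num)
  obtain ⟨L, P, hLat, h4, h6, e4', e6'⟩ := exists_gen x4 x6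
  have h1728 : (1728 : K) ≠ 0 := by
    intro h0
    have h1 : ((1728 : ℕ) : K) = 0 := by exact_mod_cast h0
    rw [CharP.cast_eq_zero_iff K p] at h1
    have h2 : p ∣ 2 ^ 6 * 3 ^ 3 := by
      have : 2 ^ 6 * 3 ^ 3 = 1728 := by norm_num
      rwa [this]
    rcases (Nat.Prime.dvd_mul hp).mp h2 with h3 | h3
    · have := Nat.le_of_dvd (by norm_num) (hp.dvd_of_dvd_pow h3)
      omega
    · have := Nat.le_of_dvd (by norm_num) (hp.dvd_of_dvd_pow h3)
      omega
  have hdl : P.ev (dl L) = 1 := by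
    have h := P.ev_dl hp h5 h4 h6
    rw [e4', e6', hx4, hx6] at h
    apply mul_left_cancel₀ h1728
    rw [h]
    ring
  have hd : P.ev (dl L) ≠ 0 := by
    rw [hdl]
    exact one_ne_zero
  have hj : P.ev (jL L) = x := by
    rw [(jL_mem hp h5 h4 h6 hd).2, e4', hx4, hdl, div_one]
  rw [← hj] at hxy hx
  obtain ⟨L', hLL', hy⟩ := root_Phi hp h5 hn hnp hLat h4 h6 hd hxy
  have h0 : P.ev (hL p L) = 0 := (SSj_iff_ev hp h5 h4 h6 hd).mp hx
  have h0' : P.ev (hL p L') = 0 := by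
    rw [ev_hL_sup hp h5 hn hnp hLL' h4 h6, h0]
  obtain ⟨h4', h6'⟩ := e_sup_mem hp h5 hn hLL' h4 h6
  have hd' := ev_dl_ne hp h5 hn hnp hLL' h4 h6 hd
  rw [← hy]
  exact (SSj_iff_ev hp h5 h4' h6' hd').mpr h0'

private theorem isog_one {p : ℕ} (hp : p.Prime) (h5 : 5 ≤ p) {n : ℕ} (hn : n.Prime)
    (hnp : n ≠ p) {k : Type} [Field k] [CharP k p] (x y : k)
    (hxy : (PhiAt n x).eval y = 0) (hx : SSj p x) : SSj p y := by
  have hc : CharP (AlgebraicClosure k) p :=
    charP_of_injective_algebraMap (algebraMap k (AlgebraicClosure k)).injective p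
  rw [← SSj_map hp h5 (algebraMap k (AlgebraicClosure k))] at hx ⊢
  refine isog_closed hp h5 hn hnp _ _ ?_ hx
  rw [eval_map_PhiAt, hxy, map_zero]

theorem SSj_isog {p : ℕ} (hp : p.Prime) (h5 : 5 ≤ p) {n : ℕ} (hn : n.Prime) {k : Type} [Field k]
    [CharP k p] (x y : k) (hxy : (PhiAt n x).eval y = 0) : SSj p x ↔ SSj p y := by
  by_cases hnp : n = p
  · subst hnp
    rw [PhiAt_kron hn, eval_mul, mul_eq_zero] at hxy
    rcases hxy with h | h
    · rw [eval_sub, eval_C, eval_X, sub_eq_zero] at h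
      rw [← h, SSj_frob hp h5]
    · rw [eval_sub, eval_C, eval_pow, eval_X, sub_eq_zero] at h
      rw [h, SSj_frob hp h5]
  · refine ⟨isog_one hp h5 hn hnp x y hxy, isog_one hp h5 hn hnp y x ?_⟩
    rw [← PhiAt_symm hn, hxy]

end Pool.Agent.SS
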