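import Pool.Agent.Work.MP_a5099b_nt.D.Nf
import Pool.Agent.Work.MP_a5099b_nt.D.HasseQ
import Pool.Agent.Work.MP_a5099b_nt.A.DqF
import Pool.Agent.Work.MP_a5099b_nt.C.EHas

/-!
# Module C.MSsP (M)

The polynomial of the supersingular invariants.

PROOF. `hasse_nf` (`D.Nf`, proved) gives `S, m, δ, ε` over `F = ZMod p`. Let `T = X^δ (X - 1728)^ε S ∈ F[X]`, and `P ∈ ℤ[X]` a lift of `T`
(`Polynomial.map_surjective (Int.castRingHom (ZMod p)) ZMod.intCast_surjective`). For `y ∈ k` (`Algebra (ZMod p) k` from `ZMod.algebra k p`):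
`aeval y P = aeval y T = y^δ (y - 1728)^ε S(y)`.
`T ≠ 0`: it suffices `S ≠ 0`. Apply `hasse_nf` with `R = LaurentSeries (ZMod p)`, `e = ofPowerSeries (E4b p)`, `f = ofPowerSeries (E6b p)`,
`D = ofPowerSeries (Db p)`, `j = Jb p`: `e^3 = j D` by `Jq_mul`, `f^2 = (j - 1728) D` by `Dq_spec` (`A.DqF`, mapped by `lmap`/`PowerSeries.map`). The left side is
`1` by `hasse_q` (`Hasse_map` for `ofPowerSeries`), so `D^m e^δ f^ε S(j) = 1` and `S ≠ 0`.
`aeval y T = 0 ↔ SSj p y`: for `e, f, D ∈ k` with `D ≠ 0`, `e^3 = y D`, `f^2 = (y - 1728) D` put `a = -e/48`, `b = f/864`: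
`4a^3 + 27b^2 = -(e^3 - f^2)/27648 = -D/16 ≠ 0`, `1728 * 4 a^3 = -e^3/16 = y (4a^3 + 27b^2)`; so `SSj p y ↔ Hasse p a b = 0` (`SSj_all` and the definition)
`↔ D^m e^δ f^ε S(y) = 0 ↔ e^δ f^ε S(y) = 0`. Cases: `y ≠ 0, 1728`: `e = y (y - 1728)`, `f = y (y - 1728)^2`, `D = y^2 (y - 1728)^3`, and both conditions mean
`S(y) = 0`. `y = 0`: `e = 0`, `f = 1`, `D = -1/1728`; both mean `δ ≠ 0 ∨ S(0) = 0` (`1728 ≠ 0` in `k`). `y = 1728`: `f = 0`, `e = 12`, `D = 1`; both mean
`ε ≠ 0 ∨ S(1728) = 0`.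
-/

set_option autoImplicit false

namespace Pool.Agent.SS

open UpperHalfPlane Polynomial
open Pool.Agent.Work.CM (IsLat g2 g3 tauLat)
open scoped Pointwise MatrixGroups

private theorem lmap_ofPS' {A B : Type*} [CommRing A] [CommRing B] (φ : A →+* B)
    (y : PowerSeries A) : lmap φ (HahnSeries.ofPowerSeries ℤ A y) =
      HahnSeries.ofPowerSeries ℤ B (PowerSeries.map φ y) := by
  ext m
  have h1 : (lmap φ (HahnSeries.ofPowerSeries ℤ A y)).coeff m =
      φ ((HahnSeries.ofPowerSeries ℤ A y).coeff m) := rfl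
  rw [h1, PowerSeries.coeff_coe, PowerSeries.coeff_coe]
  split_ifs
  · simp
  · rw [PowerSeries.coeff_map]

private theorem rel1 (p : ℕ) : (HahnSeries.ofPowerSeries ℤ (ZMod p) (E4b p)) ^ 3 =
    Jb p * HahnSeries.ofPowerSeries ℤ (ZMod p) (Db p) := by
  have h := congrArg (lmap (Int.castRingHom (ZMod p))) Jq_mul
  rw [map_mul, lmap_ofPS', lmap_ofPS', map_pow, map_pow] at h
  exact h.symm

private theorem rel2 (p : ℕ) : (HahnSeries.ofPowerSeries ℤ (ZMod p) (E6b p)) ^ 2 =
    (Jb p - 1728) * HahnSeries.ofPowerSeries ℤ (ZMod p) (Db p) := by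
  have h := congrArg (fun x => HahnSeries.ofPowerSeries ℤ (ZMod p)
    (PowerSeries.map (Int.castRingHom (ZMod p)) x)) Dq_spec
  simp only [map_mul, map_sub, map_pow, map_ofNat] at h
  have h1 := rel1 p
  unfold E4b at h1
  unfold E6b Db at *
  rw [sub_mul, ← h1, h]
  ring

private theorem S_ne {p : ℕ} (hp : p.Prime) (h5 : 5 ≤ p) {S : (ZMod p)[X]} {m δ ε : ℕ}
    (hS : ∀ (R : Type) [CommRing R] [Algebra (ZMod p) R] (e f D j : R), e ^ 3 = j * D →
        f ^ 2 = (j - 1728) * D →
        Hasse p (algebraMap (ZMod p) R (-(48 : ZMod p)⁻¹) * e)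
          (algebraMap (ZMod p) R ((864 : ZMod p)⁻¹) * f) =
        D ^ m * e ^ δ * f ^ ε * aeval j S) : S ≠ 0 := by
  haveI : Fact p.Prime := ⟨hp⟩
  rintro rfl
  have h := hS (LaurentSeries (ZMod p)) _ _ _ _ (rel1 p) (rel2 p)
  rw [map_zero, mul_zero] at h
  have hC : algebraMap (ZMod p) (LaurentSeries (ZMod p)) =
      (HahnSeries.ofPowerSeries ℤ (ZMod p)).comp (PowerSeries.C (R := ZMod p)) :=
    Subsingleton.elim _ _
  rw [hC, RingHom.comp_apply, RingHom.comp_apply, ← map_mul, ← map_mul, Hasse_map,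
    hasse_q hp h5, map_one] at h
  exact one_ne_zero h

private theorem pow_zero_iff' {k : Type*} [Field k] {x y : k} (h : x = 0 ↔ y = 0) (n : ℕ) :
    x ^ n = 0 ↔ y ^ n = 0 := by
  by_cases hn : n = 0
  · subst hn
    simp
  · rw [pow_eq_zero_iff hn, pow_eq_zero_iff hn, h]

theorem exists_ssPoly {p : ℕ} (hp : p.Prime) (h5 : 5 ≤ p) :
    ∃ P : ℤ[X], P.map (Int.castRingHom (ZMod p)) ≠ 0 ∧
      ∀ (k : Type) [Field k] [CharP k p] (y : k), aeval y P = 0 ↔ SSj p y := by
  haveI : Fact p.Prime := ⟨hp⟩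
  obtain ⟨S, m, δ, ε, hm, hS⟩ := hasse_nf hp h5
  have hS0 := S_ne hp h5 hS
  obtain ⟨P, hP⟩ := Polynomial.map_surjective (Int.castRingHom (ZMod p)) ZMod.intCast_surjective
    (X ^ δ * (X - C 1728) ^ ε * S)
  refine ⟨P, ?_, ?_⟩
  · rw [hP]
    exact mul_ne_zero (mul_ne_zero (pow_ne_zero _ X_ne_zero)
      (pow_ne_zero _ (X_sub_C_ne_zero _))) hS0
  · intro k _ _ y
    letI : Algebra (ZMod p) k := ZMod.algebra k p
    have hn : ∀ n : ℕ, (∀ q : ℕ, q.Prime → q ∣ n → q < 5) → (n : k) ≠ 0 := by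
      intro n h h0
      rw [CharP.cast_eq_zero_iff k p] at h0
      exact absurd (h p hp h0) (by omega)
    have n2 : (2 : k) ≠ 0 := by
      have := hn 2 (fun q hq h => by
        have := Nat.le_of_dvd (by norm_num) h
        omega)
      exact_mod_cast this
    have n3 : (3 : k) ≠ 0 := by
      have := hn 3 (fun q hq h => by
        have := Nat.le_of_dvd (by norm_num) h
        omega)
      exact_mod_cast this
    have e1 : aeval y P = y ^ δ * (y - 1728) ^ ε * aeval y S := by
      have h1 : aeval y P = aeval y (P.map (Int.castRingHom (ZMod p))) := by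
        rw [aeval_def, aeval_def, eval₂_map]
        congr 1
        exact Subsingleton.elim _ _
      rw [h1, hP]
      simp only [map_mul, map_pow, map_sub, aeval_X, aeval_C, map_ofNat]
    rw [e1]
    have main : ∀ e f D : k, D ≠ 0 → e ^ 3 = y * D → f ^ 2 = (y - 1728) * D →
        (y ^ δ * (y - 1728) ^ ε * aeval y S = 0 ↔ SSj p y) := by
      intro e f D hD he hf
      have hH := hS k e f D y he hf
      have n48 : (48 : k) ≠ 0 := by
        have : (48 : k) = 2 ^ 4 * 3 := by norm_num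
        rw [this]
        exact mul_ne_zero (pow_ne_zero _ n2) n3
      have n864 : (864 : k) ≠ 0 := by
        have : (864 : k) = 2 ^ 5 * 3 ^ 3 := by norm_num
        rw [this]
        exact mul_ne_zero (pow_ne_zero _ n2) (pow_ne_zero _ n3)
      have n16 : (16 : k) ≠ 0 := by
        have : (16 : k) = 2 ^ 4 := by norm_num
        rw [this]
        exact pow_ne_zero _ n2
      rw [map_neg, map_inv₀, map_inv₀, map_ofNat, map_ofNat] at hH
      have ed : 4 * (-(48 : k)⁻¹ * e) ^ 3 + 27 * ((864 : k)⁻¹ * f) ^ 2 = -D / 16 := by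
        have h1 : 4 * (-(48 : k)⁻¹ * e) ^ 3 + 27 * ((864 : k)⁻¹ * f) ^ 2 =
            -(4 * (48 : k)⁻¹ ^ 3) * e ^ 3 + 27 * (864 : k)⁻¹ ^ 2 * f ^ 2 := by ring
        rw [h1, he, hf]
        have h2 : (4 * (48 : k)⁻¹ ^ 3) = (27648 : k)⁻¹ := by
          have : (27648 : k) = 48 ^ 3 / 4 := by
            rw [eq_div_iff (by
              have : (4 : k) = 2 ^ 2 := by norm_num
              rw [this]
              exact pow_ne_zero _ n2)]
            norm_num
          rw [this]
          field_simp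
        have h3 : (27 * (864 : k)⁻¹ ^ 2) = (27648 : k)⁻¹ := by
          have : (27648 : k) = 864 ^ 2 / 27 := by
            rw [eq_div_iff (by
              have : (27 : k) = 3 ^ 3 := by norm_num
              rw [this]
              exact pow_ne_zero _ n3)]
            norm_num
          rw [this]
          field_simp
        have h4 : (27648 : k) = 16 * 1728 := by norm_num
        have n1728 : (1728 : k) ≠ 0 := by
          have : (1728 : k) = 2 ^ 6 * 3 ^ 3 := by norm_num
          rw [this]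
          exact mul_ne_zero (pow_ne_zero _ n2) (pow_ne_zero _ n3)
        rw [h2, h3, h4]
        field_simp
        ring
      have hab : 4 * (-(48 : k)⁻¹ * e) ^ 3 + 27 * ((864 : k)⁻¹ * f) ^ 2 ≠ 0 := by
        rw [ed]
        exact div_ne_zero (neg_ne_zero.mpr hD) n16
      have hj : 1728 * (4 * (-(48 : k)⁻¹ * e) ^ 3) =
          y * (4 * (-(48 : k)⁻¹ * e) ^ 3 + 27 * ((864 : k)⁻¹ * f) ^ 2) := by
        rw [ed]
        have h1 : 1728 * (4 * (-(48 : k)⁻¹ * e) ^ 3) = -(1728 * 4 * (48 : k)⁻¹ ^ 3) * e ^ 3 := by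
          ring
        have h2 : (1728 * 4 * (48 : k)⁻¹ ^ 3) = (16 : k)⁻¹ := by
          have : (16 : k) * (1728 * 4) = 48 ^ 3 := by norm_num
          field_simp
          linear_combination this
        rw [h1, h2, he]
        field_simp
      have hz : SSj p y ↔ D ^ m * e ^ δ * f ^ ε * aeval y S = 0 := by
        rw [← hH]
        exact ⟨fun h => SSj_all hp h5 h hab hj, fun h => ⟨_, _, hab, hj, h⟩⟩
      have z1 : e = 0 ↔ y = 0 := by
        constructor
        · rintro rfl
          rw [zero_pow (by norm_num)] at he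
          exact (mul_eq_zero.mp he.symm).resolve_right hD
        · rintro rfl
          rw [zero_mul] at he
          exact (pow_eq_zero_iff (by norm_num)).mp he
      have z2 : f = 0 ↔ y - 1728 = 0 := by
        constructor
        · rintro rfl
          rw [zero_pow (by norm_num)] at hf
          exact (mul_eq_zero.mp hf.symm).resolve_right hD
        · intro h
          rw [h, zero_mul] at hf
          exact (pow_eq_zero_iff (by norm_num)).mp hf
      rw [hz, mul_eq_zero, mul_eq_zero, mul_eq_zero, mul_eq_zero, mul_eq_zero,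
        pow_zero_iff' z1 δ, pow_zero_iff' z2 ε]
      have : ¬ (D ^ m = 0) := pow_ne_zero _ hD
      tauto
    by_cases y0 : y = 0
    · have n1728 : (1728 : k) ≠ 0 := by
        have : (1728 : k) = 2 ^ 6 * 3 ^ 3 := by norm_num
        rw [this]
        exact mul_ne_zero (pow_ne_zero _ n2) (pow_ne_zero _ n3)
      refine main 0 1 (-(1728 : k)⁻¹) (neg_ne_zero.mpr (inv_ne_zero n1728)) ?_ ?_
      · rw [y0]
        ring
      · rw [y0]
        field_simp
        ring
    by_cases y1 : y = 1728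
    · refine main 12 0 1 one_ne_zero ?_ ?_
      · rw [y1]
        norm_num
      · rw [y1]
        ring
    · have hy1 : y - 1728 ≠ 0 := sub_ne_zero.mpr y1
      refine main (y * (y - 1728)) (y * (y - 1728) ^ 2) (y ^ 2 * (y - 1728) ^ 3)
        (mul_ne_zero (pow_ne_zero _ y0) (pow_ne_zero _ hy1)) ?_ ?_
      · ring
      · ring

end Pool.Agent.SS
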