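import Pool.Agent.Work.MP_a5099b_nt.A.Sec

/-!
# Module C.MCoef (S-M)

The norm form of a series without negative powers has no negative powers.

PROOF. The series without negative powers form a subring `W` of `LaurentSeries A` (e.g. the range of `HahnSeries.ofPowerSeries ℤ A`, or
directly). The entries of `reg n a` are `sec n (i - j) a`, with coefficient `a.coeff (n m + (i - j))` at `m` (`sec_coeff`); for
`m < 0`: `n m + (i - j) ≤ -n + (n - 1) < 0`. So all entries lie in `W`, and the coefficients of the characteristic polynomial lie in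
`W` (see the proof of `Nm_InR` in `A.Sec` for the pattern: charpoly of a matrix with entries in a subring).
-/

set_option autoImplicit false

namespace Pool.Agent.SS

open UpperHalfPlane Polynomial
open Pool.Agent.Work.CM (IsLat g2 g3 tauLat)
open scoped Pointwise MatrixGroups

private theorem charpoly_coeff_mem {E : Type*} [CommRing E] (S : Subring E) {n : ℕ}
    (M : Matrix (Fin n) (Fin n) E) (h : ∀ i j, M i j ∈ S) (k : ℕ) : M.charpoly.coeff k ∈ S := by
  let M' : Matrix (Fin n) (Fin n) S := fun i j => ⟨M i j, h i j⟩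
  have h1 : M = M'.map S.subtype := rfl
  rw [h1, Matrix.charpoly_map, Polynomial.coeff_map]
  exact (M'.charpoly.coeff k).2

private def subNN (A : Type*) [CommRing A] : Subring (LaurentSeries A) where
  carrier := {a | ∀ m : ℤ, m < 0 → a.coeff m = 0}
  mul_mem' := fun {a b} ha hb m hm => by
    rw [HahnSeries.coeff_mul]
    refine Finset.sum_eq_zero fun x hx => ?_
    rw [Finset.mem_antidiagonal] at hx
    have h1 := hx.2.2
    by_cases h : x.1 < 0
    · rw [ha _ h, zero_mul]
    · rw [hb x.2 (by omega), mul_zero]
  one_mem' := fun m hm => by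
    rw [HahnSeries.coeff_one, if_neg hm.ne]
  add_mem' := fun {a b} ha hb m hm => by
    rw [HahnSeries.coeff_add, ha m hm, hb m hm, add_zero]
  zero_mem' := fun m _ => HahnSeries.coeff_zero
  neg_mem' := fun {a} ha m hm => by
    rw [HahnSeries.coeff_neg, ha m hm, neg_zero]

theorem Nm_nonneg {A : Type*} [CommRing A] {n : ℕ} (hn : n ≠ 0) {a : LaurentSeries A}
    (ha : ∀ m : ℤ, m < 0 → a.coeff m = 0) (i : ℕ) {m : ℤ} (hm : m < 0) :
    ((Nm n a).coeff i).coeff m = 0 := by
  refine charpoly_coeff_mem (subNN A) (reg n a) (fun x y => ?_) i m hm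
  intro k hk
  change (sec n ((x : ℤ) - (y : ℤ)) a).coeff k = 0
  rw [sec_coeff hn]
  apply ha
  have hx : (x : ℤ) < n := by exact_mod_cast x.2
  have hy : (0 : ℤ) ≤ (y : ℤ) := by positivity
  have h0 : (0 : ℤ) < n := by exact_mod_cast Nat.pos_of_ne_zero hn
  nlinarith

end Pool.Agent.SS
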