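import Pool.Agent.Work.MP_a5099b_nt.A.Defs
import Pool.Agent.Work.MP_a5099b_nt.C.EHas

/-!
# Module C.MDefs (definitions of the modular part of block C, no `sorry`)

`HZ p`: the expansion of the Hasse polynomial of the curve `y^2 = x^3 - 27 E₄ x + 54 E₆` (a multiple by `6^(p-1)` of the
normalised one), `hL p`: the corresponding function of lattices, `Pl K`: places of the complex numbers with values in a field
`K` (rings `B ⊆ ℂ`, integrally closed in `ℂ`, with a homomorphism `φ : B → K`, such that the elements with nonzero image are units),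
`P.ev z`: the value at `z` (`0` if `z ∉ B`).
-/

set_option autoImplicit false

namespace Pool.Agent.SS

open UpperHalfPlane Polynomial
open Pool.Agent.Work.CM (IsLat g2 g3 tauLat)
open scoped Pointwise MatrixGroups

noncomputable section

/-- The expansion of `hL p`. -/
def HZ (p : ℕ) : PowerSeries ℤ := Hasse p (-27 * E4q) (54 * E6q)

/-- The Hasse polynomial at the invariants of the lattice `L`. -/
def hL (p : ℕ) (L : Submodule ℤ ℂ) : ℂ := Hasse p (-27 * e4 L) (54 * e6 L)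

/-- A place of `ℂ` with values in `K`. -/
structure Pl (K : Type) [Field K] where
  B : Subring ℂ
  φ : B →+* K
  cl : ∀ z : ℂ, IsIntegral B z → z ∈ B
  inv : ∀ (z : ℂ) (h : z ∈ B), φ ⟨z, h⟩ ≠ 0 → z⁻¹ ∈ B

namespace Pl

variable {K : Type} [Field K] (P : Pl K)

open Classical in
/-- The value at `z`. -/
def ev (z : ℂ) : K := if h : z ∈ P.B then P.φ ⟨z, h⟩ else 0

variable {P}

theorem ev_eq {z : ℂ} (h : z ∈ P.B) : P.ev z = P.φ ⟨z, h⟩ := by
  unfold ev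
  rw [dif_pos h]

theorem ev_add {z w : ℂ} (hz : z ∈ P.B) (hw : w ∈ P.B) : P.ev (z + w) = P.ev z + P.ev w := by
  rw [ev_eq hz, ev_eq hw, ev_eq (add_mem hz hw), ← map_add]
  rfl

theorem ev_sub {z w : ℂ} (hz : z ∈ P.B) (hw : w ∈ P.B) : P.ev (z - w) = P.ev z - P.ev w := by
  rw [ev_eq hz, ev_eq hw, ev_eq (sub_mem hz hw), ← map_sub]
  rfl

theorem ev_neg {z : ℂ} (hz : z ∈ P.B) : P.ev (-z) = -P.ev z := by
  rw [ev_eq hz, ev_eq (neg_mem hz), ← map_neg]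
  rfl

theorem ev_mul {z w : ℂ} (hz : z ∈ P.B) (hw : w ∈ P.B) : P.ev (z * w) = P.ev z * P.ev w := by
  rw [ev_eq hz, ev_eq hw, ev_eq (mul_mem hz hw), ← map_mul]
  rfl

theorem ev_pow {z : ℂ} (hz : z ∈ P.B) (n : ℕ) : P.ev (z ^ n) = P.ev z ^ n := by
  rw [ev_eq hz, ev_eq (pow_mem hz n), ← map_pow]
  rfl

theorem ev_intCast (n : ℤ) : P.ev (n : ℂ) = n := by
  rw [ev_eq (intCast_mem P.B n), ← map_intCast P.φ]
  rfl

theorem ev_natCast (n : ℕ) : P.ev (n : ℂ) = n := by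
  rw [ev_eq (natCast_mem P.B n), ← map_natCast P.φ]
  rfl

theorem ev_one : P.ev 1 = 1 := by
  have := ev_natCast (P := P) 1
  simpa using this

theorem ev_zero : P.ev 0 = 0 := by
  have := ev_natCast (P := P) 0
  simpa using this

theorem inv_mem {z : ℂ} (hz : z ∈ P.B) (h : P.ev z ≠ 0) : z⁻¹ ∈ P.B :=
  P.inv z hz (by rwa [ev_eq hz] at h)

theorem ev_inv {z : ℂ} (hz : z ∈ P.B) (h : P.ev z ≠ 0) : P.ev z⁻¹ = (P.ev z)⁻¹ := by
  have h0 : z ≠ 0 := by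
    rintro rfl
    exact h ev_zero
  have h1 := ev_mul hz (inv_mem hz h)
  rw [mul_inv_cancel₀ h0, ev_one] at h1
  exact eq_inv_of_mul_eq_one_right h1.symm

theorem div_mem {z w : ℂ} (hz : z ∈ P.B) (hw : w ∈ P.B) (h : P.ev w ≠ 0) : z / w ∈ P.B := by
  rw [div_eq_mul_inv]
  exact mul_mem hz (inv_mem hw h)

theorem ev_div {z w : ℂ} (hz : z ∈ P.B) (hw : w ∈ P.B) (h : P.ev w ≠ 0) :
    P.ev (z / w) = P.ev z / P.ev w := by
  rw [div_eq_mul_inv, div_eq_mul_inv, ev_mul hz (inv_mem hw h), ev_inv hw h]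

/-- In characteristic `p ≥ 5` the number `6` is a unit of `B`. -/
theorem six_mem {p : ℕ} [CharP K p] (hp : p.Prime) (h5 : 5 ≤ p) : ((6 : ℂ)⁻¹) ∈ P.B := by
  have h6 : P.ev (6 : ℂ) = (6 : ℕ) := by
    have := ev_natCast (P := P) 6
    simpa using this
  refine inv_mem (by
    have := natCast_mem P.B 6
    exact_mod_cast this) ?_
  rw [h6]
  intro h
  rw [CharP.cast_eq_zero_iff K p] at h
  have h1 : p ≤ 6 := Nat.le_of_dvd (by norm_num) h
  have h2 : p = 5 ∨ p = 6 := by omega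
  rcases h2 with rfl | rfl
  · norm_num at h
  · exact absurd hp (by norm_num)

/-- `Δ(L)` lies in `B`. -/
theorem dl_mem {p : ℕ} [CharP K p] (hp : p.Prime) (h5 : 5 ≤ p) {L : Submodule ℤ ℂ}
    (h4 : e4 L ∈ P.B) (h6 : e6 L ∈ P.B) : dl L ∈ P.B := by
  have h := six_mem (P := P) hp h5
  have e : dl L = (e4 L ^ 3 - e6 L ^ 2) * ((6 : ℂ)⁻¹) ^ 6 * 27 := by
    unfold dl
    norm_num
    ring
  rw [e]
  refine mul_mem (mul_mem (sub_mem (pow_mem h4 _) (pow_mem h6 _)) (pow_mem h _)) ?_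
  have := natCast_mem P.B 27
  exact_mod_cast this

/-- The value of `Δ`. -/
theorem ev_dl {p : ℕ} [CharP K p] (hp : p.Prime) (h5 : 5 ≤ p) {L : Submodule ℤ ℂ}
    (h4 : e4 L ∈ P.B) (h6 : e6 L ∈ P.B) :
    1728 * P.ev (dl L) = P.ev (e4 L) ^ 3 - P.ev (e6 L) ^ 2 := by
  rw [← ev_pow h4, ← ev_pow h6, ← ev_sub (pow_mem h4 _) (pow_mem h6 _)]
  have h1728 : P.ev ((1728 : ℕ) : ℂ) = (1728 : ℕ) := ev_natCast 1728
  have h1 : (1728 : K) = P.ev ((1728 : ℕ) : ℂ) := by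
    rw [h1728]
    norm_num
  rw [h1, ← ev_mul (natCast_mem P.B _) (dl_mem hp h5 h4 h6)]
  congr 1
  unfold dl
  push_cast
  ring

private theorem hL_eq {p : ℕ} {L : Submodule ℤ ℂ} (h4 : e4 L ∈ P.B) (h6 : e6 L ∈ P.B) :
    hL p L = P.B.subtype (Hasse p (-27 * ⟨e4 L, h4⟩) (54 * ⟨e6 L, h6⟩)) := by
  have h27 : P.B.subtype (27 : P.B) = (27 : ℂ) := map_ofNat P.B.subtype 27
  have h54 : P.B.subtype (54 : P.B) = (54 : ℂ) := map_ofNat P.B.subtype 54
  rw [← Hasse_map, map_mul, map_mul, map_neg, h27, h54]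
  rfl

theorem hL_mem {p : ℕ} {L : Submodule ℤ ℂ} (h4 : e4 L ∈ P.B) (h6 : e6 L ∈ P.B) :
    hL p L ∈ P.B := by
  rw [hL_eq h4 h6]
  exact Subtype.prop _

/-- The value of the Hasse polynomial. -/
theorem ev_hL {p : ℕ} {L : Submodule ℤ ℂ} (h4 : e4 L ∈ P.B) (h6 : e6 L ∈ P.B) :
    P.ev (hL p L) = Hasse p (-27 * P.ev (e4 L)) (54 * P.ev (e6 L)) := by
  have h2 : P.ev (hL p L) = P.φ (Hasse p (-27 * ⟨e4 L, h4⟩) (54 * ⟨e6 L, h6⟩)) := by
    rw [ev_eq (hL_mem h4 h6)]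
    congr 1
    exact Subtype.ext (hL_eq h4 h6)
  have h27 : P.φ (27 : P.B) = (27 : K) := map_ofNat P.φ 27
  have h54 : P.φ (54 : P.B) = (54 : K) := map_ofNat P.φ 54
  rw [h2, ev_eq h4, ev_eq h6, ← Hasse_map, map_mul, map_mul, map_neg, h27, h54]

end Pl

end

end Pool.Agent.SS
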