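import Pool.Agent.Work.MP_a5099b_nt.C.MOne
import Pool.Agent.Work.MP_a5099b_nt.B.Dual
import Pool.Agent.Work.MP_a5099b_nt.A.DqF

/-!
# Module C.MDl (M)

If `Δ(L)` has a nonzero value and `n ≠ p`, then `Δ(L')` has a nonzero value for `Sup n L L'`.

PROOF. (1) For every pair `Sup n M M'` with `e4 M, e6 M ∈ P.B`: `F M M' = dl M' ^ n / dl M ∈ P.B`. Use `fam_mem` with `k = 12 (n - 1)`
(`Wt_dl`, `dl_ne_zero`): expansion at `supb`: `a = Dq^n * lexp n Dinv` (`QX_supb` with `QX_dl`; `QX_lexp` with `QX_dinv`: the function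
`τ ↦ (dl (tauLat τ))⁻¹` has the expansion `lexp n Dinv` in powers of `e(τ/n)`; `QX.mul`), no negative powers, because `Dq` starts with
`q^1` (`Dq_zero`) and `Dinv` with `q^(-1)` (`Dinv_coeff_lt`), so the product has order `≥ n - n = 0` (write `Dq = X * D'` and
`Dinv = single (-1) * D''` with power series `D', D''`; `lexp n (single (-1) 1) = single (-n) 1`). At `supi`:
`b = n^(12 n) (lexp n Dq)^n * Dinv` (`QX_supi`, `QX_dinv`), order `≥ n^2 - 1 ≥ 0`.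
(2) `Sup_dual` (`B.Dual`, proved): `Sup n L' (n⁻¹ • L)`. `e4 L', e6 L' ∈ P.B` by `e_sup_mem`, so by (1) with `M = L'`, `M' = n⁻¹ • L`:
`F ∈ P.B`, `dl (n⁻¹ • L)^n = F * dl L'`; `dl (n⁻¹ • L) = n^12 dl L` (`Wt_dl`). Take values (`Pl.dl_mem`, `Pl.ev_mul`, `Pl.ev_pow`,
`Pl.ev_natCast`): `(n^12 ev (dl L))^n = ev F * ev (dl L')`, and the left side is not `0` as `n ≠ 0` in `K` (`n` prime, `n ≠ p`).
-/

set_option autoImplicit false

namespace Pool.Agent.SS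

open UpperHalfPlane Polynomial
open Pool.Agent.Work.CM (IsLat g2 g3 tauLat)
open scoped Pointwise MatrixGroups

private theorem MDl_mul {a b : LaurentSeries ℤ} {A B : ℤ} (ha : ∀ m : ℤ, m < A → a.coeff m = 0)
    (hb : ∀ m : ℤ, m < B → b.coeff m = 0) : ∀ m : ℤ, m < A + B → (a * b).coeff m = 0 := by
  intro m hm
  rw [HahnSeries.coeff_mul]
  refine Finset.sum_eq_zero ?_
  intro ij hij
  rw [Finset.mem_antidiagonal] at hij
  have h3 := hij.2.2
  by_cases h1 : ij.1 < A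
  · rw [ha _ h1, zero_mul]
  · rw [hb _ (by omega), mul_zero]

private theorem MDl_pow {a : LaurentSeries ℤ} {A : ℤ} (ha : ∀ m : ℤ, m < A → a.coeff m = 0)
    (k : ℕ) : ∀ m : ℤ, m < k * A → (a ^ k).coeff m = 0 := by
  induction k with
  | zero =>
    intro m hm
    rw [pow_zero, HahnSeries.coeff_one, if_neg]
    rintro rfl
    simp at hm
  | succ k ih =>
    intro m hm
    rw [pow_succ]
    refine MDl_mul ih ha m ?_
    push_cast at hm
    linarith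

private theorem MDl_lexp {n : ℕ} (hn : n ≠ 0) {a : LaurentSeries ℤ} {A : ℤ}
    (ha : ∀ m : ℤ, m < A → a.coeff m = 0) : ∀ m : ℤ, m < n * A → (lexp n a).coeff m = 0 := by
  intro m hm
  by_cases hd : (n : ℤ) ∣ m
  · obtain ⟨c, rfl⟩ := hd
    rw [lexp_coeff_mul hn]
    refine ha _ ?_
    have h0 : (0 : ℤ) < n := by exact_mod_cast Nat.pos_of_ne_zero hn
    exact lt_of_mul_lt_mul_left hm h0.le
  · exact lexp_coeff_of_not_dvd hn a hd

private theorem MDl_ps : ∀ m : ℤ, m < 1 → (HahnSeries.ofPowerSeries ℤ ℤ Dq).coeff m = 0 := by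
  intro m hm
  by_cases h : m = 0
  · subst h
    have h := HahnSeries.ofPowerSeries_apply_coeff (Γ := ℤ) Dq 0
    rw [Dq_zero] at h
    exact h
  · rw [HahnSeries.ofPowerSeries_apply]
    apply HahnSeries.embDomain_of_notMem_range
    rintro ⟨n, hn⟩
    have : (n : ℤ) = m := hn
    omega

private theorem MDl_qpow {n : ℕ} (hn : n ≠ 0) {f : ℍ → ℂ} {a : LaurentSeries ℂ} (hf : QX n f a)
    (k : ℕ) : QX n (f ^ k) (a ^ k) := by
  have h : ((f, a) : (ℍ → ℂ) × LaurentSeries ℂ) ∈ QXring n hn := hf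
  exact (QXring n hn).pow_mem h k

private theorem MDl_fam {K : Type} [Field K] {P : Pl K} {p : ℕ} [CharP K p] (hp : p.Prime)
    (h5 : 5 ≤ p) {n : ℕ} (hn : n.Prime) {L L' : Submodule ℤ ℂ} (h : Sup n L L')
    (h4 : e4 L ∈ P.B) (h6 : e6 L ∈ P.B) : dl L' ^ n * (dl L)⁻¹ ∈ P.B := by
  have hn0 : n ≠ 0 := hn.ne_zero
  refine fam_mem (F := fun M M' => dl M' ^ n * (dl M)⁻¹) (k := 12 * (n - 1)) hn ?_
    (a := (HahnSeries.ofPowerSeries ℤ ℤ Dq) ^ n * lexp n Dinv)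
    (b := (HahnSeries.C ((n : ℤ) ^ 12) * lexp n (HahnSeries.ofPowerSeries ℤ ℤ Dq)) ^ n * Dinv)
    ?_ ?_ ?_ ?_ P.cl h h4 h6 (Pl.dl_mem hp h5 h4 h6)
  · intro L L' hs m hm
    have h1 := Wt_dl L hs.lat m hm
    have h2 := Wt_dl L' hs.lat' m hm
    have h3 : ((m : ℂ) ^ (12 : ℤ)) = m ^ (12 : ℕ) := by norm_cast
    rw [h3] at h1 h2
    rw [← h1, ← h2]
    have hn1 : n = (n - 1) + 1 := by have := hn.pos; omega
    have hm12 : m ^ 12 ≠ 0 := pow_ne_zero _ hm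
    have h5 : (m ^ 12 * dl (m • L')) ^ n = m ^ (12 * (n - 1)) * m ^ 12 * dl (m • L') ^ n := by
      rw [mul_pow]
      congr 1
      rw [← pow_mul, ← pow_add]
      congr 1
      omega
    show m ^ (12 * (n - 1)) * (dl (m • L') ^ n * (dl (m • L))⁻¹) =
      (m ^ 12 * dl (m • L')) ^ n * (m ^ 12 * dl (m • L))⁻¹
    rw [h5, mul_inv]
    field_simp
  · have q1 := MDl_qpow hn0 (QX_supb hn0 QX_dl) n
    have q2 := QX_lexp hn0 QX_dinv
    have q3 := QX.mul hn0 q1 q2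
    have e : toC ((HahnSeries.ofPowerSeries ℤ ℤ Dq) ^ n * lexp n Dinv) =
        (toC (HahnSeries.ofPowerSeries ℤ ℤ Dq)) ^ n * lexp n (toC Dinv) := by
      unfold toC
      rw [map_mul, map_pow, lmap_lexp]
    rw [e]
    exact q3
  · have q1 := MDl_qpow one_ne_zero (QX_supi hn0 Wt_dl QX_dl) n
    have q3 := QX.mul one_ne_zero q1 QX_dinv
    have e : toC ((HahnSeries.C ((n : ℤ) ^ 12) * lexp n (HahnSeries.ofPowerSeries ℤ ℤ Dq)) ^ n * Dinv) =
        (HahnSeries.C ((n : ℂ) ^ (12 : ℤ)) * lexp n (toC (HahnSeries.ofPowerSeries ℤ ℤ Dq))) ^ n *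
          toC Dinv := by
      unfold toC
      rw [map_mul, map_pow, map_mul, lmap_lexp]
      congr 3
      ext m
      show (Int.castRingHom ℂ) ((HahnSeries.C ((n : ℤ) ^ 12)).coeff m) = _
      rw [HahnSeries.C_apply, HahnSeries.C_apply, HahnSeries.coeff_single, HahnSeries.coeff_single]
      split_ifs
      · norm_cast
      · simp
    rw [e]
    exact q3
  · intro m hm
    refine MDl_mul (MDl_pow MDl_ps n) (MDl_lexp hn0 (A := -1) fun m hm => Dinv_coeff_lt hm) m ?_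
    omega
  · intro m hm
    have hC : ∀ m : ℤ, m < 0 → (HahnSeries.C ((n : ℤ) ^ 12) : LaurentSeries ℤ).coeff m = 0 := by
      intro m hm
      rw [HahnSeries.C_apply, HahnSeries.coeff_single, if_neg hm.ne]
    refine MDl_mul (MDl_pow (MDl_mul hC (MDl_lexp hn0 MDl_ps)) n)
      (fun m hm => Dinv_coeff_lt hm) m ?_
    have h1 : (1 : ℤ) ≤ n := by exact_mod_cast hn.pos
    nlinarith

theorem ev_dl_ne {K : Type} [Field K] {P : Pl K} {p : ℕ} [CharP K p] (hp : p.Prime) (h5 : 5 ≤ p)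
    {n : ℕ} (hn : n.Prime) (hnp : n ≠ p) {L L' : Submodule ℤ ℂ} (h : Sup n L L')
    (h4 : e4 L ∈ P.B) (h6 : e6 L ∈ P.B) (hd : P.ev (dl L) ≠ 0) : P.ev (dl L') ≠ 0 := by
  intro h0
  have hn0 : (n : ℂ) ≠ 0 := by exact_mod_cast hn.ne_zero
  obtain ⟨h4', h6'⟩ := e_sup_mem hp h5 hn h h4 h6
  have hdual := Sup_dual hn h
  have hF := MDl_fam hp h5 hn hdual h4' h6'
  have hdl' := Pl.dl_mem hp h5 h4' h6'
  have hdl := Pl.dl_mem hp h5 h4 h6
  have hne : dl L' ≠ 0 := dl_ne_zero h.lat'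
  have h1 := Wt_dl L h.lat ((n : ℂ)⁻¹) (inv_ne_zero hn0)
  have h2 : dl (((n : ℂ)⁻¹) • L) = (n : ℂ) ^ 12 * dl L := by
    rw [← h1]
    have h3 : (((n : ℂ)⁻¹) ^ (12 : ℤ)) = ((n : ℂ) ^ 12)⁻¹ := by
      rw [← inv_pow]
      norm_cast
    rw [h3, ← mul_assoc, mul_inv_cancel₀ (pow_ne_zero _ hn0), one_mul]
  have h3 : ((n : ℂ) ^ 12 * dl L) ^ n = dl (((n : ℂ)⁻¹) • L) ^ n * (dl L')⁻¹ * dl L' := by
    rw [h2, mul_assoc, inv_mul_cancel₀ hne, mul_one]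
  have h4 : P.ev (((n : ℂ) ^ 12 * dl L) ^ n) = 0 := by
    rw [h3, Pl.ev_mul hF hdl', h0, mul_zero]
  have hnB : (n : ℂ) ∈ P.B := natCast_mem P.B n
  rw [Pl.ev_pow (mul_mem (pow_mem hnB _) hdl), Pl.ev_mul (pow_mem hnB _) hdl, Pl.ev_pow hnB,
    Pl.ev_natCast] at h4
  have h5 := pow_eq_zero_iff (hn.ne_zero) |>.1 h4
  rcases mul_eq_zero.1 h5 with h6 | h6
  · have h7 := pow_eq_zero_iff (by norm_num : (12 : ℕ) ≠ 0) |>.1 h6
    rw [CharP.cast_eq_zero_iff K p] at h7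
    exact hnp ((Nat.prime_dvd_prime_iff_eq hp hn).1 h7).symm
  · exact hd h6

end Pool.Agent.SS
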