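import Pool.Agent.Work.MP_a5099b_nt.A.FormL

/-!
# Module C.MForm (S-M)

Forms with integral expansions take values in every ring that contains `e4 L, e6 L, dl L`.

PROOF. `formsL` (`A.FormL`, proved) with `R = (Int.castRingHom ℂ).range` (`InR.toC`, or directly: the coefficients of `toC s` are integers)
gives `P : MvPolynomial (Fin 3) R` with `S L = aeval ![e4 L, e6 L, dl L] P`; expand
(`MvPolynomial.aeval_def`, `MvPolynomial.eval₂_eq`/`induction_on`): a sum of products of elements of `R ⊆ B` and powers of `e4 L, e6 L, dl L`.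
-/

set_option autoImplicit false

namespace Pool.Agent.SS

open UpperHalfPlane Polynomial
open Pool.Agent.Work.CM (IsLat g2 g3 tauLat)
open scoped Pointwise MatrixGroups

theorem form_mem {k : ℕ} {S : Submodule ℤ ℂ → ℂ} (hS : Wt k S) {s : LaurentSeries ℤ}
    (hs : QX 1 (fun τ => S (tauLat τ)) (toC s)) (h0 : ∀ m : ℤ, m < 0 → s.coeff m = 0)
    (B : Subring ℂ) {L : Submodule ℤ ℂ} (hL : IsLat L) (h4 : e4 L ∈ B) (h6 : e6 L ∈ B)
    (hd : dl L ∈ B) : S L ∈ B := by
  have h0' : ∀ m : ℤ, m < 0 → (toC s).coeff m = 0 := by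
    intro m hm
    have h : (toC s).coeff m = ((s.coeff m : ℤ) : ℂ) := rfl
    rw [h, h0 m hm, Int.cast_zero]
  obtain ⟨P, -, hP⟩ := formsL (⊥ : Subring ℂ) hS hs (InR.toC ⊥ s) h0'
  rw [hP L hL, MvPolynomial.aeval_def, MvPolynomial.eval₂_eq']
  refine B.sum_mem fun d _ => B.mul_mem ?_ (B.prod_mem fun i _ => B.pow_mem ?_ _)
  · exact (bot_le : (⊥ : Subring ℂ) ≤ B) (Subtype.prop _)
  · fin_cases i
    · exact h4
    · exact h6
    · exact hd

end Pool.Agent.SS
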