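import Pool.Agent.Work.MP_a5099b_nt.B.Fam
import Pool.Agent.Work.MP_a5099b_nt.C.MForm
import Pool.Agent.Work.MP_a5099b_nt.C.MCoef

/-!
# Module C.MFam (M)

Functions `F(L, L')` of pairs of lattices with integral expansions are integral over the ring generated by `e4 L, e6 L, dl L`.

PROOF. `fam` (`B.Fam`, proved) with `toC a`, `toC b`: for `i ≤ n + 1` the function
`S_i(L) = (∏_{L' ∈ supF n L} (X - C (F L L'))).coeff i` has weight `k (n + 1 - i)` and the expansion
`((X - C (toC b)) * Nm n (toC a)).coeff i = toC (((X - C b) * Nm n a).coeff i)` (`Nm_map` with `f = Int.castRingHom ℂ`, `toC = lmap f`;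
`Polynomial.coeff_map`). The series `((X - C b) * Nm n a).coeff i` has no negative powers (`Nm_nonneg`, `hb0`; coefficient `0` is
`-(b * (Nm n a).coeff 0)`, coefficient `j + 1` is `(Nm n a).coeff j - b * (Nm n a).coeff (j+1)`). So `S_i(L) ∈ B` by `form_mem`
(the weight `(k : ℤ) * (n + 1 - i : ℕ)` is the cast of a natural number). The polynomial `∏_{L'} (X - C (F L L'))` is monic of degree
`card (supF n L) = n + 1` with coefficients in `B` (the coefficients with `i > n + 1` are `0`), and `F L L'` is a root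
(`mem_supF`), so `F L L'` is integral over `B` (lift the polynomial to `B[X]`: `Polynomial.lifts`/`toSubring`), hence in `B` by `hB`.
-/

set_option autoImplicit false

namespace Pool.Agent.SS

open UpperHalfPlane Polynomial
open Pool.Agent.Work.CM (IsLat g2 g3 tauLat)
open scoped Pointwise MatrixGroups

private theorem mfam_mul {A : Type*} [CommRing A] {a b : LaurentSeries A}
    (ha : ∀ m : ℤ, m < 0 → a.coeff m = 0) (hb : ∀ m : ℤ, m < 0 → b.coeff m = 0) {m : ℤ}
    (hm : m < 0) : (a * b).coeff m = 0 := by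
  rw [HahnSeries.coeff_mul]
  apply Finset.sum_eq_zero
  intro ij hij
  rw [Finset.mem_antidiagonal] at hij
  have h1 := hij.2.2
  by_cases h2 : ij.1 < 0
  · rw [ha _ h2, zero_mul]
  · rw [hb _ (by omega), mul_zero]

private theorem mfam_c0 {R : Type*} [CommRing R] (b : R) (p : R[X]) :
    ((X - C b) * p).coeff 0 = -(b * p.coeff 0) := by
  rw [sub_mul, coeff_sub, coeff_C_mul, coeff_X_mul_zero, zero_sub]

private theorem mfam_c1 {R : Type*} [CommRing R] (b : R) (p : R[X]) (j : ℕ) :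
    ((X - C b) * p).coeff (j + 1) = p.coeff j + -(b * p.coeff (j + 1)) := by
  rw [sub_mul, coeff_sub, coeff_C_mul, coeff_X_mul, sub_eq_add_neg]

theorem fam_mem {n : ℕ} (hn : n.Prime) {k : ℕ} {F : Submodule ℤ ℂ → Submodule ℤ ℂ → ℂ}
    (hF : ∀ L L', Sup n L L' → ∀ m : ℂ, m ≠ 0 → m ^ k * F (m • L) (m • L') = F L L')
    {a b : LaurentSeries ℤ} (ha : QX n (fun τ => F (tauLat τ) (supb n τ 0)) (toC a))
    (hb : QX 1 (fun τ => F (tauLat τ) (supi n τ)) (toC b))
    (ha0 : ∀ m : ℤ, m < 0 → a.coeff m = 0) (hb0 : ∀ m : ℤ, m < 0 → b.coeff m = 0)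
    {B : Subring ℂ} (hB : ∀ z : ℂ, IsIntegral B z → z ∈ B) {L L' : Submodule ℤ ℂ}
    (h : Sup n L L') (h4 : e4 L ∈ B) (h6 : e6 L ∈ B) (hd : dl L ∈ B) : F L L' ∈ B := by
  have hn0 : n ≠ 0 := hn.ne_zero
  have hF' : ∀ L L', Sup n L L' → ∀ m : ℂ, m ≠ 0 → m ^ ((k : ℕ) : ℤ) * F (m • L) (m • L') = F L L' := by
    intro L L' hs m hm
    rw [zpow_natCast]
    exact hF L L' hs m hm
  set P : ℂ[X] := ∏ L'' ∈ supF n L, (X - C (F L L'')) with hP
  have hPm : P.Monic := monic_prod_of_monic _ _ fun L'' _ => monic_X_sub_C _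
  have hPd : P.natDegree ≤ n + 1 := by
    rw [← card_supF hn h.lat]
    refine (natDegree_prod_le _ _).trans ?_
    rw [Finset.card_eq_sum_ones]
    exact Finset.sum_le_sum fun L'' _ => (natDegree_X_sub_C _).le
  have hnn : ∀ i : ℕ, ∀ m : ℤ, m < 0 → (((X - C b) * Nm n a).coeff i).coeff m = 0 := by
    intro i m hm
    have h1 : ∀ j, (b * (Nm n a).coeff j).coeff m = 0 := fun j =>
      mfam_mul hb0 (fun m hm => Nm_nonneg hn0 ha0 j hm) hm
    rcases i with _ | j
    · rw [mfam_c0, HahnSeries.coeff_neg, h1, neg_zero]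
    · rw [mfam_c1, HahnSeries.coeff_add, HahnSeries.coeff_neg, h1, Nm_nonneg hn0 ha0 j hm, neg_zero,
        add_zero]
  have hco : ∀ i, P.coeff i ∈ B := by
    intro i
    by_cases hi : i ≤ n + 1
    · obtain ⟨w, q⟩ := fam hn hF' ha hb hi
      have e1 : ((X - C (toC b)) * Nm n (toC a)).coeff i =
          toC (((X - C b) * Nm n a).coeff i) := by
        have e2 : (((X - C b) * Nm n a).map (lmap (Int.castRingHom ℂ))) =
            (X - C (toC b)) * Nm n (toC a) := by
          rw [Polynomial.map_mul, Polynomial.map_sub, map_X, map_C, Nm_map]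
          rfl
        rw [← e2, coeff_map]
        rfl
      rw [e1] at q
      have w' : Wt ((k * (n + 1 - i) : ℕ) : ℤ)
          (fun L => (∏ L' ∈ supF n L, (X - C (F L L'))).coeff i) := by
        rw [Nat.cast_mul]
        exact w
      exact form_mem w' q (hnn i) B h.lat h4 h6 hd
    · rw [coeff_eq_zero_of_natDegree_lt (by omega)]
      exact zero_mem B
  have hl : P ∈ lifts (algebraMap B ℂ) := by
    rw [lifts_iff_coeff_lifts]
    intro i
    exact ⟨⟨P.coeff i, hco i⟩, rfl⟩
  obtain ⟨Q, hQ, -, hQm⟩ := lifts_and_natDegree_eq_and_monic hl hPm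
  apply hB
  refine ⟨Q, hQm, ?_⟩
  rw [← eval_map, hQ, hP, eval_prod]
  exact Finset.prod_eq_zero ((mem_supF hn h.lat).2 h) (by simp)

end Pool.Agent.SS
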