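import Pool.Agent.Work.MP_a5099b_nt.C.MPl
import Pool.Agent.Work.MP_a5099b_nt.B.HHx
import Pool.Agent.Work.MP_a5099b_nt.A.Lat

/-!
# Module C.MHH (M)

A root `z ∈ K` of the class polynomial is the value of `j` at a lattice with multiplication by `√(-l)` and `Δ(L) = 1`.

PROOF. `exists_Pl` for `A = ⊥` (or `(Int.castRingHom ℂ).range`) and the homomorphism `A → K`; e.g. the subring `A` of the integers, with
`f` = the composition of `A ≃+* ℤ` (`RingEquiv.ofInjective`/`Int.castRingHom` injective) and `Int.castRingHom K`. `P.B` contains the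
integral closure of `ℤ` (`P.cl`). `isHH hl` (`B.HHx`, proved): `HH l` is monic and its complex roots are the `jL L`, `IsLat L`, `HasSq l L`.
Over `ℂ`: `HH l = ∏ (X - r_i)` (`IsAlgClosed.splits`, multiset of roots), the `r_i` are integral over `ℤ`, so in `P.B`; so
`(HH l).map (Int.castRingHom P.B) = ∏ (X - C r_i)` in `P.B[X]` (injectivity of the map to `ℂ[X]`), map by `P.φ` and evaluate at `z`:
`z = ev r_i` for some root `r_i = jL L₀`, `HasSq l L₀`. Choose `m` with `m^12 = dl L₀` (`m ≠ 0` by `dl_ne_zero`), `L = m • L₀`: `dl L = m^(-12) dl L₀ = 1`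
(`Wt_dl`), `jL L = jL L₀` (`jL_smul`), `HasSq l L` (clear), `IsLat L` (`IsLat.smul`). `e4 L ^ 3 = jL L * dl L = jL L ∈ P.B` (`jL_eq`), so `e4 L` is
integral over `P.B`, hence in `P.B`; `e6 L ^ 2 = e4 L ^ 3 - 1728` (definition of `dl`), so `e6 L ∈ P.B`.
-/

set_option autoImplicit false

namespace Pool.Agent.SS

open UpperHalfPlane Polynomial
open Pool.Agent.Work.CM (IsLat g2 g3 tauLat)
open scoped Pointwise MatrixGroups

private theorem mhh_root {l : ℕ} (hl : LPrime l) {K : Type} [Field K] (P : Pl K) (z : K)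
    (hz : aeval z (HH l) = 0) :
    ∃ r : ℂ, aeval r (HH l) = 0 ∧ r ∈ P.B ∧ P.ev r = z := by
  have hmon := (isHH hl).monic
  set F : ℂ[X] := (HH l).map (Int.castRingHom ℂ) with hF
  have hFm : F.Monic := hmon.map _
  have hroot : ∀ r ∈ F.roots, aeval r (HH l) = 0 := by
    intro r hr
    have h1 := (mem_roots'.1 hr).2
    rw [IsRoot, hF, eval_map] at h1
    rw [aeval_def]
    exact h1
  have hB : ∀ r ∈ F.roots, r ∈ P.B := by
    intro r hr
    apply P.cl
    have h1 : IsIntegral ℤ r := ⟨HH l, hmon, hroot r hr⟩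
    exact h1.tower_top
  obtain ⟨S, hS⟩ : ∃ S : Multiset P.B, S.map P.B.subtype = F.roots :=
    ⟨F.roots.attach.map (fun r => ⟨r.1, hB r.1 r.2⟩), by
      rw [Multiset.map_map]
      exact Multiset.attach_map_val _⟩
  have e1 := (IsAlgClosed.splits F).eq_prod_roots
  rw [hFm.leadingCoeff, C_1, one_mul, ← hS, Multiset.map_map] at e1
  have e2 : (HH l).map (Int.castRingHom P.B) = (S.map (fun b => X - C b)).prod := by
    apply Polynomial.map_injective P.B.subtype Subtype.val_injective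
    rw [Polynomial.map_map, Polynomial.map_multiset_prod, Multiset.map_map]
    have h1 : P.B.subtype.comp (Int.castRingHom P.B) = Int.castRingHom ℂ := RingHom.ext_int _ _
    rw [h1, ← hF, e1]
    congr 1
    apply Multiset.map_congr rfl
    intro b _
    simp
  have e3 : aeval z (HH l) = (S.map (fun b => z - P.φ b)).prod := by
    have h1 : P.φ.comp (Int.castRingHom P.B) = Int.castRingHom K := RingHom.ext_int _ _
    rw [aeval_def, show algebraMap ℤ K = Int.castRingHom K from rfl, ← eval_map, ← h1,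
      ← Polynomial.map_map, e2, Polynomial.map_multiset_prod, Multiset.map_map,
      eval_multiset_prod, Multiset.map_map]
    congr 1
    apply Multiset.map_congr rfl
    intro b _
    simp
  rw [e3, Multiset.prod_eq_zero_iff, Multiset.mem_map] at hz
  obtain ⟨b, hb, hb0⟩ := hz
  refine ⟨b, ?_, b.2, ?_⟩
  · apply hroot
    rw [← hS]
    exact Multiset.mem_map_of_mem _ hb
  · rw [Pl.ev_eq b.2]
    exact (sub_eq_zero.1 hb0).symm

private theorem mhh_smul {l : ℕ} {L : Submodule ℤ ℂ} (h : HasSq l L) (m : ℂ) :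
    HasSq l (m • L) := by
  intro z hz
  obtain ⟨w, hw, rfl⟩ := Submodule.mem_smul_pointwise_iff_exists z m L |>.1 hz
  rw [smul_eq_mul, show sq l * (m * w) = m • (sq l * w) by rw [smul_eq_mul]; ring]
  exact Submodule.smul_mem_pointwise_smul _ m L (h w hw)

private theorem mhh_pl (K : Type) [Field K] [IsAlgClosed K] : Nonempty (Pl K) := by
  let e : ℤ ≃+* (Int.castRingHom ℂ).range :=
    RingEquiv.ofBijective (Int.castRingHom ℂ).rangeRestrict
      ⟨fun a b h => by
        have h1 := congrArg (fun x : (Int.castRingHom ℂ).range => (x : ℂ)) h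
        exact Int.cast_injective (α := ℂ) h1,
      RingHom.rangeRestrict_surjective _⟩
  obtain ⟨P, -⟩ := exists_Pl (K := K) (Int.castRingHom ℂ).range
    ((Int.castRingHom K).comp e.symm.toRingHom)
  exact ⟨P⟩

theorem exists_HH {l : ℕ} (hl : LPrime l) {K : Type} [Field K] [IsAlgClosed K] (z : K)
    (hz : aeval z (HH l) = 0) :
    ∃ (L : Submodule ℤ ℂ) (P : Pl K), IsLat L ∧ HasSq l L ∧ dl L = 1 ∧ e4 L ∈ P.B ∧ e6 L ∈ P.B ∧
      P.ev (jL L) = z := by
  obtain ⟨P⟩ := mhh_pl K
  obtain ⟨r, hr, hrB, hrz⟩ := mhh_root hl P z hz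
  obtain ⟨L₀, hL₀, hs, hj⟩ := ((isHH hl).spec r).1 hr
  obtain ⟨m, hm⟩ : ∃ m : ℂ, m ^ 12 = dl L₀ := by
    obtain ⟨m, hm⟩ := IsAlgClosed.exists_pow_nat_eq (dl L₀) (n := 12) (by norm_num)
    exact ⟨m, hm⟩
  have hm0 : m ≠ 0 := by
    rintro rfl
    exact dl_ne_zero hL₀ (by rw [← hm]; norm_num)
  have hd : dl (m • L₀) = 1 := by
    have h1 := Wt_dl L₀ hL₀ m hm0
    rw [zpow_ofNat, hm] at h1
    exact mul_left_cancel₀ (dl_ne_zero hL₀) (by rw [h1, mul_one])
  have hj' : jL (m • L₀) = r := by rw [jL_smul hL₀ hm0, hj]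
  have h4 : e4 (m • L₀) ^ 3 = r := by
    have h1 := jL_eq (m • L₀)
    rw [hd, div_one, hj'] at h1
    exact h1.symm
  have h4B : e4 (m • L₀) ∈ P.B := by
    apply P.cl
    refine IsIntegral.of_pow (n := 3) (by norm_num) ?_
    rw [h4]
    exact isIntegral_algebraMap (R := P.B) (x := ⟨r, hrB⟩)
  have h6 : e6 (m • L₀) ^ 2 = e4 (m • L₀) ^ 3 - 1728 := by
    have h1 := hd
    unfold dl at h1
    rw [div_eq_iff (by norm_num)] at h1
    linear_combination -h1
  have h6B : e6 (m • L₀) ∈ P.B := by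
    apply P.cl
    refine IsIntegral.of_pow (n := 2) (by norm_num) ?_
    rw [h6, h4]
    have h1 : r - 1728 ∈ P.B := by
      refine sub_mem hrB ?_
      have := natCast_mem P.B 1728
      exact_mod_cast this
    exact isIntegral_algebraMap (R := P.B) (x := ⟨r - 1728, h1⟩)
  exact ⟨m • L₀, P, hL₀.smul hm0, mhh_smul hs m, hd, h4B, h6B, by rw [hj', hrz]⟩

end Pool.Agent.SS
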