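import Pool.Agent.Work.MP_a5099b_nt.C.MFam
import Pool.Agent.Work.MP_a5099b_nt.C.MDefs
import Pool.Agent.Work.MP_a5099b_nt.A.Exp
import Pool.Agent.Work.MP_a5099b_nt.B.SupQ

/-!
# Module C.MOne (S-M)

`e4 L', e6 L'` are integral over the ring generated by `e4 L, e6 L, 1/6`.

PROOF. `fam_mem` with `F L L' = e4 L'`, `k = 4` (`Wt_e4`), `a = E4q` (`QX_supb` with `QX_e4`), `b = n^4 * lexp n E4q` (`QX_supi`; write
`HahnSeries.C ((n:ℂ)^4) * lexp n (toC E4q) = toC (HahnSeries.C (n^4) * lexp n E4q)` with `lmap_lexp`); no negative powers: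
`lexp_coeff_mul`, `lexp_coeff_of_not_dvd`, coefficients of `ofPowerSeries` at negative integers are `0`. `hB = P.cl`, `hd = Pl.dl_mem hp h5 h4 h6`.
The same for `e6` with `k = 6`.
-/

set_option autoImplicit false

namespace Pool.Agent.SS

open UpperHalfPlane Polynomial
open Pool.Agent.Work.CM (IsLat g2 g3 tauLat)
open scoped Pointwise MatrixGroups

private theorem mone_neg (p : PowerSeries ℤ) {m : ℤ} (hm : m < 0) :
    (HahnSeries.ofPowerSeries ℤ ℤ p).coeff m = 0 := by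
  rw [HahnSeries.ofPowerSeries_apply]
  apply HahnSeries.embDomain_of_notMem_range
  rintro ⟨n, hn⟩
  have : (n : ℤ) = m := hn
  omega

private theorem mone_aux {K : Type} [Field K] {P : Pl K} {p : ℕ} [CharP K p] (hp : p.Prime)
    (h5 : 5 ≤ p) {n : ℕ} (hn : n.Prime) {L L' : Submodule ℤ ℂ} (h : Sup n L L') (h4 : e4 L ∈ P.B)
    (h6 : e6 L ∈ P.B) {k : ℕ} {S : Submodule ℤ ℂ → ℂ} (hS : Wt (k : ℤ) S) (q : PowerSeries ℤ)
    (hq : QX 1 (fun τ => S (tauLat τ)) (toC (HahnSeries.ofPowerSeries ℤ ℤ q))) : S L' ∈ P.B := by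
  have hn0 : n ≠ 0 := hn.ne_zero
  have hF : ∀ L L', Sup n L L' → ∀ m : ℂ, m ≠ 0 →
      m ^ k * (fun _ L' => S L' : Submodule ℤ ℂ → Submodule ℤ ℂ → ℂ) (m • L) (m • L') =
        (fun _ L' => S L' : Submodule ℤ ℂ → Submodule ℤ ℂ → ℂ) L L' := by
    intro L L' hs m hm
    have := hS L' hs.lat' m hm
    rwa [zpow_natCast] at this
  have hb := QX_supi hn0 hS hq
  have e : HahnSeries.C ((n : ℂ) ^ (k : ℤ)) * lexp n (toC (HahnSeries.ofPowerSeries ℤ ℤ q)) =
      toC (HahnSeries.C ((n : ℤ) ^ k) * lexp n (HahnSeries.ofPowerSeries ℤ ℤ q)) := by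
    unfold toC
    rw [map_mul, lmap_lexp]
    congr 1
    ext m
    show _ = ((HahnSeries.C ((n : ℤ) ^ k)).map (Int.castRingHom ℂ)).coeff m
    rw [HahnSeries.map_coeff, HahnSeries.C_apply, HahnSeries.C_apply]
    by_cases hm : m = 0
    · subst hm
      rw [HahnSeries.coeff_single_same, HahnSeries.coeff_single_same]
      simp
    · rw [HahnSeries.coeff_single_of_ne hm, HahnSeries.coeff_single_of_ne hm, map_zero]
  rw [e] at hb
  refine fam_mem hn (F := fun _ L' => S L') hF (QX_supb hn0 hq) hb (fun m hm => mone_neg q hm) ?_ P.cl h h4 h6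
    (Pl.dl_mem hp h5 h4 h6)
  intro m hm
  rw [HahnSeries.C_mul_eq_smul, HahnSeries.coeff_smul]
  have h0 : (lexp n (HahnSeries.ofPowerSeries ℤ ℤ q)).coeff m = 0 := by
    by_cases hd : (n : ℤ) ∣ m
    · obtain ⟨l, rfl⟩ := hd
      rw [lexp_coeff_mul hn0]
      apply mone_neg
      have hn1 : (0 : ℤ) < n := by exact_mod_cast hn.pos
      by_contra hl
      push Not at hl
      have := mul_nonneg hn1.le hl
      omega
    · exact lexp_coeff_of_not_dvd hn0 _ hd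
  rw [h0, smul_zero]

theorem e_sup_mem {K : Type} [Field K] {P : Pl K} {p : ℕ} [CharP K p] (hp : p.Prime) (h5 : 5 ≤ p)
    {n : ℕ} (hn : n.Prime) {L L' : Submodule ℤ ℂ} (h : Sup n L L') (h4 : e4 L ∈ P.B)
    (h6 : e6 L ∈ P.B) : e4 L' ∈ P.B ∧ e6 L' ∈ P.B :=
  ⟨mone_aux hp h5 hn h h4 h6 (k := 4) Wt_e4 E4q QX_e4,
    mone_aux hp h5 hn h h4 h6 (k := 6) Wt_e6 E6q QX_e6⟩

end Pool.Agent.SS
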