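import Pool.Agent.Work.MP_a5099b_nt.C.MSs
import Pool.Agent.Work.MP_a5099b_nt.C.MDl
import Pool.Agent.Work.MP_a5099b_nt.B.PhiX

/-!
# Module C.MPhi (M)

The roots of `Φ_n(ev (j L), Y)` are the values of `j` at the superlattices.

PROOF. For `L' ∈ supF n L` (`mem_supF`): `e4 L', e6 L' ∈ P.B` (`e_sup_mem`), `ev (dl L') ≠ 0` (`ev_dl_ne`), so `jL L' ∈ P.B` (`jL_mem`).
Let `j : P.B` be `jL L` and `j' L'` the element `jL L'` of `P.B` (`0` when not in `P.B`). `PhiAt_supF`: `PhiAt n (jL L) = ∏_{L' ∈ supF n L} (X - C (jL L'))` in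
`ℂ[X]`; by `PhiAt_map` for the inclusion `P.B.subtype` and injectivity of `Polynomial.map`, `PhiAt n j = ∏ (X - C (j' L'))` in `P.B[X]`; map
by `P.φ` (`PhiAt_map`): `PhiAt n (ev (jL L)) = ∏ (X - C (ev (jL L')))`. Evaluate at `y`: some factor vanishes (`Finset.prod_eq_zero_iff`).
-/

set_option autoImplicit false

namespace Pool.Agent.SS

open UpperHalfPlane Polynomial
open Pool.Agent.Work.CM (IsLat g2 g3 tauLat)
open scoped Pointwise MatrixGroups

theorem root_Phi {K : Type} [Field K] {P : Pl K} {p : ℕ} [CharP K p] (hp : p.Prime) (h5 : 5 ≤ p)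
    {n : ℕ} (hn : n.Prime) (hnp : n ≠ p) {L : Submodule ℤ ℂ} (hL : IsLat L)
    (h4 : e4 L ∈ P.B) (h6 : e6 L ∈ P.B) (hd : P.ev (dl L) ≠ 0) {y : K}
    (hy : (PhiAt n (P.ev (jL L))).eval y = 0) : ∃ L', Sup n L L' ∧ P.ev (jL L') = y := by
  classical
  have hj := (jL_mem hp h5 h4 h6 hd).1
  have hj' : ∀ L' ∈ supF n L, jL L' ∈ P.B := by
    intro L' hL'
    have hs := (mem_supF hn hL).1 hL'
    have he := e_sup_mem hp h5 hn hs h4 h6
    exact (jL_mem hp h5 he.1 he.2 (ev_dl_ne hp h5 hn hnp hs h4 h6 hd)).1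
  let j' : Submodule ℤ ℂ → P.B := fun L' => if h : jL L' ∈ P.B then ⟨jL L', h⟩ else 0
  have hj'v : ∀ L' ∈ supF n L, (j' L' : ℂ) = jL L' := by
    intro L' hL'
    simp only [j']
    rw [dif_pos (hj' L' hL')]
  have key : PhiAt n (⟨jL L, hj⟩ : P.B) = ∏ L' ∈ supF n L, (X - C (j' L')) := by
    apply Polynomial.map_injective P.B.subtype Subtype.val_injective
    rw [PhiAt_map, Polynomial.map_prod]
    have e : PhiAt n (P.B.subtype ⟨jL L, hj⟩) = PhiAt n (jL L) := rfl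
    rw [e, PhiAt_supF hn hL]
    refine Finset.prod_congr rfl fun L' hL' => ?_
    rw [Polynomial.map_sub, map_X, map_C, Subring.subtype_apply, hj'v L' hL']
  have key2 := congrArg (Polynomial.map P.φ) key
  rw [PhiAt_map, Polynomial.map_prod, ← Pl.ev_eq hj] at key2
  rw [key2, eval_prod, Finset.prod_eq_zero_iff] at hy
  obtain ⟨L', hL', h⟩ := hy
  refine ⟨L', (mem_supF hn hL).1 hL', ?_⟩
  rw [Polynomial.map_sub, map_X, map_C, eval_sub, eval_X, eval_C, sub_eq_zero] at h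
  rw [h, Pl.ev_eq (hj' L' hL')]
  congr 1
  exact Subtype.ext (hj'v L' hL').symm

end Pool.Agent.SS
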