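import Pool.Agent.Work.MP_a5099b_nt.C.MDefs
import Pool.Agent.Work.MP_a5099b_nt.E.Ext

/-!
# Module C.MPl (M)

Every homomorphism from a subring `A` of `ℂ` to an algebraically closed field `K` extends to a place.

PROOF. `exists_ext` (`E.Ext`, proved) gives `g : integralClosure A ℂ →+* K` with `g a = f a` on `A`. Write
`R = integralClosure A ℂ ⊆ ℂ`. Let `B = {z | ∃ a s : R, g s ≠ 0 ∧ z * s = a}`, a subring (`0, 1`: `s = 1`; sums: `z s = a`,
`z' s' = a'` give `(z + z') (s s') = a s' + a' s`; products, negatives; `g (s s') ≠ 0`). `φ z = g a / g s` (with chosen `a, s`) does not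
depend on the choice: `z s = a`, `z s' = a'` imply `a s' = a' s`, so `g a g s' = g a' g s`. So `φ` is a homomorphism, `φ a = f a` on
`A` (`s = 1`).
`cl`: let `z` be integral over `B`, `z^n + b_(n-1) z^(n-1) + ... + b_0 = 0`, let `s ∈ R` be a common denominator of the `b_i`
(`g s ≠ 0`, `s b_i ∈ R`; product of the denominators over a finite set). Multiply by `s^n`: `(s z)^n + ∑_{i<n} (s^(n-i) b_i) (s z)^i = 0`,
`s^(n-i) b_i ∈ R`; so `s z` is integral over `R`, hence over `A` (`IsIntegral` transitivity; or `integralClosure_idem` /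
`mem_integralClosure_iff`), so `a = s z ∈ R` and `z s = a`: `z ∈ B`. (Mathlib shortcuts: `IsLocalization.AtPrime`,
`IsIntegral.exists_multiple_integral_of_isLocalization`, `Polynomial.scaleRoots`.)
`inv`: `z s = a`, `g a / g s ≠ 0`, so `g a ≠ 0` and `z⁻¹ a = s` shows `z⁻¹ ∈ B` (`z ≠ 0` because `a ≠ 0`).
-/

set_option autoImplicit false

namespace Pool.Agent.SS

open UpperHalfPlane Polynomial
open Pool.Agent.Work.CM (IsLat g2 g3 tauLat)
open scoped Pointwise MatrixGroups

theorem exists_Pl {K : Type} [Field K] [IsAlgClosed K] (A : Subring ℂ) (f : A →+* K) :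
    ∃ P : Pl K, ∀ (z : ℂ) (h : z ∈ A), z ∈ P.B ∧ P.ev z = f ⟨z, h⟩ := by
  obtain ⟨g, hg⟩ := exists_ext A f
  -- the subring
  have hkey : ∀ (z : ℂ) (a s a' s' : integralClosure A ℂ), z * s = a → z * s' = a' →
      g a * g s' = g a' * g s := by
    intro z a s a' s' h h'
    rw [← map_mul, ← map_mul]
    congr 1
    apply Subtype.ext
    push_cast
    rw [← h, ← h']
    ring
  let B : Subring ℂ :=
    { carrier := {z | ∃ a s : integralClosure A ℂ, g s ≠ 0 ∧ z * s = a}
      mul_mem' := by
        rintro z w ⟨a, s, hs, h⟩ ⟨a', s', hs', h'⟩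
        refine ⟨a * a', s * s', by rw [map_mul]; exact mul_ne_zero hs hs', ?_⟩
        push_cast
        rw [← h, ← h']
        ring
      one_mem' := ⟨1, 1, by simp, by simp⟩
      add_mem' := by
        rintro z w ⟨a, s, hs, h⟩ ⟨a', s', hs', h'⟩
        refine ⟨a * s' + a' * s, s * s', by rw [map_mul]; exact mul_ne_zero hs hs', ?_⟩
        push_cast
        rw [← h, ← h']
        ring
      zero_mem' := ⟨0, 1, by simp, by simp⟩
      neg_mem' := by
        rintro z ⟨a, s, hs, h⟩
        refine ⟨-a, s, hs, ?_⟩
        push_cast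
        rw [← h]
        ring }
  have hB : ∀ z : ℂ, z ∈ B ↔ ∃ a s : integralClosure A ℂ, g s ≠ 0 ∧ z * s = a := fun z => Iff.rfl
  choose nu de hde hnd using fun z : B => (hB z).1 z.2
  have hval : ∀ (z : B) (a s : integralClosure A ℂ), g s ≠ 0 → (z : ℂ) * s = a →
      g (nu z) / g (de z) = g a / g s := by
    intro z a s hs h
    rw [div_eq_div_iff (hde z) hs]
    exact hkey z _ _ _ _ (hnd z) h
  let φ : B →+* K :=
    { toFun := fun z => g (nu z) / g (de z)
      map_one' := by
        rw [hval 1 1 1 (by simp) (by simp)]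
        simp
      map_mul' := by
        intro z w
        change g (nu (z * w)) / g (de (z * w)) = g (nu z) / g (de z) * (g (nu w) / g (de w))
        rw [hval (z * w) (nu z * nu w) (de z * de w)
          (by rw [map_mul]; exact mul_ne_zero (hde z) (hde w)) (by
            push_cast
            rw [← hnd z, ← hnd w]
            ring), map_mul, map_mul]
        field_simp
      map_zero' := by
        change g (nu 0) / g (de 0) = 0
        rw [hval 0 0 1 (by simp) (by simp)]
        simp
      map_add' := by
        intro z w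
        change g (nu (z + w)) / g (de (z + w)) = g (nu z) / g (de z) + (g (nu w) / g (de w))
        rw [hval (z + w) (nu z * de w + nu w * de z) (de z * de w)
          (by rw [map_mul]; exact mul_ne_zero (hde z) (hde w)) (by
            push_cast
            rw [← hnd z, ← hnd w]
            ring), map_add, map_mul, map_mul, map_mul]
        have h1 := hde z
        have h2 := hde w
        field_simp }
  have hφ : ∀ (z : B) (a s : integralClosure A ℂ), g s ≠ 0 → (z : ℂ) * s = a →
      φ z = g a / g s := hval
  have hRB : ∀ a : integralClosure A ℂ, (a : ℂ) ∈ B := fun a => ⟨a, 1, by simp, by simp⟩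
  let ι : integralClosure A ℂ →+* B :=
    { toFun := fun a => ⟨a, hRB a⟩
      map_one' := rfl
      map_mul' := fun _ _ => rfl
      map_zero' := rfl
      map_add' := fun _ _ => rfl }
  -- common denominators
  have hcd : ∀ (S : Finset ℕ) (c : ℕ → B), ∃ s : integralClosure A ℂ, g s ≠ 0 ∧
      ∀ i ∈ S, ∃ a : integralClosure A ℂ, (c i : ℂ) * s = a := by
    intro S c
    induction S using Finset.induction_on with
    | empty => exact ⟨1, by simp, by simp⟩
    | insert i S hi ih =>
      obtain ⟨s, hs, h⟩ := ih
      refine ⟨s * de (c i), by rw [map_mul]; exact mul_ne_zero hs (hde _), ?_⟩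
      intro j hj
      rcases Finset.mem_insert.1 hj with rfl | hj
      · refine ⟨nu (c j) * s, ?_⟩
        push_cast
        rw [← hnd (c j)]
        ring
      · obtain ⟨a, ha⟩ := h j hj
        refine ⟨a * de (c i), ?_⟩
        push_cast
        rw [← ha]
        ring
  let P : Pl K :=
    { B := B
      φ := φ
      cl := by
        intro z hz
        obtain ⟨p, hpm, hp⟩ := hz
        obtain ⟨s, hs, hsc⟩ := hcd p.support (fun i => p.coeff i)
        have hcoef : ∀ i, ∃ a : integralClosure A ℂ, (p.coeff i : ℂ) * s = a := by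
          intro i
          by_cases hi : i ∈ p.support
          · exact hsc i hi
          · rw [Polynomial.notMem_support_iff] at hi
            exact ⟨0, by rw [hi]; simp⟩
        set q : B[X] := p.scaleRoots (ι s) with hq
        have hqm : q.Monic := by
          rw [hq]
          exact (Polynomial.monic_scaleRoots_iff (ι s)).2 hpm
        have hql : q ∈ Polynomial.lifts ι := by
          rw [Polynomial.lifts_iff_coeff_lifts]
          intro i
          rw [hq, Polynomial.coeff_scaleRoots]
          rcases lt_trichotomy i p.natDegree with hi | hi | hi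
          · obtain ⟨a, ha⟩ := hcoef i
            refine ⟨a * s ^ (p.natDegree - i - 1), ?_⟩
            apply Subtype.ext
            have e : p.natDegree - i = (p.natDegree - i - 1) + 1 := by omega
            change ((a * s ^ (p.natDegree - i - 1) : integralClosure A ℂ) : ℂ) =
              (p.coeff i : ℂ) * ((s : ℂ)) ^ (p.natDegree - i)
            conv_rhs => rw [e]
            push_cast
            rw [← ha]
            ring
          · refine ⟨1, ?_⟩
            rw [hi, hpm.coeff_natDegree]
            simp
          · refine ⟨0, ?_⟩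
            rw [Polynomial.coeff_eq_zero_of_natDegree_lt hi]
            simp
        obtain ⟨q', hq', -, hq'm⟩ := Polynomial.lifts_and_natDegree_eq_and_monic hql hqm
        have hint : IsIntegral (integralClosure A ℂ) ((s : ℂ) * z) := by
          refine ⟨q', hq'm, ?_⟩
          have h1 : Polynomial.eval₂ (algebraMap B ℂ) ((s : ℂ) * z) q = 0 := by
            have h2 := Polynomial.scaleRoots_eval₂_mul (p := p) (algebraMap B ℂ) z (ι s)
            rw [hp, mul_zero] at h2
            exact h2
          rw [← hq', Polynomial.eval₂_map] at h1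
          exact h1
        have hint2 : IsIntegral A ((s : ℂ) * z) := isIntegral_trans _ hint
        exact ⟨⟨(s : ℂ) * z, hint2⟩, s, hs, mul_comm _ _⟩
      inv := by
        intro z h h0
        have h1 : φ ⟨z, h⟩ = g (nu ⟨z, h⟩) / g (de ⟨z, h⟩) := rfl
        have h2 : g (nu ⟨z, h⟩) ≠ 0 := by
          intro h3
          rw [h1, h3, zero_div] at h0
          exact h0 rfl
        refine ⟨de ⟨z, h⟩, nu ⟨z, h⟩, h2, ?_⟩
        have h3 : z * de ⟨z, h⟩ = nu ⟨z, h⟩ := hnd ⟨z, h⟩
        have h4 : z ≠ 0 := by
          rintro rfl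
          apply h2
          have : nu ⟨0, h⟩ = 0 := by
            apply Subtype.ext
            rw [← h3]
            simp
          rw [this, map_zero]
        rw [← h3]
        field_simp }
  refine ⟨P, fun z h => ?_⟩
  have hz : z ∈ P.B := by
    refine ⟨algebraMap A _ ⟨z, h⟩, 1, by simp, ?_⟩
    simp
    rfl
  refine ⟨hz, ?_⟩
  rw [Pl.ev_eq hz]
  have h1 : P.φ ⟨z, hz⟩ = g (algebraMap A _ ⟨z, h⟩) / g 1 := by
    refine hφ ⟨z, hz⟩ _ _ (by simp) ?_
    simp
    rfl
  rw [h1, hg, map_one, div_one]

end Pool.Agent.SS
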