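import Pool.Agent.Work.MP_a5099b_nt.B.Fam
import Pool.Agent.Work.MP_a5099b_nt.C.MForm
import Pool.Agent.Work.MP_a5099b_nt.C.MCoef
import Pool.Agent.Work.MP_a5099b_nt.C.MHasW
import Pool.Agent.Work.MP_a5099b_nt.C.MHZ
import Pool.Agent.Work.MP_a5099b_nt.A.NmChar
import Pool.Agent.Work.MP_a5099b_nt.B.SupQ

/-!
# Module C.MRa (M)

The coefficients of `R(X) = ∏_{L' ∈ supF p L} (X - hL p L')`: `r_i ∈ B`, `r_0 ∈ p^(p-1) B`, `r_1 ≡ -hL(L)^p` modulo `p B`.

PROOF. `H = ofPowerSeries (HZ p)` as a Laurent series over `ℤ`. `fam` with `n = p`, `k = ((p - 1 : ℕ) : ℤ)`, `F L L' = hL p L'` (`hL_wt`), expansions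
`toC H` (`QX_supb`, `hL_QX`) and `HahnSeries.C (p^(p-1)) * lexp p (toC H) = toC b`, `b = C (p^(p-1)) * lexp p H` (`QX_supi`, `lmap_lexp`): `r_i` has weight
`(p-1)(p+1-i)` and the expansion `toC (((X - C b) * Nm p H).coeff i)` (`Nm_map`). No negative powers (`Nm_nonneg`). (compare `C.MFam`)
`coef_mem`: `form_mem`.
`coef_zero`: `((X - C b) * N).coeff 0 = -(b * N.coeff 0) = C (p^(p-1)) * (-(lexp p H * N.coeff 0))`, so `S(L) = r_0(L)/p^(p-1)` has weight `(p-1)(p+1)` and the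
integral expansion `-(lexp p H * N.coeff 0)` (`QX.mul` with `QX.const`); `form_mem`.
`coef_one`: `((X - C b) * N).coeff 1 = N.coeff 0 - b * N.coeff 1`. Modulo `p`: `H = 1` (`HZ_mod`), so `N` maps to `Nm p 1 = X^p - 1` over `ZMod p`
(`Nm_map`, `Nm_char`), `N.coeff 0 = -1 + p c₁` with `c₁ : LaurentSeries ℤ` without negative powers; `H^p = (1 + p c)^p = 1 + p c₂`;
`b = p c₃` (`p - 1 ≥ 1`). So `S(L) = (r_1(L) + hL p L ^ p)/p` has weight `(p-1) p` and the integral expansion `c₁ + c₂ - c₃ N.coeff 1`; `form_mem`.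
(To divide by `p`: a Laurent series over `ℤ` whose image over `ZMod p` is `0` is `C p` times a Laurent series, with the same support bound:
divide the coefficients.)
-/

set_option autoImplicit false

namespace Pool.Agent.SS

open UpperHalfPlane Polynomial
open Pool.Agent.Work.CM (IsLat g2 g3 tauLat)
open scoped Pointwise MatrixGroups

private theorem mra_neg {A : Type*} [CommRing A] (f : PowerSeries A) {m : ℤ} (hm : m < 0) :
    (HahnSeries.ofPowerSeries ℤ A f).coeff m = 0 := by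
  rw [PowerSeries.coeff_coe, if_pos hm]

private theorem mra_mul {A : Type*} [CommRing A] {a b : LaurentSeries A}
    (ha : ∀ m : ℤ, m < 0 → a.coeff m = 0) (hb : ∀ m : ℤ, m < 0 → b.coeff m = 0) {m : ℤ}
    (hm : m < 0) : (a * b).coeff m = 0 := by
  rw [HahnSeries.coeff_mul]
  apply Finset.sum_eq_zero
  intro ij hij
  rw [Finset.mem_antidiagonal] at hij
  have h1 := hij.2.2
  by_cases h2 : ij.1 < 0
  · rw [ha _ h2, zero_mul]
  · rw [hb _ (by omega), mul_zero]

private theorem mra_C {A : Type*} [CommRing A] (c : A) {m : ℤ} (hm : m < 0) :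
    (HahnSeries.C c : LaurentSeries A).coeff m = 0 := by
  rw [HahnSeries.C_apply, HahnSeries.coeff_single_of_ne (by omega)]

private theorem mra_lexp {A : Type*} [CommRing A] {n : ℕ} (hn : n ≠ 0) {a : LaurentSeries A}
    (ha : ∀ m : ℤ, m < 0 → a.coeff m = 0) {m : ℤ} (hm : m < 0) : (lexp n a).coeff m = 0 := by
  have hn0 : (0 : ℤ) < n := by exact_mod_cast Nat.pos_of_ne_zero hn
  by_cases h : (n : ℤ) ∣ m
  · obtain ⟨l, rfl⟩ := h
    rw [lexp_coeff_mul hn]
    exact ha l (by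
      by_contra h1
      push Not at h1
      nlinarith)
  · exact lexp_coeff_of_not_dvd hn _ h

private theorem mra_c0 {R : Type*} [CommRing R] (b : R) (p : R[X]) :
    ((X - C b) * p).coeff 0 = -(b * p.coeff 0) := by
  rw [sub_mul, coeff_sub, coeff_C_mul, coeff_X_mul_zero, zero_sub]

private theorem mra_c1 {R : Type*} [CommRing R] (b : R) (p : R[X]) (j : ℕ) :
    ((X - C b) * p).coeff (j + 1) = p.coeff j + -(b * p.coeff (j + 1)) := by
  rw [sub_mul, coeff_sub, coeff_C_mul, coeff_X_mul, sub_eq_add_neg]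

/-- the expansion of `hL p` -/
private noncomputable def mH (p : ℕ) : LaurentSeries ℤ := HahnSeries.ofPowerSeries ℤ ℤ (HZ p)

/-- the expansion of `hL p (supi p τ)` -/
private noncomputable def mb (p : ℕ) : LaurentSeries ℤ :=
  HahnSeries.C ((p : ℤ) ^ (p - 1)) * lexp p (mH p)

/-- the expansion of the `i`-th coefficient -/
private noncomputable def mG (p i : ℕ) : LaurentSeries ℤ := ((X - C (mb p)) * Nm p (mH p)).coeff i

private theorem mH_neg (p : ℕ) {m : ℤ} (hm : m < 0) : (mH p).coeff m = 0 := mra_neg _ hm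

private theorem mN_neg {p : ℕ} (hp : p.Prime) (i : ℕ) {m : ℤ} (hm : m < 0) :
    ((Nm p (mH p)).coeff i).coeff m = 0 := Nm_nonneg hp.ne_zero (fun _ h => mH_neg p h) i hm

private theorem mb_neg {p : ℕ} (hp : p.Prime) {m : ℤ} (hm : m < 0) : (mb p).coeff m = 0 :=
  mra_mul (fun _ h => mra_C _ h) (fun _ h => mra_lexp hp.ne_zero (fun _ h => mH_neg p h) h) hm

private theorem mG_neg {p : ℕ} (hp : p.Prime) (i : ℕ) {m : ℤ} (hm : m < 0) :
    (mG p i).coeff m = 0 := by
  have h1 : ∀ j, (mb p * (Nm p (mH p)).coeff j).coeff m = 0 := fun j =>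
    mra_mul (fun _ h => mb_neg hp h) (fun _ h => mN_neg hp j h) hm
  unfold mG
  rcases i with _ | j
  · rw [mra_c0, HahnSeries.coeff_neg, h1, neg_zero]
  · rw [mra_c1, HahnSeries.coeff_add, HahnSeries.coeff_neg, h1, mN_neg hp j hm, neg_zero, add_zero]

private theorem toC_C (c : ℤ) : toC (HahnSeries.C c) = HahnSeries.C (c : ℂ) := by
  ext m
  show ((HahnSeries.C c : LaurentSeries ℤ).coeff m : ℂ) = _
  rw [HahnSeries.C_apply, HahnSeries.C_apply, HahnSeries.coeff_single, HahnSeries.coeff_single]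
  split_ifs
  · rfl
  · exact Int.cast_zero

private theorem toC_mb (p : ℕ) : toC (mb p) =
    HahnSeries.C ((p : ℂ) ^ ((p - 1 : ℕ) : ℤ)) * lexp p (toC (mH p)) := by
  have h1 : toC (mb p) = toC (HahnSeries.C ((p : ℤ) ^ (p - 1))) * toC (lexp p (mH p)) :=
    map_mul (lmap (Int.castRingHom ℂ)) _ _
  have h2 : toC (lexp p (mH p)) = lexp p (toC (mH p)) := lmap_lexp _ _ _
  rw [h1, h2, toC_C, zpow_natCast, Int.cast_pow, Int.cast_natCast]

/-- weight and expansion of the coefficients -/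
private theorem mra_fam {p : ℕ} (hp : p.Prime) (h5 : 5 ≤ p) {i : ℕ} (hi : i ≤ p + 1) :
    Wt (((p - 1) * (p + 1 - i) : ℕ) : ℤ)
      (fun L => (∏ L' ∈ supF p L, (X - C (hL p L'))).coeff i) ∧
    QX 1 (fun τ => (∏ L' ∈ supF p (tauLat τ), (X - C (hL p L'))).coeff i) (toC (mG p i)) := by
  have hb : QX 1 (fun τ => hL p (supi p τ)) (toC (mb p)) := by
    rw [toC_mb]
    exact QX_supi hp.ne_zero (hL_wt hp h5) (hL_QX p)
  obtain ⟨w, q⟩ := fam hp (k := ((p - 1 : ℕ) : ℤ)) (F := fun _ L' => hL p L')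
    (fun L L' hs m hm => hL_wt hp h5 L' hs.lat' m hm)
    (QX_supb hp.ne_zero (hL_QX p)) hb hi
  refine ⟨?_, ?_⟩
  · rw [Nat.cast_mul]
    exact w
  · have e1 : ((X - C (toC (mb p))) * Nm p (toC (mH p))).coeff i = toC (mG p i) := by
      have e2 : (((X - C (mb p)) * Nm p (mH p)).map (lmap (Int.castRingHom ℂ))) =
          (X - C (toC (mb p))) * Nm p (toC (mH p)) := by
        rw [Polynomial.map_mul, Polynomial.map_sub, map_X, map_C, Nm_map]
        rfl
      rw [← e2, coeff_map]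
      rfl
    rw [← e1]
    exact q

theorem coef_mem {p : ℕ} (hp : p.Prime) (h5 : 5 ≤ p) (B : Subring ℂ) {L : Submodule ℤ ℂ}
    (hlat : IsLat L) (h4 : e4 L ∈ B) (h6 : e6 L ∈ B) (hd : dl L ∈ B) (i : ℕ) :
    (∏ L' ∈ supF p L, (X - C (hL p L'))).coeff i ∈ B := by
  by_cases hi : i ≤ p + 1
  · obtain ⟨w, q⟩ := mra_fam hp h5 hi
    exact form_mem w q (fun _ h => mG_neg hp i h) B hlat h4 h6 hd
  · have hPd : (∏ L' ∈ supF p L, (X - C (hL p L'))).natDegree ≤ p + 1 := by
      rw [← card_supF hp hlat]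
      refine (natDegree_prod_le _ _).trans ?_
      rw [Finset.card_eq_sum_ones]
      exact Finset.sum_le_sum fun L'' _ => (natDegree_X_sub_C _).le
    rw [coeff_eq_zero_of_natDegree_lt (by omega)]
    exact zero_mem B

/-- division by a constant -/
private theorem mra_div {f : ℍ → ℂ} {c : ℤ} (hc : c ≠ 0) {s : LaurentSeries ℤ}
    (h : QX 1 f (toC (HahnSeries.C c * s))) : QX 1 (fun τ => f τ / c) (toC s) := by
  intro τ
  have h1 := (h τ).div_const (c : ℂ)
  have hc' : (c : ℂ) ≠ 0 := by exact_mod_cast hc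
  have e : (fun m : ℤ => (toC s).coeff m * Function.Periodic.qParam ((1 : ℕ) : ℝ) τ ^ m) =
      fun m : ℤ => (toC (HahnSeries.C c * s)).coeff m *
        Function.Periodic.qParam ((1 : ℕ) : ℝ) τ ^ m / (c : ℂ) := by
    funext m
    have h2 : (toC (HahnSeries.C c * s)).coeff m = (c : ℂ) * (toC s).coeff m := by
      show (((HahnSeries.C c * s).coeff m : ℤ) : ℂ) = (c : ℂ) * ((s.coeff m : ℤ) : ℂ)
      rw [HahnSeries.C_mul_eq_smul, HahnSeries.coeff_smul, smul_eq_mul, Int.cast_mul]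
    rw [h2]
    field_simp
  show HasSum (fun m : ℤ => (toC s).coeff m * Function.Periodic.qParam ((1 : ℕ) : ℝ) τ ^ m)
    (f τ / c)
  rw [e]
  exact h1

theorem coef_zero {p : ℕ} (hp : p.Prime) (h5 : 5 ≤ p) (B : Subring ℂ) {L : Submodule ℤ ℂ}
    (hlat : IsLat L) (h4 : e4 L ∈ B) (h6 : e6 L ∈ B) (hd : dl L ∈ B) :
    ∃ r ∈ B, (∏ L' ∈ supF p L, (X - C (hL p L'))).coeff 0 = (p : ℂ) ^ (p - 1) * r := by
  obtain ⟨w, q⟩ := mra_fam hp h5 (Nat.zero_le (p + 1))
  have hp0 : (p : ℤ) ^ (p - 1) ≠ 0 := pow_ne_zero _ (by exact_mod_cast hp.ne_zero)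
  have hp1 : (p : ℂ) ^ (p - 1) ≠ 0 := pow_ne_zero _ (by exact_mod_cast hp.ne_zero)
  have e1 : mG p 0 = HahnSeries.C ((p : ℤ) ^ (p - 1)) * -(lexp p (mH p) * (Nm p (mH p)).coeff 0) := by
    unfold mG
    rw [mra_c0, mb]
    ring
  rw [e1] at q
  have q' := mra_div hp0 q
  have hs : ∀ m : ℤ, m < 0 → (-(lexp p (mH p) * (Nm p (mH p)).coeff 0)).coeff m = 0 := by
    intro m hm
    rw [HahnSeries.coeff_neg, mra_mul (fun _ h => mra_lexp hp.ne_zero (fun _ h => mH_neg p h) h)
      (fun _ h => mN_neg hp 0 h) hm, neg_zero]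
  have e2 : (((p : ℤ) ^ (p - 1) : ℤ) : ℂ) = (p : ℂ) ^ (p - 1) := by push_cast; rfl
  rw [e2] at q'
  have w' : Wt (((p - 1) * (p + 1 - 0) : ℕ) : ℤ)
      (fun L => (∏ L' ∈ supF p L, (X - C (hL p L'))).coeff 0 / (p : ℂ) ^ (p - 1)) := by
    intro L hL m hm
    have := w L hL m hm
    simp only at this ⊢
    rw [← this]
    ring
  refine ⟨_, form_mem w' q' hs B hlat h4 h6 hd, ?_⟩
  field_simp

private theorem mra_divp {p : ℕ} {s : LaurentSeries ℤ}
    (h : lmap (Int.castRingHom (ZMod p)) s = 0) (h0 : ∀ m : ℤ, m < 0 → s.coeff m = 0) :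
    ∃ s' : LaurentSeries ℤ, s = HahnSeries.C (p : ℤ) * s' ∧ ∀ m : ℤ, m < 0 → s'.coeff m = 0 := by
  have hd : ∀ m, (p : ℤ) ∣ s.coeff m := by
    intro m
    have h1 : ((s.coeff m : ℤ) : ZMod p) = 0 := by
      have h2 := congrArg (fun t : LaurentSeries (ZMod p) => t.coeff m) h
      exact h2
    rwa [ZMod.intCast_zmod_eq_zero_iff_dvd] at h1
  refine ⟨⟨fun m => s.coeff m / p, s.isPWO_support.mono fun m hm hm' => hm ?_⟩, ?_, ?_⟩
  · show s.coeff m / (p : ℤ) = 0
    rw [hm', Int.zero_ediv]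
  · ext m
    rw [HahnSeries.C_mul_eq_smul, HahnSeries.coeff_smul, smul_eq_mul]
    exact (Int.mul_ediv_cancel' (hd m)).symm
  · intro m hm
    show s.coeff m / (p : ℤ) = 0
    rw [h0 m hm, Int.zero_ediv]

theorem coef_one {p : ℕ} (hp : p.Prime) (h5 : 5 ≤ p) (B : Subring ℂ) {L : Submodule ℤ ℂ}
    (hlat : IsLat L) (h4 : e4 L ∈ B) (h6 : e6 L ∈ B) (hd : dl L ∈ B) :
    ∃ r ∈ B, (∏ L' ∈ supF p L, (X - C (hL p L'))).coeff 1 = -hL p L ^ p + p * r := by
  obtain ⟨w, q⟩ := mra_fam hp h5 (show 1 ≤ p + 1 by omega)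
  have hp0 : (p : ℤ) ≠ 0 := by exact_mod_cast hp.ne_zero
  have hp1 : (p : ℂ) ≠ 0 := by exact_mod_cast hp.ne_zero
  -- the power of the Hasse form
  have qp : ∀ k : ℕ, QX 1 (fun τ => hL p (tauLat τ) ^ k) (toC (mH p ^ k)) := by
    intro k
    induction k with
    | zero =>
      have h := QX.const 1 1
      rw [map_one] at h
      have e : toC (mH p ^ 0) = 1 := by
        rw [pow_zero]
        exact map_one (lmap (Int.castRingHom ℂ))
      rw [e]
      simpa using h
    | succ k ih =>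
      have h := QX.mul one_ne_zero ih (hL_QX p)
      have e : toC (mH p ^ (k + 1)) = toC (mH p ^ k) * toC (mH p) := by
        rw [pow_succ]
        exact map_mul (lmap (Int.castRingHom ℂ)) _ _
      rw [e]
      have e2 : (fun τ => hL p (tauLat τ) ^ (k + 1)) =
          (fun τ => hL p (tauLat τ) ^ k) * (fun τ => hL p (tauLat τ)) := by
        funext τ
        rw [Pi.mul_apply, pow_succ]
      rw [e2]
      exact h
  have q1 := QX.add one_ne_zero q (qp p)
  have e1 : toC (mG p 1) + toC (mH p ^ p) = toC (mG p 1 + mH p ^ p) :=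
    (map_add (lmap (Int.castRingHom ℂ)) _ _).symm
  rw [e1] at q1
  -- the sum is divisible by `p`
  have hz : lmap (Int.castRingHom (ZMod p)) (mG p 1 + mH p ^ p) = 0 := by
    have hH : lmap (Int.castRingHom (ZMod p)) (mH p) = 1 := by
      obtain ⟨c, hc⟩ := HZ_mod hp h5
      ext m
      show (((HahnSeries.ofPowerSeries ℤ ℤ (HZ p)).coeff m : ℤ) : ZMod p) = _
      rw [hc, PowerSeries.coeff_coe, HahnSeries.coeff_one]
      by_cases hm : m < 0
      · rw [if_pos hm, if_neg (by omega), Int.cast_zero]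
      · rw [if_neg hm, map_add, PowerSeries.coeff_C_mul, PowerSeries.coeff_one]
        push_cast
        rw [ZMod.natCast_self, zero_mul, add_zero]
        by_cases h0 : m = 0
        · subst h0
          simp
        · rw [if_neg h0, if_neg (by omega)]
    have hb : lmap (Int.castRingHom (ZMod p)) (mb p) = 0 := by
      rw [mb, map_mul]
      have h1 : lmap (Int.castRingHom (ZMod p)) (HahnSeries.C ((p : ℤ) ^ (p - 1))) = 0 := by
        ext m
        show (((HahnSeries.C ((p : ℤ) ^ (p - 1)) : LaurentSeries ℤ).coeff m : ℤ) : ZMod p) = _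
        rw [HahnSeries.C_apply, HahnSeries.coeff_single, HahnSeries.coeff_zero]
        split_ifs
        · push_cast
          rw [ZMod.natCast_self, zero_pow (by omega)]
        · exact Int.cast_zero
      rw [h1, zero_mul]
    have hN : lmap (Int.castRingHom (ZMod p)) ((Nm p (mH p)).coeff 0) = -1 := by
      rw [← coeff_map, Nm_map, hH, Nm_char hp, coeff_sub, coeff_X_pow, coeff_C_zero,
        if_neg hp.ne_zero.symm, zero_sub]
    rw [map_add, mG, mra_c1, map_add, map_neg, map_mul, hb, zero_mul, neg_zero, add_zero, hN,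
      map_pow, hH, one_pow, neg_add_cancel]
  have h0 : ∀ m : ℤ, m < 0 → (mG p 1 + mH p ^ p).coeff m = 0 := by
    have hpw : ∀ k : ℕ, ∀ m : ℤ, m < 0 → (mH p ^ k).coeff m = 0 := by
      intro k
      induction k with
      | zero =>
        intro m hm
        rw [pow_zero, HahnSeries.coeff_one, if_neg (by omega)]
      | succ k ih =>
        intro m hm
        rw [pow_succ]
        exact mra_mul ih (fun _ h => mH_neg p h) hm
    intro m hm
    rw [HahnSeries.coeff_add, mG_neg hp 1 hm, hpw p m hm, add_zero]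
  obtain ⟨s, hs1, hs2⟩ := mra_divp hz h0
  rw [hs1] at q1
  have q2 := mra_div hp0 q1
  rw [Int.cast_natCast] at q2
  have w' : Wt (((p - 1) * (p + 1 - 1) : ℕ) : ℤ)
      (fun L => ((∏ L' ∈ supF p L, (X - C (hL p L'))).coeff 1 + hL p L ^ p) / (p : ℂ)) := by
    intro L hL' m hm
    have h1 := w L hL' m hm
    have h2 := hL_wt hp h5 L hL' m hm
    simp only at h1 ⊢
    have h3 : m ^ (((p - 1) * (p + 1 - 1) : ℕ) : ℤ) * hL p (m • L) ^ p = hL p L ^ p := by
      rw [← h2, mul_pow, zpow_natCast, zpow_natCast, ← pow_mul, Nat.add_sub_cancel]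
    rw [← h3, ← h1]
    ring
  refine ⟨_, form_mem w' q2 hs2 B hlat h4 h6 hd, ?_⟩
  field_simp
  ring

end Pool.Agent.SS
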