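import Pool.Agent.Work.MP_a5099b_nt.C.QDefs

/-!
# Module C.QCar (M)

The congruence in characteristic `p`. `K` is a commutative ring with `p = 0` in `K` (possibly zero), `u ∈ K[[z]]` with
`u_0 = 0`, `u_1 = 1`, `s ∈ K`, and `(u' + s z^(p-1))^2 ≡ 1 + a u^4 + b u^6 mod z^p`, where the coefficient of `z^p` in `u` is
`0` (so `u'` has no term `z^(p-1)`; it has none anyway as `p = 0`). Then `s = - Hasse p a b`.

Proof. `N = (p-1)/2`, `Q = 1 + a u^4 + b u^6`, `r = u' + s z^(p-1)`, `r^2 ≡ Q mod z^p`, constant term of `r` is `1`. In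
characteristic `p` (`p = 0` in the ring) `r^p = (series in z^p)`, constant term `1`, so `r^p ≡ 1 mod z^p`
(`(x + y)^p = x^p + y^p` when `p = 0`: `add_pow_char`-type, `CharP` is not available if `K` is trivial or not reduced:
use `ExpChar`/`CharP K p` from `p = 0` when `K` is nontrivial; the trivial ring is clear).
So `Q^N r ≡ r^(2N) r = r^p ≡ 1 mod z^p`; the coefficient of `z^(p-1)` gives `[z^(p-1)](Q^N u') + s [Q^N]_0 = 0`, i.e.
`s = - [z^(p-1)](Q^N u')`. `Q^N = ∑_n h_n u^n` with `h_n = [t^n](1 + a t^4 + b t^6)^N`. For `n + 1` prime to `p`,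
`u^n u' = (u^(n+1))'/(n+1)` has coefficient `p [z^p](...)/(n+1) = 0` at `z^(p-1)` (`n+1` is invertible in `K`, or multiply:
`(n+1) [z^(p-1)](u^n u') = 0` and `n + 1` is a unit modulo `p`). For `n = p - 1` the coefficient is `1`. For `n ≥ p` it is
`0` (order). So `s = - h_(p-1)`. Finally `h_(p-1) = Hasse p a b`: `t^(6N) (x^3 + a x + b)^N` at `x = t^(-2)` is
`(1 + a t^4 + b t^6)^N`, so `h_m = [x^(3N - m/2)]` for even `m`, and `3N - (p-1)/2 = 2N = p - 1` (expand both by the
binomial theorem: `∑ C(N,u) C(N-u,v) a^v b^(N-u-v)` over `u = v + 2w`, `w = N - u - v`).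
-/

set_option autoImplicit false

namespace Pool.Agent.SS

open Polynomial
open Pool.Agent.Work.CM (IsLat g2 g3 tauLat)
open scoped Pointwise MatrixGroups

theorem hasse_rev {K : Type*} [CommRing K] {p : ℕ} (hp : p.Prime) (h5 : 5 ≤ p) (a b : K) :
    ((1 + C a * X ^ 4 + C b * X ^ 6 : K[X]) ^ ((p - 1) / 2)).coeff (p - 1) = Hasse p a b := by
  obtain ⟨N, hN⟩ : ∃ N, p = 2 * N + 1 := hp.odd_of_ne_two (by omega)
  have e1 : (p - 1) / 2 = N := by omega
  have e2 : p - 1 = 2 * N := by omega
  rw [Hasse, e1, e2]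
  -- the reversed polynomial
  have h1 : (1 + C a * X ^ 4 + C b * X ^ 6 : K[X]) = expand K 2 (1 + C a * X ^ 2 + C b * X ^ 3) := by
    simp only [map_add, map_mul, map_one, map_pow, expand_C, expand_X]
    ring
  rw [h1, ← map_pow, coeff_expand_mul' (by norm_num)]
  have h2 : (1 + C a * X ^ 2 + C b * X ^ 3 : K[X]) = reflect 3 (X ^ 3 + C a * X + C b) := by
    have h3 : reflect 3 (C a * X : K[X]) = C a * X ^ 2 := by
      have := reflect_C_mul_X_pow 3 1 (c := a)
      rw [pow_one, revAt_le (by norm_num)] at this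
      exact this
    rw [reflect_add, reflect_add, reflect_monomial, h3, reflect_C, revAt_le le_rfl]
    simp
  have hdeg : (X ^ 3 + C a * X + C b : K[X]).natDegree ≤ 3 := by
    refine natDegree_add_le_of_degree_le (natDegree_add_le_of_degree_le (natDegree_X_pow_le 3) ?_) ?_
    · refine (natDegree_C_mul_X_pow_le a 1 |> fun h => ?_)
      rw [pow_one] at h
      exact h.trans (by norm_num)
    · rw [natDegree_C]
      norm_num
  have h4 : ∀ f : K[X], f.natDegree ≤ 3 → ∀ M : ℕ, reflect (3 * M) (f ^ M) = (reflect 3 f) ^ M := by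
    intro f hf M
    induction M with
    | zero => simp
    | succ M ih =>
      rw [pow_succ, pow_succ, ← ih, mul_add, mul_one]
      refine reflect_mul _ _ ?_ hf
      refine (natDegree_pow_le).trans ?_
      rw [mul_comm]
      exact Nat.mul_le_mul_right _ hf
  rw [h2, ← h4 _ hdeg, coeff_reflect, revAt_le (by omega)]
  congr 1
  omega

theorem car_congr {K : Type*} [CommRing K] {p : ℕ} (hp : p.Prime) (h5 : 5 ≤ p) (hK : (p : K) = 0)
    {a b s : K} {u : PowerSeries K} (h0 : PowerSeries.coeff 0 u = 0)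
    (h1 : PowerSeries.coeff 1 u = 1)
    (h : ∀ n < p, PowerSeries.coeff n
      ((PowerSeries.derivative K u + PowerSeries.C s * PowerSeries.X ^ (p - 1)) ^ 2) =
      PowerSeries.coeff n (1 + PowerSeries.C a * u ^ 4 + PowerSeries.C b * u ^ 6)) :
    s = -Hasse p a b := by
  obtain ⟨N, hN⟩ : ∃ N, p = 2 * N + 1 := hp.odd_of_ne_two (by omega)
  have hN1 : 1 ≤ N := by omega
  have e2 : p - 1 = 2 * N := by omega
  set u' : PowerSeries K := PowerSeries.derivative K u with hu'
  set r : PowerSeries K := u' + PowerSeries.C s * PowerSeries.X ^ (p - 1) with hr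
  set Q : PowerSeries K := 1 + PowerSeries.C a * u ^ 4 + PowerSeries.C b * u ^ 6 with hQ
  have hKp : (p : PowerSeries K) = 0 := by
    rw [← map_natCast (PowerSeries.C : K →+* PowerSeries K), hK, map_zero]
  -- constant terms
  have hu'0 : PowerSeries.constantCoeff u' = 1 := by
    rw [← PowerSeries.coeff_zero_eq_constantCoeff_apply, hu', PowerSeries.coeff_derivative]
    simp [h1]
  have hu0 : PowerSeries.constantCoeff u = 0 := by
    rw [← PowerSeries.coeff_zero_eq_constantCoeff_apply, h0]
  have hr0 : PowerSeries.constantCoeff r = 1 := by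
    rw [hr, map_add, map_mul, map_pow, hu'0, PowerSeries.constantCoeff_X, zero_pow (by omega),
      mul_zero, add_zero]
  have hQ0 : PowerSeries.constantCoeff Q = 1 := by
    rw [hQ]
    simp [hu0]
  -- `r ^ p = 1` modulo `X ^ p`
  have hA : (PowerSeries.X : PowerSeries K) ^ p ∣ r ^ p - 1 := by
    have h2 : (PowerSeries.X : PowerSeries K) ∣ r - 1 := by
      rw [PowerSeries.X_dvd_iff, map_sub, hr0, map_one, sub_self]
    obtain ⟨w, hw⟩ := h2
    have h3 : r = 1 + PowerSeries.X * w := by linear_combination hw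
    obtain ⟨c, hc⟩ := exists_add_pow_prime_eq hp 1 (PowerSeries.X * w)
    rw [← h3, hKp] at hc
    refine ⟨w ^ p, ?_⟩
    rw [hc, mul_pow]
    ring
  have hB : (PowerSeries.X : PowerSeries K) ^ p ∣ r ^ 2 - Q := by
    rw [PowerSeries.X_pow_dvd_iff]
    intro m hm
    rw [map_sub, h m hm, sub_self]
  have hC : (PowerSeries.X : PowerSeries K) ^ p ∣ Q ^ N * r - 1 := by
    have h2 : (PowerSeries.X : PowerSeries K) ^ p ∣ (r ^ 2) ^ N - Q ^ N :=
      hB.trans (sub_dvd_pow_sub_pow _ _ _)
    have h3 : Q ^ N * r - 1 = (r ^ p - 1) - ((r ^ 2) ^ N - Q ^ N) * r := by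
      rw [hN, pow_succ, pow_mul]
      ring
    rw [h3]
    exact dvd_sub hA (h2.mul_right _)
  have hD : PowerSeries.coeff (p - 1) (Q ^ N * u') + s = 0 := by
    have h2 := (PowerSeries.X_pow_dvd_iff.1 hC) (p - 1) (by omega)
    rw [map_sub, PowerSeries.coeff_one, if_neg (by omega), sub_zero, hr, mul_add, map_add] at h2
    have h3 : PowerSeries.coeff (p - 1) (Q ^ N * (PowerSeries.C s * PowerSeries.X ^ (p - 1))) = s := by
      have e : Q ^ N * (PowerSeries.C s * PowerSeries.X ^ (p - 1)) =
          (PowerSeries.C s * Q ^ N) * PowerSeries.X ^ (p - 1) := by ring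
      have h4 := PowerSeries.coeff_mul_X_pow (PowerSeries.C s * Q ^ N) (p - 1) 0
      rw [zero_add] at h4
      rw [e, h4, PowerSeries.coeff_C_mul, PowerSeries.coeff_zero_eq_constantCoeff_apply, map_pow, hQ0,
        one_pow, mul_one]
    rw [h3] at h2
    exact h2
  -- the coefficients of `u ^ n * u'`
  have hE : ∀ n : ℕ, PowerSeries.coeff (p - 1) (u ^ n * u') = if n = p - 1 then 1 else 0 := by
    intro n
    obtain ⟨v, hv⟩ : (PowerSeries.X : PowerSeries K) ∣ u := by
      rw [PowerSeries.X_dvd_iff, hu0]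
    have hv0 : PowerSeries.constantCoeff v = 1 := by
      have h2 := PowerSeries.coeff_succ_X_mul 0 v
      rw [← hv, zero_add, h1, PowerSeries.coeff_zero_eq_constantCoeff_apply] at h2
      exact h2.symm
    rcases lt_trichotomy n (p - 1) with hn | hn | hn
    · rw [if_neg hn.ne]
      have h2 : PowerSeries.derivative K (u ^ (n + 1)) = ((n + 1 : ℕ) : PowerSeries K) * (u ^ n * u') := by
        rw [Derivation.leibniz_pow, Nat.add_sub_cancel, smul_eq_mul, nsmul_eq_mul]
      have h3 := congrArg (PowerSeries.coeff (p - 1)) h2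
      rw [PowerSeries.coeff_derivative] at h3
      have e3 : ((p - 1 : ℕ) : K) + 1 = 0 := by
        rw [← hK]
        have : ((p - 1 + 1 : ℕ) : K) = (p : K) := by rw [Nat.sub_add_cancel hp.one_le]
        rw [← this]
        push_cast
        ring
      have e4 : PowerSeries.coeff (p - 1) (((n + 1 : ℕ) : PowerSeries K) * (u ^ n * u')) =
          ((n + 1 : ℕ) : K) * PowerSeries.coeff (p - 1) (u ^ n * u') := by
        rw [← map_natCast (PowerSeries.C : K →+* PowerSeries K), PowerSeries.coeff_C_mul]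
      rw [e3, mul_zero, e4] at h3
      have h4 : Nat.Coprime (n + 1) p := by
        rw [Nat.coprime_comm, Nat.Prime.coprime_iff_not_dvd hp]
        intro hd
        have := Nat.le_of_dvd (by omega) hd
        omega
      have h5 := Nat.gcd_eq_gcd_ab (n + 1) p
      rw [Nat.Coprime.gcd_eq_one h4] at h5
      have h6 := congrArg (fun z : ℤ => (z : K)) h5
      simp only [Nat.cast_one, Int.cast_one, Int.cast_add, Int.cast_mul, Int.cast_natCast, hK, zero_mul,
        add_zero] at h6
      have h7 : PowerSeries.coeff (p - 1) (u ^ n * u') =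
          1 * PowerSeries.coeff (p - 1) (u ^ n * u') := (one_mul _).symm
      rw [h7, h6, mul_comm ((n + 1 : ℕ) : K), mul_assoc, ← h3, mul_zero]
    · rw [if_pos hn, hn]
      have e : u ^ (p - 1) * u' = (v ^ (p - 1) * u') * PowerSeries.X ^ (p - 1) := by
        conv_lhs => rw [hv]
        ring
      have h4 := PowerSeries.coeff_mul_X_pow (v ^ (p - 1) * u') (p - 1) 0
      rw [zero_add] at h4
      rw [e, h4, PowerSeries.coeff_zero_eq_constantCoeff_apply, map_mul, map_pow, hv0, hu'0, one_pow,
        one_mul]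
    · rw [if_neg hn.ne']
      have h4 : (PowerSeries.X : PowerSeries K) ^ n ∣ u ^ n * u' := by
        refine Dvd.dvd.mul_right ?_ _
        rw [hv, mul_pow]
        exact dvd_mul_right _ _
      exact (PowerSeries.X_pow_dvd_iff.1 h4) (p - 1) hn
  -- expansion of `Q ^ N`
  set P : K[X] := (1 + C a * X ^ 4 + C b * X ^ 6) ^ N with hP
  have hF : Q ^ N = aeval u P := by
    rw [hP, hQ]
    simp only [map_add, map_mul, map_pow, map_one, aeval_C, aeval_X]
    rfl
  have hG : PowerSeries.coeff (p - 1) (Q ^ N * u') = P.coeff (p - 1) := by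
    rw [hF, aeval_eq_sum_range, Finset.sum_mul, map_sum]
    have h2 : ∀ i ∈ Finset.range (P.natDegree + 1),
        PowerSeries.coeff (p - 1) (P.coeff i • u ^ i * u') = if i = p - 1 then P.coeff i else 0 := by
      intro i _
      rw [smul_mul_assoc, map_smul, hE, smul_eq_mul]
      split_ifs
      · rw [mul_one]
      · rw [mul_zero]
    rw [Finset.sum_congr rfl h2, Finset.sum_ite_eq']
    split_ifs with h3
    · rfl
    · rw [Finset.mem_range] at h3
      exact (coeff_eq_zero_of_natDegree_lt (by omega)).symm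
  have hH : P.coeff (p - 1) = Hasse p a b := by
    have h2 := hasse_rev hp h5 a b
    rw [show (p - 1) / 2 = N by omega] at h2
    exact h2
  rw [hG, hH] at hD
  exact eq_neg_of_add_eq_zero_right hD

end Pool.Agent.SS
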