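import Pool.Agent.Work.MP_a5099b_nt.C.QInt
import Pool.Agent.Work.MP_a5099b_nt.C.QCar
import Pool.Agent.Work.MP_a5099b_nt.C.EHas

/-!
# Module C.QAlg (S-M)

The coefficient `t_p` and the coefficient `p - 1` of `X = z^2/t^2`.

`τ = ∑_{n<p} t_n z^n ∈ Λ[z]`, `t ≡ τ + t_p z^p mod z^(p+1)`, `t' ≡ τ' + p t_p z^(p-1) mod z^p`. By `IsTs.first`,
`(τ' + p t_p z^(p-1))^2 ≡ 1 + a τ^4 + b τ^6 mod z^p` in `Λ[[z]]`. Reduce modulo the ideal `pΛ` (quotient ring `K = Λ/pΛ`) and
apply `car_congr` with `u = τ̄`, `s` the class of `p t_p` (`ts_int`): `p t_p + Hasse p a b ∈ pΛ` (`Hasse` commutes with ring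
homomorphisms). Second statement: with `t = z V`, `V = 1 + v_1 z + ...`, `v_n = t_(n+1)`, `V^2 X = 1`. By induction
`x_n ∈ Λ` for `n < p - 1`, and the coefficient of `z^(p-1)`: `x_(p-1) + 2 v_(p-1) + (terms in Λ) = 0`, so
`p x_(p-1) = -2 p t_p + p μ = 2 Hasse + p(...)`.
-/

set_option autoImplicit false

namespace Pool.Agent.SS

open Polynomial
open Pool.Agent.Work.CM (IsLat g2 g3 tauLat)
open scoped Pointwise MatrixGroups

section aux

variable {B : Type*} [CommRing B]

private theorem qa_dmap {B' : Type*} [CommRing B'] (f : B →+* B') (φ : PowerSeries B) :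
    PowerSeries.derivative B' (PowerSeries.map f φ) =
      PowerSeries.map f (PowerSeries.derivative B φ) := by
  ext n
  rw [PowerSeries.coeff_derivative, PowerSeries.coeff_map, PowerSeries.coeff_map,
    PowerSeries.coeff_derivative, map_mul]
  simp

/-- the congruence in the quotient ring -/
private theorem qa_id {Q : Type*} [CommRing Q] {x e ν ξ N M : Q} (h1 : e * x = 0) (h2 : e * e = 0)
    (h3 : ν = 1 + x * N) (h4 : ξ = 1 + x * M) (h5 : ν ^ 2 * ξ = 1) :
    (ν + e) ^ 2 * (ξ * (1 - 2 * e)) = 1 := by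
  have hν : e * ν = e := by
    rw [h3]
    linear_combination N * h1
  have hξ : e * ξ = e := by
    rw [h4]
    linear_combination M * h1
  linear_combination (1 - 2 * e) * h5 + 2 * ξ * (1 - 2 * e) * hν + 2 * (1 - 2 * e) * hξ +
    (ξ * (1 - 2 * e) - 4) * h2

private theorem qa_dvd {φ ψ : PowerSeries B} {p : ℕ}
    (h : ∀ m < p, PowerSeries.coeff m φ = PowerSeries.coeff m ψ) :
    (PowerSeries.X : PowerSeries B) ^ p ∣ φ - ψ := by
  rw [PowerSeries.X_pow_dvd_iff]
  intro m hm
  rw [map_sub, h m hm, sub_self]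

private theorem qa_coeff {φ ψ : PowerSeries B} {p : ℕ}
    (h : (PowerSeries.X : PowerSeries B) ^ p ∣ φ - ψ) {m : ℕ} (hm : m < p) :
    PowerSeries.coeff m φ = PowerSeries.coeff m ψ := by
  rw [PowerSeries.X_pow_dvd_iff] at h
  have h1 := h m hm
  rw [map_sub, sub_eq_zero] at h1
  exact h1

/-- `t = X V` -/
private theorem qa_V {a b : B} {t : PowerSeries B} (ht : IsTs a b t) :
    ∃ V : PowerSeries B, t = PowerSeries.X * V ∧ PowerSeries.constantCoeff V = 1 ∧
      ∀ n, PowerSeries.coeff n V = PowerSeries.coeff (n + 1) t := by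
  have h0 : PowerSeries.constantCoeff t = 0 := by
    rw [← PowerSeries.coeff_zero_eq_constantCoeff_apply]
    exact ht.c0
  obtain ⟨V, hV⟩ := PowerSeries.X_dvd_iff.2 h0
  have h1 : ∀ n, PowerSeries.coeff n V = PowerSeries.coeff (n + 1) t := by
    intro n
    rw [hV, PowerSeries.coeff_succ_X_mul]
  refine ⟨V, hV, ?_, h1⟩
  rw [← PowerSeries.coeff_zero_eq_constantCoeff_apply, h1]
  exact ht.c1

end aux

theorem ts_hasse {B : Type*} [CommRing B] [Algebra ℚ B] (Λ : Subring B) {p : ℕ} (hp : p.Prime)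
    (h5 : 5 ≤ p) (hΛ : ∀ n : ℕ, 0 < n → n < p → algebraMap ℚ B ((n : ℚ)⁻¹) ∈ Λ) {a b : B}
    (ha : a ∈ Λ) (hb : b ∈ Λ) {t : PowerSeries B} (ht : IsTs a b t) :
    ∃ c ∈ Λ, (p : B) * PowerSeries.coeff p t = -Hasse p a b + p * c := by
  classical
  obtain ⟨hint, hpt⟩ := ts_int Λ hp h5 hΛ ha hb ht
  let aΛ : Λ := ⟨a, ha⟩
  let bΛ : Λ := ⟨b, hb⟩
  let σ : Λ := ⟨(p : B) * PowerSeries.coeff p t, hpt⟩
  let τ : PowerSeries Λ := PowerSeries.mk fun n =>
    if h : n < p then ⟨PowerSeries.coeff n t, hint n h⟩ else 0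
  have hτ : ∀ n < p, PowerSeries.coeff n (PowerSeries.map Λ.subtype τ) =
      PowerSeries.coeff n t := by
    intro n hn
    rw [PowerSeries.coeff_map, PowerSeries.coeff_mk, dif_pos hn]
    rfl
  have hτp : PowerSeries.coeff p (PowerSeries.map Λ.subtype τ) = 0 := by
    rw [PowerSeries.coeff_map, PowerSeries.coeff_mk, dif_neg (lt_irrefl p), map_zero]
  have hp1 : p - 1 + 1 = p := by omega
  -- the derivative of `t`
  have hD : (PowerSeries.X : PowerSeries B) ^ p ∣
      (PowerSeries.derivative B (PowerSeries.map Λ.subtype τ) +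
        PowerSeries.C ((p : B) * PowerSeries.coeff p t) * PowerSeries.X ^ (p - 1)) -
      PowerSeries.derivative B t := by
    refine qa_dvd fun m hm => ?_
    rw [map_add, PowerSeries.coeff_derivative, PowerSeries.coeff_derivative,
      PowerSeries.coeff_C_mul_X_pow]
    by_cases h : m = p - 1
    · have h1 : m + 1 = p := by omega
      rw [if_pos h, h1, hτp, zero_mul, zero_add]
      have h2 : ((m : ℕ) : B) + 1 = (p : B) := by
        rw [← h1]
        push_cast
        ring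
      rw [h2, mul_comm]
    · rw [if_neg h, add_zero, hτ (m + 1) (by omega)]
  have hE : (PowerSeries.X : PowerSeries B) ^ p ∣ PowerSeries.map Λ.subtype τ - t := qa_dvd hτ
  have hF : (PowerSeries.X : PowerSeries B) ^ p ∣
      (PowerSeries.derivative B (PowerSeries.map Λ.subtype τ) +
        PowerSeries.C ((p : B) * PowerSeries.coeff p t) * PowerSeries.X ^ (p - 1)) ^ 2 -
      (1 + PowerSeries.C a * (PowerSeries.map Λ.subtype τ) ^ 4 +
        PowerSeries.C b * (PowerSeries.map Λ.subtype τ) ^ 6) := by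
    have h1 := hD.trans (sub_dvd_pow_sub_pow _ _ 2)
    have h2 := hE.trans (sub_dvd_pow_sub_pow _ _ 4)
    have h3 := hE.trans (sub_dvd_pow_sub_pow _ _ 6)
    have h4 := ht.first
    have h6 := dvd_sub (dvd_sub h1 (h2.mul_left (PowerSeries.C a))) (h3.mul_left (PowerSeries.C b))
    rw [h4] at h6
    convert h6 using 1
    ring
  let I : Ideal Λ := Ideal.span {(p : Λ)}
  let π : Λ →+* Λ ⧸ I := Ideal.Quotient.mk I
  have hK : ((p : ℕ) : Λ ⧸ I) = 0 := by
    rw [← map_natCast π]
    exact Ideal.Quotient.eq_zero_iff_mem.2 (Ideal.mem_span_singleton_self _)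
  have key := car_congr (K := Λ ⧸ I) hp h5 hK (a := π aΛ) (b := π bΛ) (s := π σ)
    (u := PowerSeries.map π τ) (by
      rw [PowerSeries.coeff_map, PowerSeries.coeff_mk, dif_pos hp.pos]
      have h1 : (⟨PowerSeries.coeff 0 t, hint 0 hp.pos⟩ : Λ) = 0 := Subtype.ext ht.c0
      rw [h1, map_zero]) (by
      rw [PowerSeries.coeff_map, PowerSeries.coeff_mk, dif_pos hp.one_lt]
      have h1 : (⟨PowerSeries.coeff 1 t, hint 1 hp.one_lt⟩ : Λ) = 1 := Subtype.ext ht.c1
      rw [h1, map_one]) (by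
      intro n hn
      have h1 : PowerSeries.coeff n ((PowerSeries.derivative Λ τ + PowerSeries.C σ *
          PowerSeries.X ^ (p - 1)) ^ 2) = PowerSeries.coeff n
          (1 + PowerSeries.C aΛ * τ ^ 4 + PowerSeries.C bΛ * τ ^ 6) := by
        apply Subtype.val_injective
        have h2 := qa_coeff hF hn
        have hσ : (p : B) * PowerSeries.coeff p t = Λ.subtype σ := rfl
        rw [qa_dmap, hσ] at h2
        have e1 : (PowerSeries.map Λ.subtype (PowerSeries.derivative Λ τ) +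
            PowerSeries.C (Λ.subtype σ) * PowerSeries.X ^ (p - 1)) ^ 2 =
            PowerSeries.map Λ.subtype ((PowerSeries.derivative Λ τ + PowerSeries.C σ *
              PowerSeries.X ^ (p - 1)) ^ 2) := by
          simp only [map_pow, map_add, map_mul, PowerSeries.map_C, PowerSeries.map_X]
        have e2 : 1 + PowerSeries.C a * (PowerSeries.map Λ.subtype τ) ^ 4 +
            PowerSeries.C b * (PowerSeries.map Λ.subtype τ) ^ 6 =
            PowerSeries.map Λ.subtype
              (1 + PowerSeries.C aΛ * τ ^ 4 + PowerSeries.C bΛ * τ ^ 6) := by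
          simp only [map_pow, map_add, map_mul, map_one, PowerSeries.map_C]
          rfl
        rw [e1, e2, PowerSeries.coeff_map, PowerSeries.coeff_map] at h2
        exact h2
      have h3 := congrArg π h1
      rw [← PowerSeries.coeff_map, ← PowerSeries.coeff_map] at h3
      simp only [map_pow, map_add, map_mul, map_one, PowerSeries.map_C, PowerSeries.map_X] at h3
      rw [← qa_dmap] at h3
      exact h3)
  rw [Hasse_map, ← map_neg, Ideal.Quotient.eq, Ideal.mem_span_singleton] at key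
  obtain ⟨c, hc⟩ := key
  refine ⟨c, c.2, ?_⟩
  have h1 := congrArg Λ.subtype hc
  rw [map_sub, map_mul, map_neg, ← Hasse_map, map_natCast] at h1
  have h2 : (p : B) * PowerSeries.coeff p t - -Hasse p a b = p * (c : B) := h1
  linear_combination h2

theorem xs_hasse {B : Type*} [CommRing B] [Algebra ℚ B] (Λ : Subring B) {p : ℕ} (hp : p.Prime)
    (h5 : 5 ≤ p) (hΛ : ∀ n : ℕ, 0 < n → n < p → algebraMap ℚ B ((n : ℚ)⁻¹) ∈ Λ) {a b : B}
    (ha : a ∈ Λ) (hb : b ∈ Λ) {t x : PowerSeries B} (ht : IsTs a b t)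
    (hx : t ^ 2 * x = PowerSeries.X ^ 2) :
    ∃ c ∈ Λ, (p : B) * PowerSeries.coeff (p - 1) x = 2 * Hasse p a b + p * c := by
  classical
  obtain ⟨hint, -⟩ := ts_int Λ hp h5 hΛ ha hb ht
  obtain ⟨c, hc, hcp⟩ := ts_hasse Λ hp h5 hΛ ha hb ht
  obtain ⟨V, hV, hV0, hVn⟩ := qa_V ht
  have hp1 : p - 1 + 1 = p := by omega
  have hVx : V ^ 2 * x = 1 := by
    rw [hV, mul_pow, mul_assoc] at hx
    have h1 : (PowerSeries.X : PowerSeries B) ^ 2 * (V ^ 2 * x) = PowerSeries.X ^ 2 * 1 := by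
      rw [hx, mul_one]
    ext n
    have h2 := congrArg (PowerSeries.coeff (n + 2)) h1
    rw [PowerSeries.coeff_X_pow_mul, PowerSeries.coeff_X_pow_mul] at h2
    exact h2
  let ν : PowerSeries Λ := PowerSeries.mk fun n =>
    if h : n + 1 < p then ⟨PowerSeries.coeff (n + 1) t, hint (n + 1) h⟩ else 0
  have hν0 : PowerSeries.constantCoeff ν = 1 := by
    rw [← PowerSeries.coeff_zero_eq_constantCoeff_apply, PowerSeries.coeff_mk,
      dif_pos (by omega : 0 + 1 < p)]
    exact Subtype.ext ht.c1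
  obtain ⟨ξ, hξ⟩ : ∃ ξ : PowerSeries Λ, ν ^ 2 * ξ = 1 := by
    have h1 : IsUnit (ν ^ 2) := by
      rw [PowerSeries.isUnit_iff_constantCoeff, map_pow, hν0, one_pow]
      exact isUnit_one
    obtain ⟨u, hu⟩ := h1
    exact ⟨((u⁻¹ : (PowerSeries Λ)ˣ) : PowerSeries Λ), by rw [← hu, Units.mul_inv]⟩
  have hξ0 : PowerSeries.constantCoeff ξ = 1 := by
    have h1 := congrArg PowerSeries.constantCoeff hξ
    rw [map_mul, map_pow, hν0, one_pow, one_mul, map_one] at h1
    exact h1
  let ν' : PowerSeries B := PowerSeries.map Λ.subtype ν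
  let ξ' : PowerSeries B := PowerSeries.map Λ.subtype ξ
  let E : PowerSeries B := PowerSeries.C (PowerSeries.coeff p t) * PowerSeries.X ^ (p - 1)
  have hνξ : ν' ^ 2 * ξ' = 1 := by
    have h1 := congrArg (PowerSeries.map Λ.subtype) hξ
    rw [map_mul, map_pow, map_one] at h1
    exact h1
  obtain ⟨N, hN⟩ : ∃ N : PowerSeries B, ν' = 1 + PowerSeries.X * N := by
    have h1 : (PowerSeries.X : PowerSeries B) ∣ ν' - 1 := by
      rw [PowerSeries.X_dvd_iff, map_sub, map_one]
      have h2 : PowerSeries.constantCoeff ν' = Λ.subtype (PowerSeries.constantCoeff ν) := by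
        rw [← PowerSeries.coeff_zero_eq_constantCoeff_apply, ←
          PowerSeries.coeff_zero_eq_constantCoeff_apply, PowerSeries.coeff_map]
      rw [h2, hν0, map_one, sub_self]
    obtain ⟨N, hN⟩ := h1
    exact ⟨N, by rw [← hN, add_sub_cancel]⟩
  obtain ⟨M, hM⟩ : ∃ M : PowerSeries B, ξ' = 1 + PowerSeries.X * M := by
    have h1 : (PowerSeries.X : PowerSeries B) ∣ ξ' - 1 := by
      rw [PowerSeries.X_dvd_iff, map_sub, map_one]
      have h2 : PowerSeries.constantCoeff ξ' = Λ.subtype (PowerSeries.constantCoeff ξ) := by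
        rw [← PowerSeries.coeff_zero_eq_constantCoeff_apply, ←
          PowerSeries.coeff_zero_eq_constantCoeff_apply, PowerSeries.coeff_map]
      rw [h2, hξ0, map_one, sub_self]
    obtain ⟨M, hM⟩ := h1
    exact ⟨M, by rw [← hM, add_sub_cancel]⟩
  -- `V` modulo `X ^ p`
  have hVν : (PowerSeries.X : PowerSeries B) ^ p ∣ V - (ν' + E) := by
    refine qa_dvd fun m hm => ?_
    rw [hVn, map_add, PowerSeries.coeff_C_mul_X_pow]
    by_cases h : m = p - 1
    · rw [if_pos h, PowerSeries.coeff_map, PowerSeries.coeff_mk, dif_neg (by omega), map_zero,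
        zero_add, h, hp1]
    · rw [if_neg h, add_zero, PowerSeries.coeff_map, PowerSeries.coeff_mk,
        dif_pos (by omega : m + 1 < p)]
      rfl
  let J : Ideal (PowerSeries B) := Ideal.span {(PowerSeries.X : PowerSeries B) ^ p}
  let θ : PowerSeries B →+* PowerSeries B ⧸ J := Ideal.Quotient.mk J
  have hEX : θ E * θ PowerSeries.X = 0 := by
    rw [← map_mul, Ideal.Quotient.eq_zero_iff_mem, Ideal.mem_span_singleton]
    refine ⟨PowerSeries.C (PowerSeries.coeff p t), ?_⟩
    show PowerSeries.C (PowerSeries.coeff p t) * PowerSeries.X ^ (p - 1) * PowerSeries.X = _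
    rw [mul_assoc, ← pow_succ, hp1, mul_comm]
  have hEE : θ E * θ E = 0 := by
    have h1 : E = PowerSeries.X * (PowerSeries.C (PowerSeries.coeff p t) *
        PowerSeries.X ^ (p - 2)) := by
      show PowerSeries.C (PowerSeries.coeff p t) * PowerSeries.X ^ (p - 1) = _
      have h2 : p - 1 = (p - 2) + 1 := by omega
      rw [h2, pow_succ]
      ring
    calc θ E * θ E = θ E * θ (PowerSeries.X * (PowerSeries.C (PowerSeries.coeff p t) *
        PowerSeries.X ^ (p - 2))) := by rw [← h1]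
      _ = (θ E * θ PowerSeries.X) * θ (PowerSeries.C (PowerSeries.coeff p t) *
        PowerSeries.X ^ (p - 2)) := by rw [map_mul θ PowerSeries.X, mul_assoc]
      _ = 0 := by rw [hEX, zero_mul]
  have h1 : (θ ν' + θ E) ^ 2 * (θ ξ' * (1 - 2 * θ E)) = 1 := by
    refine qa_id hEX hEE (N := θ N) (M := θ M) ?_ ?_ ?_
    · rw [hN, map_add, map_one, map_mul]
    · rw [hM, map_add, map_one, map_mul]
    · rw [← map_pow, ← map_mul, hνξ, map_one]
  have h2 : θ V = θ ν' + θ E := by
    rw [← map_add, Ideal.Quotient.eq, Ideal.mem_span_singleton]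
    exact hVν
  have h3 : θ V ^ 2 * θ x = 1 := by
    rw [← map_pow, ← map_mul, hVx, map_one]
  have h4 : θ x = θ (ξ' * (1 - 2 * E)) := by
    have e1 : θ (ξ' * (1 - 2 * E)) = θ ξ' * (1 - 2 * θ E) := by
      rw [map_mul, map_sub, map_one, map_mul, map_ofNat]
    rw [e1]
    rw [← h2] at h1
    calc θ x = θ x * 1 := (mul_one _).symm
      _ = θ x * (θ V ^ 2 * (θ ξ' * (1 - 2 * θ E))) := by rw [h1]
      _ = (θ V ^ 2 * θ x) * (θ ξ' * (1 - 2 * θ E)) := by ring
      _ = θ ξ' * (1 - 2 * θ E) := by rw [h3, one_mul]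
  rw [Ideal.Quotient.eq, Ideal.mem_span_singleton] at h4
  have h6 := qa_coeff h4 (m := p - 1) (by omega)
  have h7 : PowerSeries.coeff (p - 1) (ξ' * (1 - 2 * E)) =
      PowerSeries.coeff (p - 1) ξ' - 2 * PowerSeries.coeff p t := by
    have e1 : ξ' * (1 - 2 * E) = ξ' - PowerSeries.C (2 * PowerSeries.coeff p t) *
        (ξ' * PowerSeries.X ^ (p - 1)) := by
      show ξ' * (1 - 2 * (PowerSeries.C (PowerSeries.coeff p t) * PowerSeries.X ^ (p - 1))) = _
      rw [map_mul, map_ofNat]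
      ring
    have e2 : PowerSeries.coeff (p - 1) (ξ' * PowerSeries.X ^ (p - 1)) = 1 := by
      have e3 := PowerSeries.coeff_mul_X_pow ξ' (p - 1) 0
      rw [zero_add] at e3
      rw [e3, PowerSeries.coeff_map, PowerSeries.coeff_zero_eq_constantCoeff_apply, hξ0, map_one]
    rw [e1, map_sub, PowerSeries.coeff_C_mul, e2, mul_one]
  rw [h7] at h6
  refine ⟨(PowerSeries.coeff (p - 1) ξ : Λ) - 2 * c, ?_, ?_⟩
  · exact Λ.sub_mem (PowerSeries.coeff (p - 1) ξ).2
      (Λ.mul_mem (ofNat_mem Λ 2) hc)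
  · have h8 : PowerSeries.coeff (p - 1) ξ' = ((PowerSeries.coeff (p - 1) ξ : Λ) : B) := rfl
    rw [h6, h8]
    linear_combination (-2 : B) * hcp

/-- existence of `x` -/
theorem exists_xs {B : Type*} [CommRing B] [Algebra ℚ B] {a b : B} {t : PowerSeries B}
    (ht : IsTs a b t) : ∃ x : PowerSeries B, t ^ 2 * x = PowerSeries.X ^ 2 := by
  obtain ⟨V, hV, hV0, -⟩ := qa_V ht
  have h1 : IsUnit (V ^ 2) := by
    rw [PowerSeries.isUnit_iff_constantCoeff, map_pow, hV0, one_pow]
    exact isUnit_one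
  obtain ⟨u, hu⟩ := h1
  refine ⟨((u⁻¹ : (PowerSeries B)ˣ) : PowerSeries B), ?_⟩
  rw [hV, mul_pow, ← hu, mul_assoc, Units.mul_inv, mul_one]

end Pool.Agent.SS
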