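import Pool.Agent.Work.MP_a5099b_nt.A.Defs

/-!
# Module C.QDefs ()

Definitions for C1 + C2 (`E_(p-1)` modulo `p`), no `sorry`: the ring `ℤ_(p)` as a subring of `ℂ`, its reduction
maps, the lattice function `E_k`, the universal series `t(z)` with `t'' = 2 a t^3 + 3 b t^5`.
-/

set_option autoImplicit false

namespace Pool.Agent.SS

open UpperHalfPlane Polynomial
open Pool.Agent.Work.CM (IsLat g2 g3 tauLat)
open scoped Pointwise MatrixGroups

noncomputable section

/-- The ring `ℤ_(p)` of the rational numbers with denominator prime to `p`, as a subring of `ℂ`. -/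
def Zp (p : ℕ) [hp : Fact p.Prime] : Subring ℂ where
  carrier := {z | ∃ a b : ℤ, ¬ (p : ℤ) ∣ b ∧ z * b = a}
  mul_mem' := by
    rintro x y ⟨a, b, hb, h⟩ ⟨c, d, hd, h'⟩
    refine ⟨a * c, b * d, ?_, ?_⟩
    · intro h2
      rcases (Nat.prime_iff_prime_int.1 hp.out).dvd_or_dvd h2 with h3 | h3
      · exact hb h3
      · exact hd h3
    · push_cast
      linear_combination (y * d) * h + a * h'
  one_mem' := ⟨1, 1, fun h => (Nat.prime_iff_prime_int.1 hp.out).not_isUnit
    (isUnit_of_dvd_one h), by simp⟩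
  add_mem' := by
    rintro x y ⟨a, b, hb, h⟩ ⟨c, d, hd, h'⟩
    refine ⟨a * d + b * c, b * d, ?_, ?_⟩
    · intro h2
      rcases (Nat.prime_iff_prime_int.1 hp.out).dvd_or_dvd h2 with h3 | h3
      · exact hb h3
      · exact hd h3
    · push_cast
      linear_combination (d : ℂ) * h + b * h'
  zero_mem' := ⟨0, 1, fun h => (Nat.prime_iff_prime_int.1 hp.out).not_isUnit
    (isUnit_of_dvd_one h), by simp⟩
  neg_mem' := by
    rintro x ⟨a, b, hb, h⟩
    exact ⟨-a, b, hb, by push_cast; linear_combination -h⟩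

section Red

variable (p : ℕ) [hp : Fact p.Prime] (k : Type*) [Field k] [CharP k p]

theorem Zp_cast_ne {b : ℤ} (hb : ¬ (p : ℤ) ∣ b) : (b : k) ≠ 0 := fun h =>
  hb ((CharP.intCast_eq_zero_iff k p b).1 h)

/-- the value of the reduction map -/
def zpFun (z : Zp p) : k := (z.2.choose : k) / (z.2.choose_spec.choose : k)

theorem zpFun_eq {z : Zp p} {a b : ℤ} (hb : ¬ (p : ℤ) ∣ b) (h : (z : ℂ) * b = a) :
    zpFun p k z = (a : k) / (b : k) := by
  have h1 := z.2.choose_spec.choose_spec
  set c : ℤ := z.2.choose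
  set d : ℤ := z.2.choose_spec.choose
  have h2 : ((a * d : ℤ) : ℂ) = ((c * b : ℤ) : ℂ) := by
    push_cast
    linear_combination (b : ℂ) * h1.2 - d * h
  have h3 : a * d = c * b := by exact_mod_cast h2
  have hd := Zp_cast_ne p k h1.1
  have hb' := Zp_cast_ne p k hb
  change (c : k) / (d : k) = _
  rw [div_eq_div_iff hd hb']
  exact_mod_cast congrArg (fun n : ℤ => (n : k)) h3.symm

/-- The reduction map `ℤ_(p) → k`, `k` a field of characteristic `p`. -/
def zpHom : Zp p →+* k where
  toFun := zpFun p k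
  map_one' := by
    rw [zpFun_eq p k (a := 1) (b := 1) (fun h => (Nat.prime_iff_prime_int.1 hp.out).not_isUnit
      (isUnit_of_dvd_one h)) (by simp)]
    simp
  map_zero' := by
    rw [zpFun_eq p k (a := 0) (b := 1) (fun h => (Nat.prime_iff_prime_int.1 hp.out).not_isUnit
      (isUnit_of_dvd_one h)) (by simp)]
    simp
  map_mul' x y := by
    obtain ⟨a, b, hb, h⟩ := x.2
    obtain ⟨c, d, hd, h'⟩ := y.2
    have hbd : ¬ (p : ℤ) ∣ b * d := by
      intro h2
      rcases (Nat.prime_iff_prime_int.1 hp.out).dvd_or_dvd h2 with h3 | h3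
      · exact hb h3
      · exact hd h3
    rw [zpFun_eq p k hb h, zpFun_eq p k hd h', zpFun_eq p k (a := a * c) (b := b * d) hbd (by
      push_cast
      linear_combination ((y : ℂ) * d) * h + a * h')]
    have h1 := Zp_cast_ne p k hb
    have h2 := Zp_cast_ne p k hd
    push_cast
    field_simp
  map_add' x y := by
    obtain ⟨a, b, hb, h⟩ := x.2
    obtain ⟨c, d, hd, h'⟩ := y.2
    have hbd : ¬ (p : ℤ) ∣ b * d := by
      intro h2
      rcases (Nat.prime_iff_prime_int.1 hp.out).dvd_or_dvd h2 with h3 | h3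
      · exact hb h3
      · exact hd h3
    rw [zpFun_eq p k hb h, zpFun_eq p k hd h', zpFun_eq p k (a := a * d + b * c) (b := b * d) hbd
      (by
        push_cast
        linear_combination (d : ℂ) * h + b * h')]
    have h1 := Zp_cast_ne p k hb
    have h2 := Zp_cast_ne p k hd
    push_cast
    field_simp

end Red

/-- `E_k` of a lattice, normalised by `ekL k (ℤτ + ℤ) = E_k(τ)`. -/
def ekL (k : ℕ) (L : Submodule ℤ ℂ) : ℂ := (2 * riemannZeta k)⁻¹ * ∑' l : L, ((l : ℂ) ^ k)⁻¹

/-- `t` is the series `z + ...` with `t'' = 2 a t^3 + 3 b t^5`. -/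
structure IsTs {B : Type*} [CommRing B] (a b : B) (t : PowerSeries B) : Prop where
  c0 : PowerSeries.coeff 0 t = 0
  c1 : PowerSeries.coeff 1 t = 1
  ode : PowerSeries.derivative B (PowerSeries.derivative B t) =
    PowerSeries.C (2 * a) * t ^ 3 + PowerSeries.C (3 * b) * t ^ 5

end

end Pool.Agent.SS
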