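import Pool.Agent.Work.MP_a5099b_nt.C.QTs

/-!
# Module C.QInt (S-M)

Integrality of the lower coefficients. `Λ` is a subring of the `ℚ`-algebra `B` containing `a, b` and the
inverses of `1, ..., p-1`. By the recursion `(n+2)(n+1) t_(n+2) = [z^n](2 a t^3 + 3 b t^5)` and strong induction all
`t_n` with `n < p` lie in `Λ`, and `(p - 1) p t_p = [z^(p-2)](...) ∈ Λ`, so `p t_p ∈ Λ`.
-/

set_option autoImplicit false

namespace Pool.Agent.SS

open Polynomial
open Pool.Agent.Work.CM (IsLat g2 g3 tauLat)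
open scoped Pointwise MatrixGroups

private theorem rhs_mem {B : Type*} [CommRing B] (Λ : Subring B) {α β : B} (hα : α ∈ Λ)
    (hβ : β ∈ Λ) {t : PowerSeries B} {n : ℕ} (h : ∀ i ≤ n, PowerSeries.coeff i t ∈ Λ) :
    PowerSeries.coeff n (PowerSeries.C α * t ^ 3 + PowerSeries.C β * t ^ 5) ∈ Λ := by
  classical
  let T : PowerSeries Λ := PowerSeries.mk fun i =>
    if hi : i ≤ n then ⟨PowerSeries.coeff i t, h i hi⟩ else 0
  have h1 : PowerSeries.X ^ (n + 1) ∣ t - PowerSeries.map Λ.subtype T := by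
    rw [PowerSeries.X_pow_dvd_iff]
    intro m hm
    rw [map_sub, PowerSeries.coeff_map, PowerSeries.coeff_mk, dif_pos (by omega)]
    exact sub_self _
  have h2 : PowerSeries.X ^ (n + 1) ∣ (PowerSeries.C α * t ^ 3 + PowerSeries.C β * t ^ 5) -
      (PowerSeries.C α * (PowerSeries.map Λ.subtype T) ^ 3 +
        PowerSeries.C β * (PowerSeries.map Λ.subtype T) ^ 5) := by
    have e : (PowerSeries.C α * t ^ 3 + PowerSeries.C β * t ^ 5) -
      (PowerSeries.C α * (PowerSeries.map Λ.subtype T) ^ 3 +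
        PowerSeries.C β * (PowerSeries.map Λ.subtype T) ^ 5) =
        PowerSeries.C α * (t ^ 3 - (PowerSeries.map Λ.subtype T) ^ 3) +
        PowerSeries.C β * (t ^ 5 - (PowerSeries.map Λ.subtype T) ^ 5) := by
      ring
    rw [e]
    exact dvd_add ((h1.trans (sub_dvd_pow_sub_pow _ _ 3)).mul_left _)
      ((h1.trans (sub_dvd_pow_sub_pow _ _ 5)).mul_left _)
  have h3 := (PowerSeries.X_pow_dvd_iff.1 h2) n (by omega)
  rw [map_sub, sub_eq_zero] at h3
  rw [h3]
  have h4 : PowerSeries.C α * (PowerSeries.map Λ.subtype T) ^ 3 +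
      PowerSeries.C β * (PowerSeries.map Λ.subtype T) ^ 5 =
      PowerSeries.map Λ.subtype (PowerSeries.C (⟨α, hα⟩ : Λ) * T ^ 3 + PowerSeries.C (⟨β, hβ⟩ : Λ) * T ^ 5) := by
    simp only [map_add, map_mul, map_pow, PowerSeries.map_C]
    rfl
  rw [h4, PowerSeries.coeff_map]
  exact (PowerSeries.coeff n (PowerSeries.C (⟨α, hα⟩ : Λ) * T ^ 3 + PowerSeries.C (⟨β, hβ⟩ : Λ) * T ^ 5)).2

private theorem inv_one {B : Type*} [CommRing B] [Algebra ℚ B] {n : ℕ} (hn : 0 < n) :
    algebraMap ℚ B ((n : ℚ)⁻¹) * (n : B) = 1 := by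
  have h : (n : B) = algebraMap ℚ B (n : ℚ) := by rw [map_natCast]
  have hn' : (n : ℚ) ≠ 0 := by positivity
  rw [h, ← map_mul, inv_mul_cancel₀ hn', map_one]

theorem ts_int {B : Type*} [CommRing B] [Algebra ℚ B] (Λ : Subring B) {p : ℕ} (hp : p.Prime)
    (h5 : 5 ≤ p) (hΛ : ∀ n : ℕ, 0 < n → n < p → algebraMap ℚ B ((n : ℚ)⁻¹) ∈ Λ) {a b : B}
    (ha : a ∈ Λ) (hb : b ∈ Λ) {t : PowerSeries B} (ht : IsTs a b t) :
    (∀ n < p, PowerSeries.coeff n t ∈ Λ) ∧ (p : B) * PowerSeries.coeff p t ∈ Λ := by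
  have h2a : 2 * a ∈ Λ := Λ.mul_mem (ofNat_mem Λ 2) ha
  have h3b : 3 * b ∈ Λ := Λ.mul_mem (ofNat_mem Λ 3) hb
  have hode : ∀ n, PowerSeries.coeff (n + 2) t * (((n + 2 : ℕ) : B) * ((n + 1 : ℕ) : B)) =
      PowerSeries.coeff n (PowerSeries.C (2 * a) * t ^ 3 + PowerSeries.C (3 * b) * t ^ 5) := by
    intro n
    rw [← ht.ode, PowerSeries.coeff_derivative, PowerSeries.coeff_derivative]
    push_cast
    ring
  have h1 : ∀ n < p, PowerSeries.coeff n t ∈ Λ := by
    intro n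
    induction n using Nat.strong_induction_on with
    | _ n ih =>
      intro hn
      rcases n with _ | _ | n
      · rw [ht.c0]
        exact Λ.zero_mem
      · rw [ht.c1]
        exact Λ.one_mem
      · have e := hode n
        have e1 := inv_one (B := B) (n := n + 2) (by omega)
        have e2 := inv_one (B := B) (n := n + 1) (by omega)
        have e3 : PowerSeries.coeff (n + 2) t =
            algebraMap ℚ B (((n + 2 : ℕ) : ℚ)⁻¹) * algebraMap ℚ B (((n + 1 : ℕ) : ℚ)⁻¹) *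
            PowerSeries.coeff n (PowerSeries.C (2 * a) * t ^ 3 + PowerSeries.C (3 * b) * t ^ 5) := by
          rw [← e]
          linear_combination (-PowerSeries.coeff (n + 2) t) * e2 -
            PowerSeries.coeff (n + 2) t * (algebraMap ℚ B (((n + 1 : ℕ) : ℚ)⁻¹) * ((n + 1 : ℕ) : B))
              * e1
        rw [e3]
        exact Λ.mul_mem (Λ.mul_mem (hΛ _ (by omega) hn) (hΛ _ (by omega) (by omega)))
          (rhs_mem Λ h2a h3b fun i hi => ih i (by omega) (by omega))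
  refine ⟨h1, ?_⟩
  obtain ⟨m, rfl⟩ : ∃ m, p = m + 2 := ⟨p - 2, by omega⟩
  have e := hode m
  have e2 := inv_one (B := B) (n := m + 1) (by omega)
  have e3 : ((m + 2 : ℕ) : B) * PowerSeries.coeff (m + 2) t =
      algebraMap ℚ B (((m + 1 : ℕ) : ℚ)⁻¹) *
      PowerSeries.coeff m (PowerSeries.C (2 * a) * t ^ 3 + PowerSeries.C (3 * b) * t ^ 5) := by
    rw [← e]
    linear_combination (-((m + 2 : ℕ) : B) * PowerSeries.coeff (m + 2) t) * e2
  rw [e3]
  exact Λ.mul_mem (hΛ _ (by omega) (by omega))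
    (rhs_mem Λ h2a h3b fun i hi => h1 i (by omega))

end Pool.Agent.SS
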