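import Pool.Agent.Work.MP_a5099b_nt.C.QTs
import Pool.Agent.Work.CM.Bas
import Pool.Agent.Work.CM.Hom

/-!
# Module C.QLat (M)

The series of a lattice. `xL L = 1 + ∑_{k ≥ 3} (k - 1) G_k z^k`, `G_k = ∑' l^(-k)`, is the Taylor series of
`z^2 ℘(z)` at `0` (Mathlib: `PeriodPair.hasFPowerSeriesAt_weierstrassPExcept`,
`coeff_weierstrassPExceptSeries`, `sumInvPow_zero`, `weierstrassPExcept_def`: `℘(z) = z^(-2) + ℘Except(z)` near `0`;
library `CM.Bas`: `IsLat.exists_local`, `IsLat.ode`: `(℘')^2 = 4℘^3 - g2 ℘ - g3`).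
Near `0`, `z^2 ℘(z)` is analytic with value `1`; let `s(z)` be analytic with `s(z)^2 z^2℘(z) = 1`, `s(0) = 1`
(`s = exp(-1/2 log(z^2℘))`), `T(z) = z s(z)`: `T^2 ℘ = 1` for `z ≠ 0`. Then `2 T T' ℘ + T^2 ℘' = 0`, so `T' = -(1/2) ℘' T^3` and
`(T')^2 = (1/4)(4℘^3 - g2℘ - g3) T^6 = 1 - (g2/4) T^4 - (g3/4) T^6` for `z ≠ 0`, hence near `0`; differentiate and cancel
`T'` (`T'(0) = 1`): `T'' = 2aT^3 + 3bT^5`, `a = -g2/4`, `b = -g3/4`. The Taylor series of `T` satisfies `IsTs a b` and its
square times `xL L` is `z^2`; by uniqueness it is `t`. (A purely formal argument is also possible: differentiate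
the formal identity.) Taylor series of products and derivatives: `PowerSeries` and `iteratedDeriv`
(Leibniz), or `HasFPowerSeriesAt.mul`/`deriv`.
-/

set_option autoImplicit false

namespace Pool.Agent.SS

open Polynomial
open Pool.Agent.Work.CM (IsLat g2 g3 tauLat)
open scoped Pointwise MatrixGroups

section taylor

open Topology

/-- `φ` is the Taylor series of `f` at `0` -/
private structure HasT (f : ℂ → ℂ) (φ : PowerSeries ℂ) : Prop where
  an : AnalyticAt ℂ f 0
  co : ∀ n : ℕ, iteratedDeriv n f 0 = (n.factorial : ℂ) * PowerSeries.coeff n φ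

private theorem HasT.add {f g : ℂ → ℂ} {φ ψ : PowerSeries ℂ} (hf : HasT f φ) (hg : HasT g ψ) :
    HasT (fun z => f z + g z) (φ + ψ) := by
  refine ⟨hf.an.fun_add hg.an, fun n => ?_⟩
  rw [iteratedDeriv_fun_add hf.an.contDiffAt hg.an.contDiffAt, hf.co, hg.co, map_add]
  ring

private theorem HasT.mul {f g : ℂ → ℂ} {φ ψ : PowerSeries ℂ} (hf : HasT f φ) (hg : HasT g ψ) :
    HasT (fun z => f z * g z) (φ * ψ) := by
  refine ⟨hf.an.fun_mul hg.an, fun n => ?_⟩
  rw [iteratedDeriv_fun_mul hf.an.contDiffAt hg.an.contDiffAt, PowerSeries.coeff_mul,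
    Finset.Nat.sum_antidiagonal_eq_sum_range_succ_mk, Finset.mul_sum]
  refine Finset.sum_congr rfl fun i hi => ?_
  have hi' : i ≤ n := Nat.lt_succ_iff.1 (Finset.mem_range.1 hi)
  rw [hf.co, hg.co]
  have h := Nat.choose_mul_factorial_mul_factorial hi'
  have h4 : ((n.choose i : ℕ) : ℂ) * (i.factorial : ℂ) * ((n - i).factorial : ℂ) =
      (n.factorial : ℂ) := by exact_mod_cast h
  rw [← h4]
  ring

private theorem HasT.const (c : ℂ) : HasT (fun _ => c) (PowerSeries.C c) := by
  refine ⟨analyticAt_const, fun n => ?_⟩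
  rw [PowerSeries.coeff_C, iteratedDeriv_const]
  split_ifs with h
  · subst h
    simp
  · simp

private theorem HasT.id : HasT (fun z => z) PowerSeries.X := by
  refine ⟨analyticAt_id, fun n => ?_⟩
  rw [PowerSeries.coeff_X, iteratedDeriv_fun_id_zero]
  split_ifs with h
  · subst h
    simp
  · simp

private theorem HasT.pow {f : ℂ → ℂ} {φ : PowerSeries ℂ} (hf : HasT f φ) (n : ℕ) :
    HasT (fun z => f z ^ n) (φ ^ n) := by
  induction n with
  | zero =>
    have h := HasT.const 1
    rw [map_one] at h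
    simpa using h
  | succ n ih =>
    have h := ih.mul hf
    simpa [pow_succ] using h

private theorem HasT.eq_zero {f : ℂ → ℂ} {φ : PowerSeries ℂ} (hf : HasT f φ)
    (h : f =ᶠ[𝓝 0] fun _ => 0) : φ = 0 := by
  ext n
  have h1 := hf.co n
  rw [h.iteratedDeriv_eq, iteratedDeriv_const] at h1
  have h2 : (n.factorial : ℂ) ≠ 0 := by exact_mod_cast Nat.factorial_ne_zero n
  have h3 : (if n = 0 then (0 : ℂ) else 0) = 0 := by split_ifs <;> rfl
  rw [h3] at h1
  rw [map_zero]
  exact (mul_eq_zero.1 h1.symm).resolve_left h2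

private theorem HasT.deriv {f : ℂ → ℂ} {φ : PowerSeries ℂ} (hf : HasT f φ) :
    HasT (deriv f) (PowerSeries.derivative ℂ φ) := by
  refine ⟨hf.an.deriv, fun n => ?_⟩
  rw [← iteratedDeriv_succ', hf.co, PowerSeries.coeff_derivative, Nat.factorial_succ]
  push_cast
  ring

end taylor

/-- the first order equation has only one solution -/
private theorem ql_unique {g h : ℂ} {x y : PowerSeries ℂ} (hx0 : PowerSeries.coeff 0 x = 1)
    (hy0 : PowerSeries.coeff 0 y = 1)
    (hx : (PowerSeries.X * PowerSeries.derivative ℂ x - 2 * x) ^ 2 =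
      4 * x ^ 3 - PowerSeries.C g * PowerSeries.X ^ 4 * x - PowerSeries.C h * PowerSeries.X ^ 6)
    (hy : (PowerSeries.X * PowerSeries.derivative ℂ y - 2 * y) ^ 2 =
      4 * y ^ 3 - PowerSeries.C g * PowerSeries.X ^ 4 * y - PowerSeries.C h * PowerSeries.X ^ 6) :
    x = y := by
  have key : (PowerSeries.X * PowerSeries.derivative ℂ (x - y) - 2 * (x - y)) *
      (PowerSeries.X * (PowerSeries.derivative ℂ x + PowerSeries.derivative ℂ y) - 2 * (x + y)) =
      (4 * (x ^ 2 + x * y + y ^ 2) - PowerSeries.C g * PowerSeries.X ^ 4) * (x - y) := by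
    rw [map_sub]
    linear_combination hx - hy
  have c2 : ∀ (f : PowerSeries ℂ) (n : ℕ), PowerSeries.coeff n (2 * f) = 2 * PowerSeries.coeff n f := by
    intro f n
    have e : (2 : PowerSeries ℂ) = PowerSeries.C 2 := (map_ofNat _ 2).symm
    rw [e, PowerSeries.coeff_C_mul]
  have cX : ∀ (f : PowerSeries ℂ) (n : ℕ), PowerSeries.coeff n
      (PowerSeries.X * PowerSeries.derivative ℂ f) = n * PowerSeries.coeff n f := by
    intro f n
    cases n with
    | zero => simp
    | succ n =>
      rw [PowerSeries.coeff_succ_X_mul, PowerSeries.coeff_derivative]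
      push_cast
      ring
  have hP : PowerSeries.coeff 0 (PowerSeries.X * (PowerSeries.derivative ℂ x +
      PowerSeries.derivative ℂ y) - 2 * (x + y)) = -4 := by
    rw [map_sub, c2, map_add, hx0, hy0, PowerSeries.coeff_zero_X_mul]
    norm_num
  have hQ : PowerSeries.coeff 0 (4 * (x ^ 2 + x * y + y ^ 2) -
      PowerSeries.C g * PowerSeries.X ^ 4) = 12 := by
    rw [PowerSeries.coeff_zero_eq_constantCoeff_apply] at hx0 hy0 ⊢
    simp only [map_sub, map_mul, map_add, map_pow, hx0, hy0, PowerSeries.constantCoeff_X]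
    have e : PowerSeries.constantCoeff (4 : PowerSeries ℂ) = 4 := map_ofNat _ 4
    rw [e]
    norm_num
  have hd : ∀ n, PowerSeries.coeff n (x - y) = 0 := by
    intro n
    induction n using Nat.strong_induction_on with
    | _ n ih =>
      have h1 := congrArg (PowerSeries.coeff n) key
      rw [PowerSeries.coeff_mul, PowerSeries.coeff_mul] at h1
      rw [Finset.sum_eq_single (n, 0), Finset.sum_eq_single (0, n)] at h1
      · rw [hP, hQ, map_sub, cX, c2] at h1
        have h2 : (4 : ℂ) * ((n : ℂ) + 1) * PowerSeries.coeff n (x - y) = 0 := by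
          linear_combination -h1
        have h3 : (4 : ℂ) * ((n : ℂ) + 1) ≠ 0 := by
          refine mul_ne_zero (by norm_num) ?_
          exact_mod_cast Nat.succ_ne_zero n
        exact (mul_eq_zero.1 h2).resolve_left h3
      · rintro ⟨i, k⟩ hik hne
        have h2 := Finset.HasAntidiagonal.mem_antidiagonal.1 hik
        have h3 : k < n := by
          rcases Nat.lt_or_ge k n with h | h
          · exact h
          · exfalso
            apply hne
            have : i = 0 := by simp only at h2; omega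
            have : k = n := by simp only at h2; omega
            simp_all
        show _ * PowerSeries.coeff k (x - y) = 0
        rw [ih k h3, mul_zero]
      · intro h
        exact absurd (Finset.HasAntidiagonal.mem_antidiagonal.2 (zero_add n)) h
      · rintro ⟨i, k⟩ hik hne
        have h2 := Finset.HasAntidiagonal.mem_antidiagonal.1 hik
        have h3 : i < n := by
          rcases Nat.lt_or_ge i n with h | h
          · exact h
          · exfalso
            apply hne
            have : k = 0 := by simp only at h2; omega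
            have : i = n := by simp only at h2; omega
            simp_all
        show PowerSeries.coeff i _ * _ = 0
        rw [map_sub, cX, c2, ih i h3]
        ring
      · intro h
        exact absurd (Finset.HasAntidiagonal.mem_antidiagonal.2 (add_zero n)) h
  ext n
  have h1 := hd n
  rwa [map_sub, sub_eq_zero] at h1

/-- the series `z^2/t^2` -/
private theorem ql_inv {a b : ℂ} {t : PowerSeries ℂ} (ht : IsTs a b t) :
    ∃ y : PowerSeries ℂ, t ^ 2 * y = PowerSeries.X ^ 2 ∧ PowerSeries.coeff 0 y = 1 ∧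
      (PowerSeries.X * PowerSeries.derivative ℂ y - 2 * y) ^ 2 =
      4 * y ^ 3 + 4 * PowerSeries.C a * PowerSeries.X ^ 4 * y +
        4 * PowerSeries.C b * PowerSeries.X ^ 6 := by
  have h0 : PowerSeries.constantCoeff t = 0 := by
    rw [← PowerSeries.coeff_zero_eq_constantCoeff_apply]
    exact ht.c0
  obtain ⟨V, hV⟩ := PowerSeries.X_dvd_iff.2 h0
  have hV0 : PowerSeries.constantCoeff V = 1 := by
    rw [← PowerSeries.coeff_zero_eq_constantCoeff_apply, ← PowerSeries.coeff_succ_X_mul, ← hV]
    exact ht.c1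
  have hVu : IsUnit (V ^ 2) := by
    rw [PowerSeries.isUnit_iff_constantCoeff, map_pow, hV0, one_pow]
    exact isUnit_one
  obtain ⟨u, hu⟩ := hVu
  have hVy : V ^ 2 * ((u⁻¹ : (PowerSeries ℂ)ˣ) : PowerSeries ℂ) = 1 := by
    rw [← hu, Units.mul_inv]
  set y : PowerSeries ℂ := ((u⁻¹ : (PowerSeries ℂ)ˣ) : PowerSeries ℂ) with hy
  have hty : t ^ 2 * y = PowerSeries.X ^ 2 := by
    rw [hV, mul_pow, mul_assoc, hVy, mul_one]
  have ht0 : t ≠ 0 := by
    intro h
    have h1 := ht.c1
    rw [h, map_zero] at h1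
    exact zero_ne_one h1
  refine ⟨y, hty, ?_, ?_⟩
  · have h1 := congrArg PowerSeries.constantCoeff hVy
    rw [map_mul, map_pow, hV0, one_pow, one_mul, map_one] at h1
    rw [PowerSeries.coeff_zero_eq_constantCoeff_apply]
    exact h1
  · have hD := congrArg (PowerSeries.derivative ℂ) hty
    have e1 : PowerSeries.derivative ℂ (t ^ 2 * y) =
        2 * t * PowerSeries.derivative ℂ t * y + t ^ 2 * PowerSeries.derivative ℂ y := by
      rw [Derivation.leibniz, pow_two, Derivation.leibniz]
      simp only [smul_eq_mul]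
      ring
    have e2 : PowerSeries.derivative ℂ ((PowerSeries.X : PowerSeries ℂ) ^ 2) =
        2 * PowerSeries.X := by
      rw [pow_two, Derivation.leibniz, PowerSeries.derivative_X]
      simp only [smul_eq_mul]
      ring
    rw [e1, e2] at hD
    have h1 : t ^ 3 * (PowerSeries.X * PowerSeries.derivative ℂ y - 2 * y) =
        -(2 * PowerSeries.X ^ 3 * PowerSeries.derivative ℂ t) := by
      linear_combination PowerSeries.X * t * hD - 2 * (t +
        PowerSeries.X * PowerSeries.derivative ℂ t) * hty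
    have h6 : t ^ 6 ≠ 0 := pow_ne_zero _ ht0
    apply mul_left_cancel₀ h6
    have hf := ht.first
    calc t ^ 6 * (PowerSeries.X * PowerSeries.derivative ℂ y - 2 * y) ^ 2 =
        (t ^ 3 * (PowerSeries.X * PowerSeries.derivative ℂ y - 2 * y)) ^ 2 := by ring
      _ = 4 * PowerSeries.X ^ 6 * (PowerSeries.derivative ℂ t) ^ 2 := by
        rw [h1]
        ring
      _ = 4 * PowerSeries.X ^ 6 * (1 + PowerSeries.C a * t ^ 4 + PowerSeries.C b * t ^ 6) := by
        rw [hf]
      _ = 4 * (PowerSeries.X ^ 2) ^ 3 + 4 * PowerSeries.C a * PowerSeries.X ^ 4 * t ^ 4 *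
          PowerSeries.X ^ 2 + 4 * PowerSeries.C b * PowerSeries.X ^ 6 * t ^ 6 := by ring
      _ = t ^ 6 * (4 * y ^ 3 + 4 * PowerSeries.C a * PowerSeries.X ^ 4 * y +
          4 * PowerSeries.C b * PowerSeries.X ^ 6) := by
        rw [← hty]
        ring

/-- the series of `z^2 ℘(z)` -/
noncomputable def xL (L : Submodule ℤ ℂ) : PowerSeries ℂ :=
  PowerSeries.mk fun k => if k = 0 then 1 else if k < 3 then 0 else
    ((k : ℂ) - 1) * ∑' l : L, ((l : ℂ) ^ k)⁻¹

theorem ts_lattice {L : Submodule ℤ ℂ} (hL : IsLat L) {t : PowerSeries ℂ}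
    (ht : IsTs (-(g2 L) / 4) (-(g3 L) / 4) t) : t ^ 2 * xL L = PowerSeries.X ^ 2 := by
  obtain ⟨y, hty, hy0, hy⟩ := ql_inv ht
  -- the Taylor series of the regular part
  obtain ⟨f, F, hfF, hwp, hxF⟩ : ∃ (f : ℂ → ℂ) (F : PowerSeries ℂ), HasT f F ∧
      (∀ z, Pool.Agent.Work.CM.wp L z = 1 / z ^ 2 + f z) ∧
      xL L = 1 + PowerSeries.X ^ 2 * F := by
    obtain ⟨P, rfl⟩ := hL
    refine ⟨P.weierstrassPExcept 0, PowerSeries.mk fun n =>
      if n = 0 then 0 else ((n : ℂ) + 1) * P.G (n + 2), ⟨P.analyticAt_weierstrassPExcept 0,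
      fun n => ?_⟩, fun z => ?_, ?_⟩
    · rw [P.iteratedDeriv_weierstrassPExcept_self, PowerSeries.coeff_mk,
        P.weierstrassPExcept_zero, P.sumInvPow_zero]
      split_ifs with h
      · simp
      · rw [Nat.factorial_succ]
        push_cast
        ring
    · have h1 := P.weierstrassPExcept_add ⟨0, zero_mem _⟩ z
      show P.weierstrassP z = _
      rw [← h1]
      simp
      ring
    · ext k
      rw [map_add, PowerSeries.coeff_X_pow_mul', PowerSeries.coeff_one]
      show (PowerSeries.coeff k (PowerSeries.mk _)) = _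
      rw [PowerSeries.coeff_mk]
      rcases k with _ | _ | _ | k
      · simp
      · simp
      · simp
      · rw [if_neg (by omega), if_neg (by omega), if_neg (by omega), if_pos (by omega), zero_add,
          PowerSeries.coeff_mk, if_neg (by omega)]
        have e : k + 1 + 1 + 1 - 2 = k + 1 := by omega
        rw [e]
        show _ = _ * ∑' l : P.lattice, ((l : ℂ) ^ (k + 1 + 2))⁻¹
        congr 1
        push_cast
        ring
  have hfd : HasT (deriv f) (PowerSeries.derivative ℂ F) := hfF.deriv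
  -- the differential equation of the regular part
  have hode : (PowerSeries.X ^ 3 * PowerSeries.derivative ℂ F + PowerSeries.C (-2)) ^ 2 +
      (PowerSeries.C (-4) * (PowerSeries.C 1 + PowerSeries.X ^ 2 * F) ^ 3 +
      (PowerSeries.C (g2 L) * PowerSeries.X ^ 4 * (PowerSeries.C 1 + PowerSeries.X ^ 2 * F) +
        PowerSeries.C (g3 L) * PowerSeries.X ^ 6)) = 0 := by
    have h1 := ((((HasT.id.pow 3).mul hfd).add (HasT.const (-2))).pow 2).add
      (((HasT.const (-4)).mul (((HasT.const 1).add ((HasT.id.pow 2).mul hfF)).pow 3)).add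
        ((((HasT.const (g2 L)).mul (HasT.id.pow 4)).mul
          ((HasT.const 1).add ((HasT.id.pow 2).mul hfF))).add
          ((HasT.const (g3 L)).mul (HasT.id.pow 6))))
    refine h1.eq_zero ?_
    have h2 := hL.compl_mem_nhdsNE 0
    have h3 : ∀ᶠ z in nhdsWithin (0 : ℂ) {0}ᶜ, DifferentiableAt ℂ f z := by
      have h4 := hfF.an.eventually_analyticAt
      exact (h4.filter_mono nhdsWithin_le_nhds).mono fun z hz => hz.differentiableAt
    have h4 : ∀ᶠ z in nhdsWithin (0 : ℂ) {0}ᶜ, (z ^ 3 * deriv f z + -2) ^ 2 +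
        (-4 * (1 + z ^ 2 * f z) ^ 3 + (g2 L * z ^ 4 * (1 + z ^ 2 * f z) + g3 L * z ^ 6)) = 0 := by
      filter_upwards [h2, h3, self_mem_nhdsWithin] with z hz hfz hz0
      have hz0' : z ≠ 0 := hz0
      have h5 := hL.hasDerivAt hz
      have h6 : HasDerivAt (fun z => 1 / z ^ 2 + f z) (-2 / z ^ 3 + deriv f z) z := by
        have h7 : HasDerivAt (fun z : ℂ => 1 / z ^ 2) (-2 / z ^ 3) z := by
          have h8 := ((hasDerivAt_pow 2 z).inv (pow_ne_zero 2 hz0'))
          have e : (fun z : ℂ => 1 / z ^ 2) = (fun z : ℂ => z ^ 2)⁻¹ := by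
            funext w
            simp
          rw [e]
          refine h8.congr_deriv ?_
          rw [div_eq_div_iff (pow_ne_zero 2 (pow_ne_zero 2 hz0')) (pow_ne_zero 3 hz0')]
          push_cast
          ring
        exact h7.add hfz.hasDerivAt
      have e1 : Pool.Agent.Work.CM.wp L = fun z => 1 / z ^ 2 + f z := funext hwp
      rw [e1] at h5
      have h7 := h5.unique h6
      have h8 := hL.ode hz
      rw [h7, hwp] at h8
      have h9 : z ^ 6 * (-2 / z ^ 3 + deriv f z) ^ 2 = z ^ 6 * (4 * (1 / z ^ 2 + f z) ^ 3 -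
          g2 L * (1 / z ^ 2 + f z) - g3 L) := by rw [h8]
      have e2 : z ^ 6 * (-2 / z ^ 3 + deriv f z) ^ 2 = (z ^ 3 * deriv f z + -2) ^ 2 := by
        field_simp
        ring
      have e3 : z ^ 6 * (4 * (1 / z ^ 2 + f z) ^ 3 - g2 L * (1 / z ^ 2 + f z) - g3 L) =
          4 * (1 + z ^ 2 * f z) ^ 3 - g2 L * z ^ 4 * (1 + z ^ 2 * f z) - g3 L * z ^ 6 := by
        field_simp
      rw [e2, e3] at h9
      linear_combination h9
    have h5 : ((0 : ℂ) ^ 3 * deriv f 0 + -2) ^ 2 + (-4 * (1 + (0 : ℂ) ^ 2 * f 0) ^ 3 +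
        (g2 L * (0 : ℂ) ^ 4 * (1 + (0 : ℂ) ^ 2 * f 0) + g3 L * (0 : ℂ) ^ 6)) = 0 := by
      norm_num
    rw [eventually_nhdsWithin_iff] at h4
    filter_upwards [h4] with z hz
    by_cases h : z = 0
    · rw [h]
      exact h5
    · exact hz h
  have hx0 : PowerSeries.coeff 0 (xL L) = 1 := by
    rw [hxF, map_add, PowerSeries.coeff_X_pow_mul', PowerSeries.coeff_one]
    simp
  have hx : (PowerSeries.X * PowerSeries.derivative ℂ (xL L) - 2 * xL L) ^ 2 =
      4 * xL L ^ 3 - PowerSeries.C (g2 L) * PowerSeries.X ^ 4 * xL L -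
        PowerSeries.C (g3 L) * PowerSeries.X ^ 6 := by
    have e1 : PowerSeries.derivative ℂ (xL L) = 2 * PowerSeries.X * F +
        PowerSeries.X ^ 2 * PowerSeries.derivative ℂ F := by
      rw [hxF, map_add, PowerSeries.derivative_one, zero_add, Derivation.leibniz, pow_two,
        Derivation.leibniz, PowerSeries.derivative_X]
      simp only [smul_eq_mul]
      ring
    have c2 : (PowerSeries.C (-2) : PowerSeries ℂ) = -2 := by
      rw [map_neg]
      exact congrArg Neg.neg (map_ofNat _ 2)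
    have c4 : (PowerSeries.C (-4) : PowerSeries ℂ) = -4 := by
      rw [map_neg]
      exact congrArg Neg.neg (map_ofNat _ 4)
    rw [c2, c4, map_one] at hode
    rw [e1, hxF]
    linear_combination hode
  have hy' : (PowerSeries.X * PowerSeries.derivative ℂ y - 2 * y) ^ 2 =
      4 * y ^ 3 - PowerSeries.C (g2 L) * PowerSeries.X ^ 4 * y -
        PowerSeries.C (g3 L) * PowerSeries.X ^ 6 := by
    have c1 : ∀ g : ℂ, 4 * PowerSeries.C (-g / 4) = -(PowerSeries.C g : PowerSeries ℂ) := by
      intro g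
      have e : (4 : PowerSeries ℂ) = PowerSeries.C 4 := (map_ofNat _ 4).symm
      rw [e, ← map_mul, ← map_neg]
      congr 1
      ring
    rw [hy, c1, c1]
    ring
  rw [ql_unique hx0 hy0 hx hy']
  exact hty

end Pool.Agent.SS
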