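import Pool.Agent.Work.MP_a5099b_nt.C.QDefs
import Pool.Agent.Work.MP_a5099b_nt.A.Lat
import Pool.Agent.Work.MP_a5099b_nt.A.Lev

/-!
# Module C.QNum (M)

The numbers. `bern`: von Staudt-Clausen (`vonStaudt_clausen` in `Mathlib/NumberTheory/Bernoulli.lean`):
`B_(p-1) + ∑_{l-1 ∣ p-1} 1/l` is an integer; the term `l = p` is `1/p`, the others have denominators prime to `p`. So
`p B_(p-1) = -1 + p c`. `kappa`: `κ = -2 (p-1)!/((p-2) p B_(p-1))`; Wilson: `(p-1)! ≡ -1`, `p - 2 ≡ -2`, `p B_(p-1) ≡ -1`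
modulo `p`: `κ ≡ -2 (-1)/((-2)(-1)) = 1`. `Wt_ekL`: scaling of the sum. `ekL_tauLat`: `CM.tsum_tauLat`
(`ζ(k) ≠ 0`). `QX_ekL`: Mathlib `EisensteinSeries.E_qExpansion_coeff`: the coefficient of `q^m` (`m ≥ 1`) of
`E_(p-1)` is `-(2(p-1)/B_(p-1)) σ_(p-2)(m) = p * (-2(p-1) σ/(p B_(p-1)))`, in `p ℤ_(p)`.
-/

set_option autoImplicit false

namespace Pool.Agent.SS

open UpperHalfPlane Polynomial
open Pool.Agent.Work.CM (IsLat g2 g3 tauLat)
open scoped Pointwise MatrixGroups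

section ZpFacts

variable {p : ℕ} [hp : Fact p.Prime]

private theorem Zp_int (n : ℤ) : (n : ℂ) ∈ Zp p := by
  exact intCast_mem _ n

private theorem Zp_inv {x c : ℂ} {u : ℤ} (hu : ¬ (p : ℤ) ∣ u) (hc : c ∈ Zp p)
    (hx : x = u + p * c) : x⁻¹ ∈ Zp p := by
  obtain ⟨a, b, hb, h⟩ := hc
  have hb0 : (b : ℂ) ≠ 0 := by
    intro h0
    have : b = 0 := by exact_mod_cast h0
    exact hb (by rw [this]; exact dvd_zero _)
  have he : ¬ (p : ℤ) ∣ u * b + p * a := by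
    intro h1
    have h2 : (p : ℤ) ∣ u * b := (dvd_add_left (dvd_mul_right _ _)).1 h1
    rcases (Nat.prime_iff_prime_int.1 hp.out).dvd_or_dvd h2 with h3 | h3
    · exact hu h3
    · exact hb h3
  have hxb : x * b = ((u * b + p * a : ℤ) : ℂ) := by
    push_cast
    rw [hx]
    linear_combination (p : ℂ) * h
  have he0 : ((u * b + p * a : ℤ) : ℂ) ≠ 0 := by
    intro h0
    have : u * b + p * a = 0 := by exact_mod_cast h0
    exact he (by rw [this]; exact dvd_zero _)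
  have hx0 : x ≠ 0 := by
    rintro rfl
    rw [zero_mul] at hxb
    exact he0 hxb.symm
  refine ⟨b, u * b + p * a, he, ?_⟩
  rw [← hxb, ← mul_assoc, inv_mul_cancel₀ hx0, one_mul]

omit hp in
private theorem two_le (h5 : 5 ≤ p) : ¬ (p : ℤ) ∣ 2 := by
  intro h
  have h1 := Int.le_of_dvd (by norm_num) h
  omega

omit hp in
private theorem one_nd (h5 : 5 ≤ p) : ¬ (p : ℤ) ∣ -1 := by
  intro h
  rw [dvd_neg] at h
  have h1 := Int.le_of_dvd (by norm_num) h
  omega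

end ZpFacts

theorem bern {p : ℕ} [Fact p.Prime] (h5 : 5 ≤ p) :
    ∃ c ∈ Zp p, (p : ℂ) * ((_root_.bernoulli (p - 1) : ℚ) : ℂ) = -1 + p * c := by
  have hp : p.Prime := Fact.out
  have hodd : Odd p := hp.odd_of_ne_two (by omega)
  obtain ⟨k, hk⟩ := hodd
  have hk2 : 2 * k = p - 1 := by omega
  obtain ⟨n, hn⟩ := Bernoulli.vonStaudt_clausen k
  rw [hk2] at hn
  set S := (Finset.range (p - 1 + 2)).filter (fun q => q.Prime ∧ (q - 1) ∣ p - 1) with hS
  have hpS : p ∈ S := by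
    rw [hS, Finset.mem_filter, Finset.mem_range]
    exact ⟨by omega, hp, dvd_refl _⟩
  rw [← Finset.add_sum_erase S _ hpS] at hn
  have hp0 : (p : ℚ) ≠ 0 := by exact_mod_cast hp.ne_zero
  refine ⟨(n : ℂ) - ∑ q ∈ S.erase p, (q : ℂ)⁻¹, ?_, ?_⟩
  · refine sub_mem (Zp_int n) (sum_mem fun q hq => ?_)
    obtain ⟨hqp, hq2⟩ := Finset.mem_erase.1 hq
    have hq3 : q.Prime := (Finset.mem_filter.1 hq2).2.1
    refine ⟨1, q, ?_, ?_⟩
    · intro h
      have h1 : p ∣ q := by exact_mod_cast h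
      exact hqp ((Nat.prime_dvd_prime_iff_eq hp hq3).1 h1).symm
    · have : (q : ℂ) ≠ 0 := by exact_mod_cast hq3.ne_zero
      push_cast
      exact inv_mul_cancel₀ this
  · have h1 : (p : ℚ) * _root_.bernoulli (p - 1) = -1 + p * (n - ∑ q ∈ S.erase p, (q : ℚ)⁻¹) := by
      have h2 : ∑ q ∈ S.erase p, (1 : ℚ) / q = ∑ q ∈ S.erase p, (q : ℚ)⁻¹ :=
        Finset.sum_congr rfl fun q _ => one_div _
      rw [h2] at hn
      have h3 : (p : ℚ) * (1 / p) = 1 := by field_simp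
      linear_combination -(p : ℚ) * hn - h3
    have h2 := congrArg (fun x : ℚ => (x : ℂ)) h1
    push_cast at h2
    exact h2

theorem kappa {p : ℕ} [Fact p.Prime] (h5 : 5 ≤ p) :
    ∃ c ∈ Zp p, -(2 * ((p - 1).factorial : ℂ)) /
      (((p : ℂ) - 2) * (p * ((_root_.bernoulli (p - 1) : ℚ) : ℂ))) = 1 + p * c := by
  have hp : p.Prime := Fact.out
  obtain ⟨c0, hc0, hB⟩ := bern h5
  obtain ⟨w, hw⟩ : ∃ w : ℤ, ((p - 1).factorial : ℤ) = -1 + p * w := by
    have h1 := ZMod.wilsons_lemma p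
    have h2 : (((p - 1).factorial : ℤ) : ZMod p) - ((-1 : ℤ) : ZMod p) = 0 := by
      push_cast
      rw [h1]
      ring
    rw [← Int.cast_sub, ZMod.intCast_zmod_eq_zero_iff_dvd] at h2
    obtain ⟨w, hw⟩ := h2
    exact ⟨w, by linarith⟩
  have hw' : ((p - 1).factorial : ℂ) = -1 + p * w := by exact_mod_cast hw
  have hpC : (p : ℂ) ∈ Zp p := natCast_mem _ p
  have hwC : (w : ℂ) ∈ Zp p := Zp_int w
  have h2C : (2 : ℂ) ∈ Zp p := ofNat_mem _ 2
  set D : ℂ := ((p : ℂ) - 2) * (p * ((_root_.bernoulli (p - 1) : ℚ) : ℂ)) with hD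
  set d : ℂ := -1 + ((p : ℂ) - 2) * c0 with hd
  have hdZ : d ∈ Zp p := add_mem (neg_mem (one_mem _)) (mul_mem (sub_mem hpC h2C) hc0)
  have hDd : D = ((2 : ℤ) : ℂ) + p * d := by
    rw [hD, hB, hd]
    push_cast
    ring
  have hDinv : D⁻¹ ∈ Zp p := Zp_inv (two_le h5) hdZ hDd
  have hD0 : D ≠ 0 := by
    intro h0
    obtain ⟨a, b, hb, h⟩ := hdZ
    rw [h0] at hDd
    have h3 : ((2 * b + p * a : ℤ) : ℂ) = 0 := by
      push_cast at hDd ⊢
      linear_combination -(b : ℂ) * hDd - (p : ℂ) * h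
    have h4 : 2 * b + p * a = 0 := by exact_mod_cast h3
    have h5' : (p : ℤ) ∣ 2 * b := ⟨-a, by linarith⟩
    rcases (Nat.prime_iff_prime_int.1 hp).dvd_or_dvd h5' with h6 | h6
    · exact two_le h5 h6
    · exact hb h6
  refine ⟨(-(2 * w) - d) * D⁻¹, mul_mem (sub_mem (neg_mem (mul_mem h2C hwC)) hdZ) hDinv, ?_⟩
  rw [div_eq_iff hD0]
  have e : (1 + (p : ℂ) * ((-(2 * w) - d) * D⁻¹)) * D = D + p * (-(2 * w) - d) * (D⁻¹ * D) := by
    ring
  rw [e, inv_mul_cancel₀ hD0, hw']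
  push_cast at hDd
  linear_combination -hDd

private noncomputable def smulEquivQ (L : Submodule ℤ ℂ) {m : ℂ} (hm : m ≠ 0) :
    L ≃ (m • L : Submodule ℤ ℂ) where
  toFun l := ⟨m * l, (Pool.Agent.Work.CM.mem_smul_iff hm).2 l.2⟩
  invFun l := ⟨m⁻¹ * l, by
    rw [← Pool.Agent.Work.CM.mem_smul_iff hm, ← mul_assoc, mul_inv_cancel₀ hm, one_mul]
    exact l.2⟩
  left_inv l := by
    ext
    show m⁻¹ * (m * (l : ℂ)) = l
    rw [← mul_assoc, inv_mul_cancel₀ hm, one_mul]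
  right_inv l := by
    ext
    show m * (m⁻¹ * (l : ℂ)) = l
    rw [← mul_assoc, mul_inv_cancel₀ hm, one_mul]

theorem Wt_ekL {k : ℕ} (hk : 3 ≤ k) : Wt k (ekL k) := by
  intro L _ m hm
  have h1 : ∑' l : (m • L : Submodule ℤ ℂ), ((l : ℂ) ^ k)⁻¹ = (m ^ k)⁻¹ * ∑' l : L, ((l : ℂ) ^ k)⁻¹ := by
    rw [← (smulEquivQ L hm).tsum_eq fun l : (m • L : Submodule ℤ ℂ) => ((l : ℂ) ^ k)⁻¹, ← tsum_mul_left]
    refine tsum_congr fun l => ?_
    show ((m * (l : ℂ)) ^ k)⁻¹ = _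
    rw [mul_pow, mul_inv]
  have hmk : (m ^ k : ℂ) ≠ 0 := pow_ne_zero _ hm
  rw [zpow_natCast, ekL, ekL, h1]
  field_simp

private theorem zeta_ne {k : ℕ} (hk : 3 ≤ k) : riemannZeta k ≠ 0 := by
  apply riemannZeta_ne_zero_of_one_lt_re
  rw [Complex.natCast_re]
  exact_mod_cast (by omega : 1 < k)

theorem ekL_tauLat {k : ℕ} (hk : 3 ≤ k) (τ : ℍ) : ekL k (tauLat τ) = ModularForm.E hk τ := by
  rw [ekL, Pool.Agent.Work.CM.tsum_tauLat hk τ, ← mul_assoc, inv_mul_cancel₀, one_mul]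
  exact mul_ne_zero two_ne_zero (zeta_ne hk)

theorem QX_ekL {p : ℕ} [Fact p.Prime] (h5 : 5 ≤ p) :
    ∃ a : LaurentSeries ℂ, InR (Zp p) a ∧ (∀ m : ℤ, m < 0 → a.coeff m = 0) ∧
      QX 1 (fun τ => ekL (p - 1) (tauLat τ)) (1 + HahnSeries.C (p : ℂ) * a) := by
  have hp : p.Prime := Fact.out
  have hk : 3 ≤ p - 1 := by omega
  have heven : Even (p - 1) := by
    obtain ⟨k, hk⟩ := hp.odd_of_ne_two (by omega : p ≠ 2)
    exact ⟨k, by omega⟩
  obtain ⟨c0, hc0, hB⟩ := bern h5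
  have hp0 : (p : ℂ) ≠ 0 := by exact_mod_cast hp.ne_zero
  set B : ℂ := ((_root_.bernoulli (p - 1) : ℚ) : ℂ) with hBdef
  have hinv : ((p : ℂ) * B)⁻¹ ∈ Zp p := Zp_inv (one_nd h5) hc0 (by rw [hB]; push_cast; ring)
  set γ : ℂ := -(2 * ((p - 1 : ℕ) : ℂ)) * ((p : ℂ) * B)⁻¹ with hγ
  have hγZ : γ ∈ Zp p := by
    refine mul_mem (neg_mem (mul_mem ?_ ?_)) hinv
    · exact ofNat_mem _ 2
    · exact natCast_mem _ (p - 1)
  set u : PowerSeries ℂ := PowerSeries.mk fun m =>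
    if m = 0 then 0 else γ * (ArithmeticFunction.sigma (p - 1 - 1) m : ℂ) with hu
  refine ⟨HahnSeries.ofPowerSeries ℤ ℂ u, ?_, ?_, ?_⟩
  · intro m
    have h1 := PowerSeries.coeff_coe u m
    rw [h1]
    split_ifs with hm
    · exact zero_mem _
    · rw [hu, PowerSeries.coeff_mk]
      split_ifs with hm0
      · exact zero_mem _
      · refine mul_mem hγZ ?_
        exact natCast_mem _ _
  · intro m hm
    have h1 := PowerSeries.coeff_coe u m
    rw [h1, if_pos hm]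
  · have hq : HahnSeries.ofPowerSeries ℤ ℂ (qExpansion 1 (ModularForm.E hk)) =
        1 + HahnSeries.C (p : ℂ) * HahnSeries.ofPowerSeries ℤ ℂ u := by
      have h1 : qExpansion 1 (ModularForm.E hk) = 1 + PowerSeries.C (p : ℂ) * u := by
        ext m
        rw [EisensteinSeries.E_qExpansion_coeff hk heven m, map_add, PowerSeries.coeff_C_mul, hu,
          PowerSeries.coeff_mk, PowerSeries.coeff_one]
        split_ifs with hm
        · ring
        · rw [hγ, zero_add]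
          have : (p : ℂ) * (-(2 * ((p - 1 : ℕ) : ℂ)) * ((p : ℂ) * B)⁻¹ *
              (ArithmeticFunction.sigma (p - 1 - 1) m : ℂ)) =
              ((p : ℂ) * (p : ℂ)⁻¹) * (-(2 * ((p - 1 : ℕ) : ℂ)) * B⁻¹ *
                (ArithmeticFunction.sigma (p - 1 - 1) m : ℂ)) := by
            rw [mul_inv]
            ring
          rw [this, mul_inv_cancel₀ hp0, one_mul]
          ring
      rw [h1, map_add, map_one, map_mul, HahnSeries.ofPowerSeries_C]
    rw [← hq]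
    intro τ
    have h2 : HasSum (fun m : ℕ => (qExpansion 1 (ModularForm.E hk)).coeff m *
        Function.Periodic.qParam (1 : ℝ) τ ^ m) (ModularForm.E hk τ) :=
      ModularForm.hasSum_qExpansion _ one_pos one_mem_strictPeriods_SL τ
    show HasSum (fun m : ℤ => (HahnSeries.ofPowerSeries ℤ ℂ (qExpansion 1 (ModularForm.E hk))).coeff m *
        Function.Periodic.qParam ((1 : ℕ) : ℝ) τ ^ m) (ekL (p - 1) (tauLat τ))
    rw [ekL_tauLat hk, Nat.cast_one]
    have hinj : Function.Injective (fun m : ℕ => (m : ℤ)) := Nat.cast_injective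
    rw [← hinj.hasSum_iff]
    · convert h2 using 1
      funext m
      simp only [Function.comp_apply, zpow_natCast]
      rw [LaurentSeries.coeff_coe_powerSeries]
    · intro m hm
      have h3 := PowerSeries.coeff_coe (qExpansion 1 (ModularForm.E hk)) m
      rw [h3, if_pos, zero_mul]
      by_contra hneg
      apply hm
      exact ⟨m.toNat, by simpa using hneg⟩

end Pool.Agent.SS
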