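import Pool.Agent.Work.MP_a5099b_nt.C.QAlg
import Pool.Agent.Work.MP_a5099b_nt.C.QLat
import Pool.Agent.Work.MP_a5099b_nt.C.QNum
import Pool.Agent.Work.MP_a5099b_nt.A.Fin2

/-!
# Module C.QMain (M)

`E_(p-1) = Hasse polynomial in E₄, E₆ modulo p`.

`B = MvPolynomial (Fin 2) ℂ`, `Λ` = the polynomials with coefficients in `Zp p` (range of the map from
`MvPolynomial (Fin 2) (Zp p)`), `a = u X₀`, `b = v X₁` with `u = -1/48`, `v = 1/864` in `Zp p` (`p ≥ 5`). `exists_isTs`, `exists_xs`,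
`xs_hasse`: `p x_(p-1) = 2 Hasse p a b + p c`, `c ∈ Λ`. For a lattice `L` let `M = (2πi) • L`: `g2 M = e4 L/12`,
`g3 M = -e6 L/216` (`g2_smul`, `g3_smul`), so evaluation at `(e4 L, e6 L)` maps `a, b` to `-g2 M/4, -g3 M/4`, and (`IsTs.map`,
`IsTs.unique`, `ts_lattice`; cancel `t^2`) `x` to `xL M`. So `x_(p-1)(e4 L, e6 L) = (p-2) G_(p-1)(M) =
(p-2) (2πi)^(-(p-1)) G_(p-1)(L)` and `G_(p-1)(L) = 2 ζ(p-1) ekL (p-1) L`, `2ζ(p-1) (2πi)^(-(p-1)) = -B_(p-1)/(p-1)!`
(`riemannZeta_two_mul_nat`). Hence `ekL (p-1) L = κ/2 * (p x_(p-1))(e4 L, e6 L)` with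
`κ = -2(p-1)!/((p-2) p B_(p-1)) = 1 + p c'` (`kappa`), and `P = (κ/2)(2 Hasse + p c) = Hasse + p(...)`. Weighted
homogeneity: `formsL2` (`Wt_ekL`, `QX_ekL`) gives a weighted homogeneous polynomial with the same values, equal to `P` by
`alg_indep`.
-/

set_option autoImplicit false

namespace Pool.Agent.SS

open UpperHalfPlane Polynomial
open Pool.Agent.Work.CM (IsLat g2 g3 tauLat)
open scoped Pointwise MatrixGroups

private theorem Zp_inv_nat {p : ℕ} [hp : Fact p.Prime] {n : ℕ} (hn : ¬ p ∣ n) : ((n : ℂ))⁻¹ ∈ Zp p := by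
  have hn0 : n ≠ 0 := fun h => hn (h ▸ dvd_zero p)
  refine ⟨1, n, fun h => hn (by exact_mod_cast h), ?_⟩
  have : (n : ℂ) ≠ 0 := by exact_mod_cast hn0
  push_cast
  exact inv_mul_cancel₀ this

private theorem not_dvd_of_lt {p n : ℕ} (h0 : 0 < n) (h : n < p) : ¬ p ∣ n := fun hd =>
  absurd (Nat.le_of_dvd h0 hd) (by omega)

private theorem prime_not_dvd_23 {p : ℕ} (hp : p.Prime) (h5 : 5 ≤ p) (a b : ℕ) :
    ¬ p ∣ 2 ^ a * 3 ^ b := by
  intro h
  rcases hp.dvd_mul.1 h with h | h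
  · exact not_dvd_of_lt (by norm_num) (by omega : 2 < p) (hp.dvd_of_dvd_pow h)
  · exact not_dvd_of_lt (by norm_num) (by omega : 3 < p) (hp.dvd_of_dvd_pow h)

theorem exists_uv {p : ℕ} [Fact p.Prime] (h5 : 5 ≤ p) :
    ∃ u v : Zp p, u * 48 = -1 ∧ v * 864 = 1 := by
  have hp : p.Prime := Fact.out
  have h48 : ((48 : ℕ) : ℂ)⁻¹ ∈ Zp p := Zp_inv_nat (by
    have := prime_not_dvd_23 hp h5 4 1
    norm_num at this
    exact this)
  have h864 : ((864 : ℕ) : ℂ)⁻¹ ∈ Zp p := Zp_inv_nat (by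
    have := prime_not_dvd_23 hp h5 5 3
    norm_num at this
    exact this)
  refine ⟨⟨-((48 : ℕ) : ℂ)⁻¹, neg_mem h48⟩, ⟨((864 : ℕ) : ℂ)⁻¹, h864⟩, ?_, ?_⟩
  · apply Subtype.ext
    show -((48 : ℕ) : ℂ)⁻¹ * 48 = -1
    norm_num
  · apply Subtype.ext
    show ((864 : ℕ) : ℂ)⁻¹ * 864 = 1
    norm_num

/-- the value of the coefficient -/
private theorem xL_coeff {p : ℕ} [Fact p.Prime] (h5 : 5 ≤ p) (L : Submodule ℤ ℂ) (hL : IsLat L) :
    PowerSeries.coeff (p - 1) (xL ((2 * (Real.pi : ℂ) * Complex.I) • L)) =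
      ((p : ℂ) - 2) * (-((_root_.bernoulli (p - 1) : ℚ) : ℂ) / ((p - 1).factorial : ℂ)) *
        ekL (p - 1) L := by
  have hp : p.Prime := Fact.out
  have hodd : Odd p := hp.odd_of_ne_two (by omega)
  obtain ⟨k, hk⟩ := hodd
  have hk2 : p - 1 = 2 * k := by omega
  have hk0 : k ≠ 0 := by omega
  set m : ℂ := 2 * (Real.pi : ℂ) * Complex.I with hm
  have hm0 : m ≠ 0 := by
    rw [hm]
    exact mul_ne_zero (mul_ne_zero two_ne_zero (by exact_mod_cast Real.pi_ne_zero))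
      Complex.I_ne_zero
  have h3 : 3 ≤ p - 1 := by omega
  have hW := Wt_ekL h3 L hL m hm0
  rw [zpow_natCast] at hW
  have hz : riemannZeta (((p - 1 : ℕ)) : ℂ) ≠ 0 := by
    apply riemannZeta_ne_zero_of_one_lt_re
    rw [Complex.natCast_re]
    exact_mod_cast (by omega : 1 < p - 1)
  have hsum : ∑' l : (m • L : Submodule ℤ ℂ), ((l : ℂ) ^ (p - 1))⁻¹ =
      2 * riemannZeta (((p - 1 : ℕ)) : ℂ) * ekL (p - 1) (m • L) := by
    unfold ekL
    rw [← mul_assoc, mul_inv_cancel₀ (mul_ne_zero two_ne_zero hz), one_mul]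
  have hek : ekL (p - 1) (m • L) = (m ^ (p - 1))⁻¹ * ekL (p - 1) L := by
    rw [← hW, ← mul_assoc, inv_mul_cancel₀ (pow_ne_zero _ hm0), one_mul]
  have hzeta : 2 * riemannZeta (((p - 1 : ℕ)) : ℂ) * (m ^ (p - 1))⁻¹ =
      -((_root_.bernoulli (p - 1) : ℚ) : ℂ) / ((p - 1).factorial : ℂ) := by
    have h1 := riemannZeta_two_mul_nat hk0
    rw [hk2]
    push_cast
    rw [h1]
    have hmk : m ^ (2 * k) = 2 ^ (2 * k) * (Real.pi : ℂ) ^ (2 * k) * (-1) ^ k := by
      rw [hm, mul_pow, mul_pow, pow_mul Complex.I, Complex.I_sq]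
    rw [hmk]
    have h2 : (2 : ℂ) ^ (2 * k) = 2 * 2 ^ (2 * k - 1) := by
      rw [← pow_succ']
      congr 1
      omega
    have hpi : (Real.pi : ℂ) ^ (2 * k) ≠ 0 := pow_ne_zero _ (by exact_mod_cast Real.pi_ne_zero)
    have h2' : (2 : ℂ) ^ (2 * k - 1) ≠ 0 := pow_ne_zero _ two_ne_zero
    have hneg : ((-1 : ℂ)) ^ k ≠ 0 := pow_ne_zero _ (by norm_num)
    have hf : (((2 * k).factorial : ℕ) : ℂ) ≠ 0 := by exact_mod_cast Nat.factorial_ne_zero _
    rw [h2, pow_succ (-1 : ℂ) k]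
    field_simp
  rw [xL, PowerSeries.coeff_mk, if_neg (by omega), if_neg (by omega), hsum, hek]
  have hc : (((p - 1 : ℕ)) : ℂ) - 1 = (p : ℂ) - 2 := by
    rw [Nat.cast_sub (by omega : 1 ≤ p)]
    push_cast
    ring
  rw [hc, ← hzeta]
  ring

theorem ek_hasse {p : ℕ} [Fact p.Prime] (h5 : 5 ≤ p) {u v : Zp p} (hu : u * 48 = -1)
    (hv : v * 864 = 1) :
    ∃ P P' : MvPolynomial (Fin 2) (Zp p), P.IsWeightedHomogeneous ![4, 6] (p - 1) ∧
      (∀ L, IsLat L → ekL (p - 1) L = MvPolynomial.aeval ![e4 L, e6 L] P) ∧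
      P = Hasse p (MvPolynomial.C u * MvPolynomial.X 0) (MvPolynomial.C v * MvPolynomial.X 1) +
        (p : MvPolynomial (Fin 2) (Zp p)) * P' := by
  have hp : p.Prime := Fact.out
  have huC : (u : ℂ) * 48 = -1 := by
    have := congrArg (Subtype.val : Zp p → ℂ) hu
    exact this
  have hvC : (v : ℂ) * 864 = 1 := by
    have := congrArg (Subtype.val : Zp p → ℂ) hv
    exact this
  set ι : MvPolynomial (Fin 2) (Zp p) →+* MvPolynomial (Fin 2) ℂ :=
    MvPolynomial.map (Zp p).subtype with hι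
  set a₀ : MvPolynomial (Fin 2) (Zp p) := MvPolynomial.C u * MvPolynomial.X 0 with ha₀
  set b₀ : MvPolynomial (Fin 2) (Zp p) := MvPolynomial.C v * MvPolynomial.X 1 with hb₀
  set H : MvPolynomial (Fin 2) (Zp p) := Hasse p a₀ b₀ with hH
  have hΛ : ∀ n : ℕ, 0 < n → n < p →
      algebraMap ℚ (MvPolynomial (Fin 2) ℂ) ((n : ℚ)⁻¹) ∈ ι.range := by
    intro n h0 hn
    refine ⟨MvPolynomial.C ⟨(n : ℂ)⁻¹, Zp_inv_nat (not_dvd_of_lt h0 hn)⟩, ?_⟩
    rw [hι, MvPolynomial.map_C, MvPolynomial.algebraMap_apply]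
    congr 1
    show (n : ℂ)⁻¹ = _
    rw [map_inv₀, map_natCast]
  obtain ⟨t, ht⟩ := exists_isTs (ι a₀) (ι b₀)
  obtain ⟨x, hx⟩ := exists_xs ht
  obtain ⟨c, ⟨c₀, rfl⟩, hc⟩ := xs_hasse ι.range hp h5 hΛ ⟨a₀, rfl⟩ ⟨b₀, rfl⟩ ht hx
  rw [Hasse_map ι a₀ b₀, ← hH] at hc
  -- evaluation at a lattice
  have hval : ∀ L, IsLat L → (p : ℂ) * (((p : ℂ) - 2) *
      (-((_root_.bernoulli (p - 1) : ℚ) : ℂ) / ((p - 1).factorial : ℂ)) * ekL (p - 1) L) =
      MvPolynomial.aeval ![e4 L, e6 L] (2 * H + (p : MvPolynomial (Fin 2) (Zp p)) * c₀) := by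
    intro L hL
    set φ : MvPolynomial (Fin 2) ℂ →+* ℂ :=
      ((MvPolynomial.aeval ![e4 L, e6 L] : MvPolynomial (Fin 2) ℂ →ₐ[ℂ] ℂ) :
        MvPolynomial (Fin 2) ℂ →+* ℂ) with hφ
    have hφι : ∀ F : MvPolynomial (Fin 2) (Zp p),
        φ (ι F) = MvPolynomial.aeval ![e4 L, e6 L] F := by
      intro F
      rw [hφ, hι]
      show MvPolynomial.aeval ![e4 L, e6 L] (MvPolynomial.map (Zp p).subtype F) = _
      rw [MvPolynomial.aeval_def, MvPolynomial.aeval_def, MvPolynomial.eval₂_map]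
      rfl
    set m : ℂ := 2 * (Real.pi : ℂ) * Complex.I with hm
    have hpi : (Real.pi : ℂ) ≠ 0 := by exact_mod_cast Real.pi_ne_zero
    have hm0 : m ≠ 0 := mul_ne_zero (mul_ne_zero two_ne_zero hpi) Complex.I_ne_zero
    have hM : IsLat (m • L) := hL.smul hm0
    have hm4 : m ^ 4 = 16 * (Real.pi : ℂ) ^ 4 := by
      rw [hm, mul_pow, mul_pow, Complex.I_pow_four]
      norm_num
    have hm6 : m ^ 6 = -(64 * (Real.pi : ℂ) ^ 6) := by
      have : Complex.I ^ 6 = -1 := by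
        rw [show 6 = 4 + 2 from rfl, pow_add, Complex.I_pow_four, Complex.I_sq, one_mul]
      rw [hm, mul_pow, mul_pow, this]
      norm_num
    have hg2 : φ (ι a₀) = -(g2 (m • L)) / 4 := by
      rw [hφι, ha₀, Pool.Agent.Work.CM.g2_smul hm0, hm4]
      simp only [map_mul, MvPolynomial.aeval_C, MvPolynomial.aeval_X, Matrix.cons_val_zero]
      have : (algebraMap (Zp p) ℂ) u = (u : ℂ) := rfl
      rw [this]
      have hu' : (u : ℂ) = -1 / 48 := by linear_combination huC / 48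
      rw [hu', e4]
      field_simp
      ring
    have hg3 : φ (ι b₀) = -(g3 (m • L)) / 4 := by
      rw [hφι, hb₀, Pool.Agent.Work.CM.g3_smul hm0, hm6]
      simp only [map_mul, MvPolynomial.aeval_C, MvPolynomial.aeval_X, Matrix.cons_val_one]
      have : (algebraMap (Zp p) ℂ) v = (v : ℂ) := rfl
      rw [this]
      have hv' : (v : ℂ) = 1 / 864 := by linear_combination hvC / 864
      rw [hv', e6]
      simp only [Matrix.cons_val_fin_one]
      field_simp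
      ring
    have htL := ht.map φ
    rw [hg2, hg3] at htL
    have h1 := ts_lattice hM htL
    have h2 : (PowerSeries.map φ t) ^ 2 * PowerSeries.map φ x = PowerSeries.X ^ 2 := by
      rw [← map_pow, ← map_mul, hx, map_pow, PowerSeries.map_X]
    have ht0 : PowerSeries.map φ t ≠ 0 := by
      intro h0
      have h3 := htL.c1
      rw [h0, map_zero] at h3
      exact zero_ne_one h3
    have h3 : PowerSeries.map φ x = xL (m • L) := by
      have h4 : (PowerSeries.map φ t) ^ 2 * PowerSeries.map φ x =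
          (PowerSeries.map φ t) ^ 2 * xL (m • L) := by rw [h2, h1]
      exact mul_left_cancel₀ (pow_ne_zero 2 ht0) h4
    have h4 : φ (PowerSeries.coeff (p - 1) x) = PowerSeries.coeff (p - 1) (xL (m • L)) := by
      rw [← h3, PowerSeries.coeff_map]
    rw [xL_coeff h5 L hL] at h4
    rw [← h4, ← hφι]
    have h5' := congrArg φ hc
    rw [map_mul, map_natCast] at h5'
    rw [h5']
    simp only [map_add, map_mul, map_natCast, map_ofNat]
  obtain ⟨c', hc', hκ⟩ := kappa (p := p) h5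
  have hhalf : (2 : ℂ)⁻¹ ∈ Zp p := by
    have := Zp_inv_nat (p := p) (not_dvd_of_lt (by norm_num) (by omega : 2 < p))
    simpa using this
  have h6 : (6 : ℂ)⁻¹ ∈ Zp p := by
    have := Zp_inv_nat (p := p) (n := 6) (by
      have := prime_not_dvd_23 hp h5 1 1
      norm_num at this
      exact this)
    simpa using this
  have hBne : ((_root_.bernoulli (p - 1) : ℚ) : ℂ) ≠ 0 := by
    intro h0
    rw [h0, mul_zero, mul_zero, div_zero] at hκ
    obtain ⟨a, b, hb, h⟩ := hc'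
    have h7 : ((p * a : ℤ) : ℂ) = ((-b : ℤ) : ℂ) := by
      push_cast
      linear_combination -(p : ℂ) * h - (b : ℂ) * hκ
    have h8 : (p : ℤ) * a = -b := by exact_mod_cast h7
    exact hb (by
      have : (p : ℤ) ∣ -b := ⟨a, h8.symm⟩
      simpa using this)
  set K : ℂ := 1 + p * c' with hK
  have hKZ : K ∈ Zp p := add_mem (one_mem _) (mul_mem (natCast_mem _ p) hc')
  set P' : MvPolynomial (Fin 2) (Zp p) :=
    MvPolynomial.C ⟨c', hc'⟩ * H + MvPolynomial.C ⟨K * 2⁻¹, mul_mem hKZ hhalf⟩ * c₀ with hP'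
  set P : MvPolynomial (Fin 2) (Zp p) := H + (p : MvPolynomial (Fin 2) (Zp p)) * P' with hP
  have hPval : ∀ L, IsLat L → ekL (p - 1) L = MvPolynomial.aeval ![e4 L, e6 L] P := by
    intro L hL
    have h7 := hval L hL
    rw [hP, hP']
    simp only [map_add, map_mul, map_natCast, MvPolynomial.aeval_C, map_ofNat] at h7 ⊢
    have e1 : (algebraMap (Zp p) ℂ) ⟨c', hc'⟩ = c' := rfl
    have e2 : (algebraMap (Zp p) ℂ) ⟨K * 2⁻¹, mul_mem hKZ hhalf⟩ = K * 2⁻¹ := rfl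
    rw [e1, e2]
    set h := MvPolynomial.aeval ![e4 L, e6 L] H with hh
    set cc := MvPolynomial.aeval ![e4 L, e6 L] c₀ with hcc
    have hf : (((p - 1).factorial : ℕ) : ℂ) ≠ 0 := by exact_mod_cast Nat.factorial_ne_zero _
    have hp0 : (p : ℂ) ≠ 0 := by exact_mod_cast hp.ne_zero
    have hp2 : (p : ℂ) - 2 ≠ 0 := by
      intro h0
      have h8 : (p : ℂ) = ((2 : ℕ) : ℂ) := by push_cast; linear_combination h0
      have h9 : p = 2 := by exact_mod_cast h8
      omega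
    have e3 : h + (p : ℂ) * (c' * h + K * 2⁻¹ * cc) = K * 2⁻¹ * (2 * h + p * cc) := by
      rw [hK]
      ring
    rw [e3, ← h7, ← hκ]
    field_simp
  refine ⟨P, P', ?_, hPval, rfl⟩
  obtain ⟨a, ha, ha0, haq⟩ := QX_ekL (p := p) h5
  have hInR : InR (Zp p) (1 + HahnSeries.C (p : ℂ) * a) := by
    intro n
    rw [HahnSeries.coeff_add, HahnSeries.C_mul_eq_smul, HahnSeries.coeff_smul, smul_eq_mul,
      HahnSeries.coeff_one]
    refine add_mem ?_ (mul_mem (natCast_mem _ p) (ha n))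
    split_ifs
    · exact one_mem _
    · exact zero_mem _
  have hneg : ∀ n : ℤ, n < 0 → (1 + HahnSeries.C (p : ℂ) * a).coeff n = 0 := by
    intro n hn
    rw [HahnSeries.coeff_add, HahnSeries.C_mul_eq_smul, HahnSeries.coeff_smul, smul_eq_mul,
      HahnSeries.coeff_one, ha0 n hn, if_neg (by omega)]
    simp
  have hW : Wt ((p - 1 : ℕ) : ℤ) (ekL (p - 1)) := Wt_ekL (by omega : 3 ≤ p - 1)
  obtain ⟨P₂, hP₂, hP₂v⟩ := formsL2 (Zp p) h6 hW haq hInR hneg
  have hinj : Function.Injective ι := MvPolynomial.map_injective _ Subtype.val_injective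
  have heq : P = P₂ := by
    apply hinj
    rw [← sub_eq_zero, ← map_sub]
    apply alg_indep
    intro L hL
    have h8 : MvPolynomial.aeval ![e4 L, e6 L] (ι (P - P₂)) =
        MvPolynomial.aeval ![e4 L, e6 L] (P - P₂) := by
      rw [hι, MvPolynomial.aeval_def, MvPolynomial.aeval_def, MvPolynomial.eval₂_map]
      rfl
    rw [h8, map_sub, ← hPval L hL, ← hP₂v L hL, sub_self]
  rw [heq]
  exact hP₂

end Pool.Agent.SS
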