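import Pool.Agent.Work.MP_a5099b_nt.C.QDefs

/-!
# Module C.QTs (M)

The series `t(z)`: existence, uniqueness, base change and first integral, over a `ℚ`-algebra.

`IsTs a b t` says `t_0 = 0`, `t_1 = 1` and `(n+2)(n+1) t_(n+2) = [z^n](2 a t^3 + 3 b t^5)` for all `n`. As `t_0 = 0`, the right
side only involves `t_i` with `i ≤ n` (even `i ≤ n - 2`), so the series is constructed by strong recursion (e.g.
`Nat.strongRec` on the coefficient function, or as the limit of truncations) and is unique (induction).
First integral: `F = (t')^2 - 1 - a t^4 - b t^6` satisfies `F' = 2 t' t'' - (4 a t^3 + 6 b t^5) t' = 0` and has constant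
coefficient `0`; a series with derivative `0` over a `ℚ`-algebra is constant.
-/

set_option autoImplicit false

namespace Pool.Agent.SS

open Polynomial
open Pool.Agent.Work.CM (IsLat g2 g3 tauLat)
open scoped Pointwise MatrixGroups

/-- the right side -/
private noncomputable def rhs {B : Type*} [CommRing B] (a b : B) (t : PowerSeries B) :
    PowerSeries B := PowerSeries.C (2 * a) * t ^ 3 + PowerSeries.C (3 * b) * t ^ 5

private theorem rhs_congr {B : Type*} [CommRing B] (a b : B) {t t' : PowerSeries B} {n : ℕ}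
    (h : ∀ i ≤ n, PowerSeries.coeff i t = PowerSeries.coeff i t') :
    PowerSeries.coeff n (rhs a b t) = PowerSeries.coeff n (rhs a b t') := by
  have h1 : PowerSeries.X ^ (n + 1) ∣ t - t' := by
    rw [PowerSeries.X_pow_dvd_iff]
    intro m hm
    rw [map_sub, h m (by omega), sub_self]
  have h2 : PowerSeries.X ^ (n + 1) ∣ rhs a b t - rhs a b t' := by
    have e : rhs a b t - rhs a b t' = PowerSeries.C (2 * a) * (t ^ 3 - t' ^ 3) +
        PowerSeries.C (3 * b) * (t ^ 5 - t' ^ 5) := by
      unfold rhs
      ring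
    rw [e]
    exact dvd_add ((h1.trans (sub_dvd_pow_sub_pow t t' 3)).mul_left _)
      ((h1.trans (sub_dvd_pow_sub_pow t t' 5)).mul_left _)
  have h3 := (PowerSeries.X_pow_dvd_iff.1 h2) n (by omega)
  rw [map_sub] at h3
  exact sub_eq_zero.1 h3

private theorem inv_cancel {B : Type*} [CommRing B] [Algebra ℚ B] (n : ℕ) :
    algebraMap ℚ B (((n + 2 : ℕ) * (n + 1 : ℕ) : ℚ)⁻¹) * (((n + 2 : ℕ) : B) * ((n + 1 : ℕ) : B)) =
      1 := by
  have h : ((n + 2 : ℕ) : B) * ((n + 1 : ℕ) : B) =
      algebraMap ℚ B ((n + 2 : ℕ) * (n + 1 : ℕ) : ℚ) := by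
    rw [map_mul, map_natCast, map_natCast]
  rw [h, ← map_mul, inv_mul_cancel₀ (by positivity), map_one]

private theorem coeff_dd {B : Type*} [CommRing B] (t : PowerSeries B) (n : ℕ) :
    PowerSeries.coeff n (PowerSeries.derivative B (PowerSeries.derivative B t)) =
      PowerSeries.coeff (n + 2) t * (((n + 2 : ℕ) : B) * ((n + 1 : ℕ) : B)) := by
  rw [PowerSeries.coeff_derivative, PowerSeries.coeff_derivative]
  push_cast
  ring

/-- the coefficients of the solution -/
private noncomputable def cf {B : Type*} [CommRing B] [Algebra ℚ B] (a b : B) (n : ℕ) : B :=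
  if n = 0 then 0 else if n = 1 then 1 else
    algebraMap ℚ B (((n : ℚ) * (n - 1 : ℕ))⁻¹) * PowerSeries.coeff (n - 2)
      (rhs a b (PowerSeries.mk fun i => if _h : i < n then cf a b i else 0))
termination_by n

theorem exists_isTs {B : Type*} [CommRing B] [Algebra ℚ B] (a b : B) : ∃ t, IsTs a b t := by
  refine ⟨PowerSeries.mk (cf a b), ?_, ?_, ?_⟩
  · rw [PowerSeries.coeff_mk, cf, if_pos rfl]
  · rw [PowerSeries.coeff_mk, cf, if_neg (by norm_num), if_pos rfl]
  · ext n
    rw [coeff_dd, PowerSeries.coeff_mk, cf, if_neg (by omega), if_neg (by omega)]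
    have h1 : PowerSeries.coeff (n + 2 - 2)
        (rhs a b (PowerSeries.mk fun i => if _h : i < n + 2 then cf a b i else 0)) =
        PowerSeries.coeff n (rhs a b (PowerSeries.mk (cf a b))) := by
      rw [Nat.add_sub_cancel]
      refine rhs_congr a b fun i hi => ?_
      rw [PowerSeries.coeff_mk, PowerSeries.coeff_mk, dif_pos (by omega)]
    rw [h1]
    have h2 := inv_cancel (B := B) n
    have h3 : n + 2 - 1 = n + 1 := by omega
    rw [h3]
    show _ = PowerSeries.coeff n (rhs a b (PowerSeries.mk (cf a b)))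
    linear_combination (PowerSeries.coeff n (rhs a b (PowerSeries.mk (cf a b)))) * h2

theorem IsTs.unique {B : Type*} [CommRing B] [Algebra ℚ B] {a b : B} {t t' : PowerSeries B}
    (h : IsTs a b t) (h' : IsTs a b t') : t = t' := by
  ext n
  induction n using Nat.strong_induction_on with
  | _ n ih =>
    rcases n with _ | _ | n
    · rw [h.c0, h'.c0]
    · rw [h.c1, h'.c1]
    · have h1 := congrArg (PowerSeries.coeff n) h.ode
      have h2 := congrArg (PowerSeries.coeff n) h'.ode
      rw [coeff_dd] at h1 h2
      have h3 : PowerSeries.coeff n (rhs a b t) = PowerSeries.coeff n (rhs a b t') :=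
        rhs_congr a b fun i hi => ih i (by omega)
      have h4 : PowerSeries.coeff (n + 2) t * (((n + 2 : ℕ) : B) * ((n + 1 : ℕ) : B)) =
          PowerSeries.coeff (n + 2) t' * (((n + 2 : ℕ) : B) * ((n + 1 : ℕ) : B)) :=
        h1.trans (h3.trans h2.symm)
      have h5 := inv_cancel (B := B) n
      linear_combination algebraMap ℚ B (((n + 2 : ℕ) * (n + 1 : ℕ) : ℚ)⁻¹) * h4 -
        (PowerSeries.coeff (n + 2) t - PowerSeries.coeff (n + 2) t') * h5

private theorem map_der {B B' : Type*} [CommRing B] [CommRing B'] (f : B →+* B')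
    (t : PowerSeries B) : PowerSeries.derivative B' (PowerSeries.map f t) =
      PowerSeries.map f (PowerSeries.derivative B t) := by
  ext n
  rw [PowerSeries.coeff_derivative, PowerSeries.coeff_map, PowerSeries.coeff_map,
    PowerSeries.coeff_derivative, map_mul, map_add, map_natCast, map_one]

theorem IsTs.map {B B' : Type*} [CommRing B] [CommRing B'] {a b : B} {t : PowerSeries B}
    (h : IsTs a b t) (f : B →+* B') : IsTs (f a) (f b) (PowerSeries.map f t) := by
  refine ⟨?_, ?_, ?_⟩
  · rw [PowerSeries.coeff_map, h.c0, map_zero]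
  · rw [PowerSeries.coeff_map, h.c1, map_one]
  · rw [map_der, map_der, h.ode]
    simp only [map_add, map_mul, map_pow, PowerSeries.map_C, map_ofNat]

theorem IsTs.first {B : Type*} [CommRing B] [Algebra ℚ B] {a b : B} {t : PowerSeries B}
    (h : IsTs a b t) :
    (PowerSeries.derivative B t) ^ 2 =
      1 + PowerSeries.C a * t ^ 4 + PowerSeries.C b * t ^ 6 := by
  have h1 : PowerSeries.derivative B ((PowerSeries.derivative B t) ^ 2 -
      (1 + PowerSeries.C a * t ^ 4 + PowerSeries.C b * t ^ 6)) = 0 := by
    have e0 := h.ode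
    rw [map_sub, map_add, map_add, PowerSeries.derivative_pow]
    simp only [Derivation.leibniz, PowerSeries.derivative_pow, PowerSeries.derivative_C,
      Derivation.map_one_eq_zero, smul_eq_mul, e0]
    push_cast
    simp only [map_mul, map_ofNat]
    ring
  have h2 : ∀ n, PowerSeries.coeff n ((PowerSeries.derivative B t) ^ 2 -
      (1 + PowerSeries.C a * t ^ 4 + PowerSeries.C b * t ^ 6)) = 0 := by
    intro n
    rcases n with _ | n
    · have e1 : PowerSeries.constantCoeff (PowerSeries.derivative B t) = 1 := by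
        rw [← PowerSeries.coeff_zero_eq_constantCoeff_apply, PowerSeries.coeff_derivative, h.c1]
        simp
      have e2 : PowerSeries.constantCoeff t = 0 := by
        rw [← PowerSeries.coeff_zero_eq_constantCoeff_apply, h.c0]
      rw [PowerSeries.coeff_zero_eq_constantCoeff_apply]
      simp [e1, e2]
    · have e3 := congrArg (PowerSeries.coeff n) h1
      rw [PowerSeries.coeff_derivative, map_zero] at e3
      have e4 : algebraMap ℚ B (((n + 1 : ℕ) : ℚ)⁻¹) * ((n : B) + 1) = 1 := by
        have e5 : (n : B) + 1 = algebraMap ℚ B ((n + 1 : ℕ) : ℚ) := by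
          rw [map_natCast]
          push_cast
          ring
        rw [e5, ← map_mul, inv_mul_cancel₀ (by positivity), map_one]
      linear_combination algebraMap ℚ B (((n + 1 : ℕ) : ℚ)⁻¹) * e3 -
        (PowerSeries.coeff (n + 1) ((PowerSeries.derivative B t) ^ 2 -
      (1 + PowerSeries.C a * t ^ 4 + PowerSeries.C b * t ^ 6))) * e4
  have h3 : (PowerSeries.derivative B t) ^ 2 -
      (1 + PowerSeries.C a * t ^ 4 + PowerSeries.C b * t ^ 6) = 0 := by
    ext n
    rw [h2 n, map_zero]
  exact sub_eq_zero.1 h3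

end Pool.Agent.SS
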